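import Pool.Agent.J4H63.AS.ToSpec

/-!
# Polynomially larger universes
-/

namespace Pool.Agent.J4H63.AS

open MvPolynomial GZ

/-- the number with the given digits, the first one being the highest -/
def val (n : ℕ) : {c : ℕ} → (Fin c → ℕ) → ℕ
  | 0, _ => 0
  | c + 1, d => d 0 * n ^ c + val n (fun j => d j.succ)

/-- the digits of a number -/
def dig (n : ℕ) : (c : ℕ) → ℕ → (Fin c → ℕ)
  | 0, _ => fun j => j.elim0
  | c + 1, x => Matrix.vecCons (x / n ^ c) (dig n c (x % n ^ c))

theorem val_lt {n : ℕ} : ∀ {c : ℕ} {d : Fin c → ℕ}, (∀ j, d j < n) → val n d < n ^ c := by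
  intro c
  induction c with
  | zero => exact fun _ => Nat.one_pos
  | succ c ih =>
    intro d hd
    have h1 := ih fun j => hd j.succ
    have h2 : (d 0 + 1) * n ^ c ≤ n * n ^ c := Nat.mul_le_mul_right _ (hd 0)
    have h3 : (d 0 + 1) * n ^ c = d 0 * n ^ c + n ^ c := by ring
    change d 0 * n ^ c + val n (fun j => d j.succ) < n ^ (c + 1)
    rw [pow_succ, Nat.mul_comm (n ^ c) n]
    omega

theorem dig_lt {n : ℕ} (hn : 0 < n) : ∀ {c : ℕ} {x : ℕ}, x < n ^ c → ∀ j, dig n c x j < n := by
  intro c
  induction c with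
  | zero => exact fun _ j => j.elim0
  | succ c ih =>
    intro x hx j
    have hpos : 0 < n ^ c := Nat.pow_pos hn
    refine Fin.cases ?_ (fun j => ?_) j
    · change x / n ^ c < n
      rw [Nat.div_lt_iff_lt_mul hpos]
      rw [pow_succ, Nat.mul_comm] at hx
      exact hx
    · exact ih (Nat.mod_lt _ hpos) j

theorem val_dig {n : ℕ} (hn : 0 < n) : ∀ {c : ℕ} {x : ℕ}, x < n ^ c → val n (dig n c x) = x := by
  intro c
  induction c with
  | zero =>
    intro x hx
    rw [pow_zero] at hx
    change 0 = x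
    omega
  | succ c ih =>
    intro x _
    have hpos : 0 < n ^ c := Nat.pow_pos hn
    change x / n ^ c * n ^ c + val n (dig n c (x % n ^ c)) = x
    rw [ih (Nat.mod_lt _ hpos), Nat.mul_comm]
    exact Nat.div_add_mod _ _

theorem dig_val {n : ℕ} : ∀ {c : ℕ} {d : Fin c → ℕ}, (∀ j, d j < n) → dig n c (val n d) = d := by
  intro c
  induction c with
  | zero => exact fun _ => funext fun j => j.elim0
  | succ c ih =>
    intro d hd
    have h1 := val_lt (c := c) (d := fun j => d j.succ) fun j => hd j.succ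
    have hpos : 0 < n ^ c := by omega
    funext j
    refine Fin.cases ?_ (fun j => ?_) j
    · change (d 0 * n ^ c + val n (fun j => d j.succ)) / n ^ c = d 0
      rw [Nat.add_comm, Nat.add_mul_div_right _ _ hpos, Nat.div_eq_of_lt h1, Nat.zero_add]
    · change dig n c ((d 0 * n ^ c + val n (fun j => d j.succ)) % n ^ c) j = d j.succ
      rw [Nat.add_comm, Nat.add_mul_mod_self_right, Nat.mod_eq_of_lt h1, ih fun j => hd j.succ]

theorem val_inj {n c : ℕ} {d d' : Fin c → ℕ} (hd : ∀ j, d j < n) (hd' : ∀ j, d' j < n) :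
    val n d = val n d' ↔ ∀ j, d j = d' j := by
  constructor
  · intro h j
    have := congrArg (dig n c) h
    rw [dig_val hd, dig_val hd'] at this
    rw [this]
  · intro h
    rw [funext h]

/-- the lexicographic order -/
def lex : {c : ℕ} → (Fin c → ℕ) → (Fin c → ℕ) → Prop
  | 0, _, _ => False
  | _ + 1, d, d' => d 0 < d' 0 ∨ (d 0 = d' 0 ∧ lex (fun j => d j.succ) (fun j => d' j.succ))

theorem lex_iff {n : ℕ} : ∀ {c : ℕ} {d d' : Fin c → ℕ}, (∀ j, d j < n) → (∀ j, d' j < n) →
    (lex d d' ↔ val n d < val n d') := by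
  intro c
  induction c with
  | zero =>
    intro d d' _ _
    exact ⟨fun h => h.elim, fun h => absurd h (lt_irrefl 0)⟩
  | succ c ih =>
    intro d d' hd hd'
    have h1 := val_lt (c := c) (d := fun j => d j.succ) fun j => hd j.succ
    have h2 := val_lt (c := c) (d := fun j => d' j.succ) fun j => hd' j.succ
    have h3 := ih (fun j => hd j.succ) (fun j => hd' j.succ)
    change (d 0 < d' 0 ∨ (d 0 = d' 0 ∧ lex (fun j => d j.succ) (fun j => d' j.succ))) ↔
      d 0 * n ^ c + val n (fun j => d j.succ) < d' 0 * n ^ c + val n (fun j => d' j.succ)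
    rw [h3]
    rcases lt_trichotomy (d 0) (d' 0) with h | h | h
    · have h4 : (d 0 + 1) * n ^ c ≤ d' 0 * n ^ c := Nat.mul_le_mul_right _ h
      have h5 : (d 0 + 1) * n ^ c = d 0 * n ^ c + n ^ c := by ring
      constructor
      · intro _
        omega
      · intro _
        exact Or.inl h
    · rw [h]
      constructor
      · rintro (h4 | ⟨_, h4⟩)
        · exact absurd h4 (lt_irrefl _)
        · omega
      · intro h4
        exact Or.inr ⟨rfl, by omega⟩
    · have h4 : (d' 0 + 1) * n ^ c ≤ d 0 * n ^ c := Nat.mul_le_mul_right _ h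
      have h5 : (d' 0 + 1) * n ^ c = d' 0 * n ^ c + n ^ c := by ring
      constructor
      · rintro (h6 | ⟨h6, _⟩) <;> omega
      · intro _
        omega

theorem def_lex {σ : Type} : ∀ (c : ℕ) {κ : Type} (f g : Fin c → κ),
    Def (fun _ (_ : σ → List ℕ → Prop) (w : κ → ℕ) => lex (fun j => w (f j)) (fun j => w (g j))) := by
  intro c
  induction c with
  | zero => exact fun f g => Def.const False
  | succ c ih =>
    intro κ f g
    exact Def.or (Def.lt (f 0) (g 0)) (Def.and (Def.eq (f 0) (g 0))
      (ih (fun j => f j.succ) (fun j => g j.succ)))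

section

variable {σ ι : Type}

/-- a relation on the large universe from a relation between digits -/
def dec (n c : ℕ) (R : σ → List ℕ → Prop) (s : σ) (l : List ℕ) : Prop :=
  R s (l.flatMap fun x => List.ofFn (dig n c x))

theorem flatMap_inj {n c : ℕ} (hn : 0 < n) (hc : 0 < c) : ∀ {l l' : List ℕ},
    (∀ x ∈ l, x < n ^ c) → (∀ x ∈ l', x < n ^ c) →
    (l.flatMap fun x => List.ofFn (dig n c x)) = (l'.flatMap fun x => List.ofFn (dig n c x)) →
    l = l' := by
  have hlen : ∀ x, (List.ofFn (dig n c x)).length = c := fun x => List.length_ofFn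
  intro l
  induction l with
  | nil =>
    intro l' _ _ h
    rcases l' with _ | ⟨y, l'⟩
    · rfl
    · have := congrArg List.length h
      rw [List.flatMap_cons, List.length_append, hlen] at this
      simp at this
      omega
  | cons x l ih =>
    intro l' hl hl' h
    rcases l' with _ | ⟨y, l'⟩
    · have := congrArg List.length h
      rw [List.flatMap_cons, List.length_append, hlen] at this
      simp at this
      omega
    · rw [List.flatMap_cons, List.flatMap_cons] at h
      obtain ⟨h1, h2⟩ := List.append_inj h (by rw [hlen, hlen])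
      have h3 := List.ofFn_injective h1
      have h4 := congrArg (val n) h3
      rw [val_dig hn (hl x (by simp)), val_dig hn (hl' y (by simp))] at h4
      rw [h4, ih (fun z hz => hl z (by simp [hz])) (fun z hz => hl' z (by simp [hz])) h2]

/-- every relation on the large universe is obtained -/
theorem exists_dec {n c : ℕ} (hn : 0 < n) (hc : 0 < c) (R : σ → List ℕ → Prop) :
    ∃ R' : σ → List ℕ → Prop, ∀ s l, (∀ x ∈ l, x < n ^ c) → (dec n c R' s l ↔ R s l) := by
  refine ⟨fun s l' => ∃ l, (∀ x ∈ l, x < n ^ c) ∧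
    l' = (l.flatMap fun x => List.ofFn (dig n c x)) ∧ R s l, fun s l hl => ?_⟩
  constructor
  · rintro ⟨l', h1, h2, h3⟩
    rw [flatMap_inj hn hc hl h1 h2]
    exact h3
  · intro h
    exact ⟨l, hl, rfl, h⟩

theorem Def.pow {Q : ℕ → (σ → List ℕ → Prop) → (ι → ℕ) → Prop} (hQ : Def Q) (c : ℕ) :
    ∃ Q' : ℕ → (σ → List ℕ → Prop) → (ι × Fin c → ℕ) → Prop, Def Q' ∧
      ∀ n, 0 < n → ∀ R v, (∀ p, v p < n) →
        (Q (n ^ c) (dec n c R) (fun i => val n (fun j => v (i, j))) ↔ Q' n R v) := by
  induction hQ with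
  | eq i j =>
    refine ⟨fun n R v => ∀ k : Fin c, v (i, k) = v (j, k), Def.allFin c fun k => Def.eq _ _,
      fun n _ R v hv => val_inj (fun j => hv _) (fun j => hv _)⟩
  | lt i j =>
    refine ⟨_, def_lex c (fun k => (i, k)) (fun k => (j, k)), fun n _ R v hv => ?_⟩
    exact (lex_iff (fun j => hv _) (fun j => hv _)).symm
  | @rel ι s l =>
    refine ⟨_, Def.rel s (l.flatMap fun i => List.ofFn fun j : Fin c => (i, j)),
      fun n _ R v hv => ?_⟩
    have h1 : ((l.map fun i => val n (fun j => v (i, j))).flatMap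
        fun x => List.ofFn (dig n c x)) =
        (l.flatMap fun i => List.ofFn fun j : Fin c => (i, j)).map v := by
      rw [List.flatMap_map, List.map_flatMap]
      congr 1
      funext i
      rw [List.map_ofFn, dig_val fun j => hv (i, j)]
      rfl
    change R s ((l.map fun i => val n (fun j => v (i, j))).flatMap
        fun x => List.ofFn (dig n c x)) ↔ _
    rw [h1]
  | not _ ih =>
    obtain ⟨Q', hQ', h⟩ := ih
    exact ⟨_, Def.not hQ', fun n hn R v hv => not_congr (h n hn R v hv)⟩
  | and _ _ ih1 ih2 =>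
    obtain ⟨Q', hQ', h⟩ := ih1
    obtain ⟨Q'', hQ'', h'⟩ := ih2
    exact ⟨_, Def.and hQ' hQ'', fun n hn R v hv => and_congr (h n hn R v hv) (h' n hn R v hv)⟩
  | @ex ι Q _ ih =>
    obtain ⟨Q', hQ', h⟩ := ih
    refine ⟨fun n R v => ∃ y : Fin c → ℕ, (∀ j, y j < n) ∧
      Q' n R (fun p => p.1.elim (y p.2) (fun i => v (i, p.2))), ?_, fun n hn R v hv => ?_⟩
    · refine Def.exVec c (P := fun n R v y =>
        Q' n R (fun p => p.1.elim (y p.2) (fun i => v (i, p.2)))) ?_
      refine (hQ'.subst (κ := (ι × Fin c) ⊕ Fin c) (fun p => p.1.elim (Sum.inr p.2)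
        (fun i => Sum.inl (i, p.2)))).congr fun n R w => ?_
      have : (fun p : Option ι × Fin c => p.1.elim (w (Sum.inr p.2))
          fun i => w (Sum.inl (i, p.2))) = fun p => w (p.1.elim (Sum.inr p.2)
            fun i => Sum.inl (i, p.2)) := by
        funext p
        rcases p with ⟨_ | i, j⟩ <;> rfl
      rw [this]
    · have key : ∀ y : Fin c → ℕ, (∀ j, y j < n) →
          (Q (n ^ c) (dec n c R) (fun o => o.elim (val n y) (fun i => val n fun j => v (i, j))) ↔
            Q' n R (fun p => p.1.elim (y p.2) (fun i => v (i, p.2)))) := by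
        intro y hy
        rw [← h n hn R _ (fun p => ?_)]
        · have : (fun o : Option ι => o.elim (val n y) (fun i => val n fun j => v (i, j))) =
              fun o => val n fun j => ((o, j) : Option ι × Fin c).1.elim (y (o, j).2)
                (fun i => v (i, (o, j).2)) := by
            funext o
            cases o <;> rfl
          rw [this]
        · rcases p with ⟨_ | i, j⟩
          · exact hy j
          · exact hv _
      constructor
      · rintro ⟨x, hx, h1⟩
        refine ⟨dig n c x, dig_lt hn hx, (key _ (dig_lt hn hx)).1 ?_⟩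
        rw [val_dig hn hx]
        exact h1
      · rintro ⟨y, hy, h1⟩
        exact ⟨val n y, val_lt hy, (key y hy).2 h1⟩

end

theorem val_base (n c : ℕ) :
    val n (fun j : Fin (c + 2) => if j.val = c then 1 else 0) = n := by
  induction c with
  | zero =>
    simp [val]
  | succ c ih =>
    have h1 : val n (fun j : Fin (c + 1 + 2) => if j.val = c + 1 then 1 else 0) =
        (if (0 : ℕ) = c + 1 then 1 else 0) * n ^ (c + 2) +
          val n (fun j : Fin (c + 2) => if j.succ.val = c + 1 then 1 else 0) := rfl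
    rw [h1, if_neg (by omega), zero_mul, zero_add]
    have h2 : (fun j : Fin (c + 2) => if j.succ.val = c + 1 then 1 else 0) =
        fun j : Fin (c + 2) => if j.val = c then 1 else 0 := by
      funext j
      simp
    rw [h2, ih]

/-- the normal form of spectra -/
theorem isSpectrum_of_se {S : Set ℕ} (h0 : 0 ∉ S)
    (hS : SE (fun (_ : Empty → ℕ → Prop) (v : Unit → ℕ) => v () ∈ S)) : IsSpectrum S := by
  obtain ⟨σ, Φ, hΦ, h⟩ := hS
  have h' : ∀ n, n ∈ S ↔ ∃ A : Empty ⊕ σ → ℕ → Prop, Φ A (fun _ => n) := by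
    intro n
    have h1 := h (fun e => e.elim) (fun _ => n)
    refine h1.trans ?_
    constructor
    · rintro ⟨A, hA⟩
      exact ⟨_, hA⟩
    · rintro ⟨A, hA⟩
      refine ⟨fun s => A (Sum.inr s), ?_⟩
      have : (Sum.elim (fun e : Empty => e.elim) (fun s => A (Sum.inr s)) :
          Empty ⊕ σ → ℕ → Prop) = A := by
        funext s
        rcases s with e | s
        · exact e.elim
        · rfl
      rw [this]
      exact hA
  obtain ⟨c₀, P, hP, h1⟩ := hΦ.rep 2
  obtain ⟨Q, hQ, h2⟩ := hP.elim
  obtain ⟨Q', hQ', h3⟩ := hQ.pow (c₀ + 2)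
  have main : ∀ n ≥ 2, (n ∈ S ↔ ∃ R, Q' n R
      (fun p => if p.2.val = c₀ then 1 else 0)) := by
    intro n hn
    have hpow : n < n ^ 2 := by
      rw [pow_two]
      exact lt_mul_of_one_lt_right (by omega) (by omega)
    have hpow' : n < n ^ (c₀ + 2) :=
      hpow.trans_le (Nat.pow_le_pow_right (by omega) (by omega))
    rw [h' n]
    have e1 : (∃ A, Φ A (fun _ => n)) ↔ ∃ A, P (n ^ (c₀ + 2)) A (fun _ => n) :=
      exists_congr fun A => h1 (c₀ + 2) (by omega) n hn A _ fun _ => hpow
    rw [e1, h2 _ _ fun _ => hpow']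
    have e2 : ∀ R, Q (n ^ (c₀ + 2)) (dec n (c₀ + 2) R) (fun _ => n) ↔
        Q' n R (fun p => if p.2.val = c₀ then 1 else 0) := by
      intro R
      rw [← h3 n (by omega) R _ (fun p => by split_ifs <;> omega)]
      have : (fun i : Unit => val n fun j : Fin (c₀ + 2) =>
          if ((i, j) : Unit × Fin (c₀ + 2)).2.val = c₀ then 1 else 0) = fun _ => n := by
        funext i
        exact val_base n c₀
      rw [this]
    constructor
    · rintro ⟨R, hR⟩
      obtain ⟨R', hR'⟩ := exists_dec (n := n) (c := c₀ + 2) (by omega) (by omega) R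
      exact ⟨R', (e2 R').1 ((hQ.congr_rel _ _ _ _ (fun _ => hpow') hR').2 hR)⟩
    · rintro ⟨R, hR⟩
      exact ⟨_, (e2 R).2 hR⟩
  refine isSpectrum_of_def (σ := (Empty ⊕ σ) ⊕ Fin 2) (P := fun n R _ =>
    ((∀ x < n, ∀ y < n, x = y) ∧ 1 ∈ S) ∨ (¬ (∀ x < n, ∀ y < n, x = y) ∧
      ∃ z < n, ∃ o < n, (∀ w < n, ¬ w < z) ∧ (z < o ∧ ∀ w < n, ¬ (z < w ∧ w < o)) ∧
        Q' n R (fun p => if p.2.val = c₀ then o else z))) ?_ fun n => ?_
  · have hone : Def (fun n (_ : (Empty ⊕ σ) ⊕ Fin 2 → List ℕ → Prop) (_ : Empty → ℕ) =>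
        ∀ x < n, ∀ y < n, x = y) :=
      Def.all (P := fun n _ _ x => ∀ y < n, x = y) (Def.all (P := fun _ _ v y => v none = y)
        (Def.eq (some none) none))
    refine Def.or (Def.and hone (Def.const _)) (Def.and (Def.not hone) ?_)
    refine Def.ex' (P := fun n R v z => ∃ o < n, (∀ w < n, ¬ w < z) ∧
      (z < o ∧ ∀ w < n, ¬ (z < w ∧ w < o)) ∧
        Q' n R (fun p => if p.2.val = c₀ then o else z)) ?_
    refine Def.ex' (P := fun n R v o => (∀ w < n, ¬ w < v none) ∧
      (v none < o ∧ ∀ w < n, ¬ (v none < w ∧ w < o)) ∧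
        Q' n R (fun p => if p.2.val = c₀ then o else v none)) ?_
    refine Def.and (def_zero (some none)) (Def.and (def_succ (some none) none) ?_)
    refine (hQ'.subst (κ := Option (Option Empty))
      (fun p => if p.2.val = c₀ then none else some none)).congr fun n R w => ?_
    have : (fun p : Unit × Fin (c₀ + 2) => if p.2.val = c₀ then w none else w (some none)) =
        fun p => w (if p.2.val = c₀ then none else some none) := by
      funext p
      split_ifs <;> rfl
    rw [this]
  · rcases Nat.lt_trichotomy n 1 with hn | rfl | hn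
    · obtain rfl : n = 0 := by omega
      exact ⟨fun h => absurd h h0, fun h => absurd h.1 (lt_irrefl 0)⟩
    · constructor
      · intro h
        exact ⟨Nat.one_pos, fun _ _ => False, Or.inl ⟨fun x hx y hy => by omega, h⟩⟩
      · rintro ⟨_, R, h | h⟩
        · exact h.2
        · exact absurd (fun x hx y hy => by omega) h.1
    · rw [main n (by omega)]
      have hne : ¬ ∀ x < n, ∀ y < n, x = y := fun h => by
        have := h 0 (by omega) 1 (by omega)
        omega
      constructor
      · rintro ⟨R, hR⟩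
        refine ⟨by omega, R, Or.inr ⟨hne, 0, by omega, 1, by omega, fun w _ => by omega,
          ⟨by omega, fun w _ => by omega⟩, hR⟩⟩
      · rintro ⟨_, R, h | ⟨_, z, hz, o, ho, hz', ho', hR⟩⟩
        · exact absurd h.1 hne
        · have hz0 := (zero_iff hz).1 hz'
          have ho1 := (succ_iff ho).1 ho'
          subst hz0
          subst ho1
          exact ⟨R, hR⟩

theorem isSpectrum_iff {S : Set ℕ} : IsSpectrum S ↔
    0 ∉ S ∧ SE (fun (_ : Empty → ℕ → Prop) (v : Unit → ℕ) => v () ∈ S) :=
  ⟨IsSpectrum.se, fun h => isSpectrum_of_se h.1 h.2⟩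

/-- membership in a spectrum -/
theorem IsSpectrum.mem {S : Set ℕ} (hS : IsSpectrum S) {τ ι : Type} {f : (ι → ℕ) → ℕ} (hf : PF f) :
    SE (fun (_ : τ → ℕ → Prop) v => f v ∈ S) :=
  ((hS.se.2.mapRel (Empty.elim : Empty → τ)).subst (f := fun _ v => f v) fun _ => hf).congr
    fun _ _ => Iff.rfl

end Pool.Agent.J4H63.AS
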