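import Pool.Agent.J4H63.AS.Layout
import Pool.Agent.J4H63.AS.Pow

/-!
# Bounded formulas for the code
-/

namespace Pool.Agent.J4H63.AS

open GZ

variable {σ τ ι : Type}

theorem _root_.Pool.Agent.J4H63.GZ.PF.up {κ : Type} {f : (κ → ℕ) → ℕ} (hf : PF f) :
    PF (fun w : Option κ → ℕ => f (fun i => w (some i))) := PF.upp hf

namespace SB

theorem dvd {f g : (ι → ℕ) → ℕ} (hf : PF f) (hg : PF g) :
    SB (fun (_ : σ → ℕ → Prop) v => f v ∣ g v) :=
  (ex_le (P := fun _ v x => g v = f v * x) hg (eqf (PF.up hg)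
    ((PF.up hf).mul (PF.proj none)))).congr fun A v => by
    constructor
    · rintro ⟨x, hx⟩
      rcases Nat.eq_zero_or_pos (f v) with h0 | h0
      · exact ⟨0, Nat.zero_le _, by rw [hx, h0, Nat.zero_mul, Nat.zero_mul]⟩
      · exact ⟨x, by rw [hx]; exact Nat.le_mul_of_pos_left _ h0, hx⟩
    · rintro ⟨x, _, hx⟩
      exact ⟨x, hx⟩

theorem prime {f : (ι → ℕ) → ℕ} (hf : PF f) : SB (fun (_ : σ → ℕ → Prop) v => (f v).Prime) :=
  ((lef (PF.const 2) hf).and (all_le (P := fun _ v m => m ∣ f v → m = 1 ∨ m = f v) hf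
    ((dvd (PF.proj none) (PF.up hf)).imp ((eqf (PF.proj none) (PF.const 1)).or
      (eqf (PF.proj none) (PF.up hf)))))).congr fun A v => by
    rw [Nat.prime_def]
    constructor
    · rintro ⟨h1, h2⟩
      exact ⟨h1, fun m _ => h2 m⟩
    · rintro ⟨h1, h2⟩
      exact ⟨h1, fun m hm => h2 m (Nat.le_of_dvd (by omega) hm) hm⟩

end SB

/-- powers of two -/
def IsPow2 (n : ℕ) : Prop := ∃ k, n = 2 ^ k

theorem isPow2_iff {n : ℕ} : IsPow2 n ↔ 0 < n ∧ ∀ d ≤ n, d ∣ n → d = 1 ∨ 2 ∣ d := by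
  constructor
  · rintro ⟨k, rfl⟩
    refine ⟨Nat.two_pow_pos k, fun d _ hd => ?_⟩
    obtain ⟨m, _, rfl⟩ := (Nat.dvd_prime_pow Nat.prime_two).1 hd
    cases m with
    | zero => exact Or.inl rfl
    | succ m => exact Or.inr ⟨2 ^ m, by ring⟩
  · rintro ⟨h0, h⟩
    rcases Nat.eq_two_pow_or_exists_odd_prime_and_dvd n with h1 | ⟨p, hp, hpn, hodd⟩
    · exact h1
    · rcases h p (Nat.le_of_dvd h0 hpn) hpn with h2 | h2
      · exact absurd hp (by rw [h2]; exact Nat.not_prime_one)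
      · obtain ⟨k, hk⟩ := hodd
        omega

theorem SB.pow2 {f : (ι → ℕ) → ℕ} (hf : PF f) : SB (fun (_ : σ → ℕ → Prop) v => IsPow2 (f v)) :=
  ((SB.ltf (PF.const 0) hf).and (SB.all_le (P := fun _ v m => m ∣ f v → m = 1 ∨ 2 ∣ m) hf
    ((SB.dvd (PF.proj none) (PF.up hf)).imp ((SB.eqf (PF.proj none) (PF.const 1)).or
      (SB.dvd (PF.const 2) (PF.proj none)))))).congr fun A v => isPow2_iff

/-- the parameters of the code, as a relation -/
def Par (M p l : ℕ) : Prop :=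
  IsPow2 M ∧ 4 ≤ M ∧ (p.Prime ∧ 8 * M < p ∧ ∀ q < p, 8 * M < q → ¬ q.Prime) ∧
    (p ^ 2 * (8 * M) * l ≤ 8191 * M ^ 13 ∧ 8191 * M ^ 13 < p ^ 2 * (8 * M) * (l + 1))

theorem par_iff {M p l : ℕ} : Par M p l ↔ ∃ j ≥ 2, M = 2 ^ j ∧ p = pp j ∧ l = ll j := by
  constructor
  · rintro ⟨⟨j, rfl⟩, h4, ⟨h1, h2, h3⟩, h5, h6⟩
    obtain rfl : p = pp j := pp_eq h2 h1 h3
    refine ⟨j, ?_, rfl, rfl, ll_eq h5 h6⟩
    by_contra hlt
    have : 2 ^ j ≤ 2 ^ 1 := Nat.pow_le_pow_right (by omega) (by omega)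
    omega
  · rintro ⟨j, hj, rfl, rfl, rfl⟩
    refine ⟨⟨j, rfl⟩, ?_, ⟨pp_prime j, pp_gt j, fun q h1 h2 => pp_min h1 h2⟩, YY_mul_ll j,
      lt_YY_mul j⟩
    have : 2 ^ 2 ≤ 2 ^ j := Nat.pow_le_pow_right (by omega) hj
    omega

theorem SB.par {M p l : (ι → ℕ) → ℕ} (hM : PF M) (hp : PF p) (hl : PF l) :
    SB (fun (_ : σ → ℕ → Prop) v => Par (M v) (p v) (l v)) := by
  refine (SB.pow2 hM).and ((SB.lef (PF.const 4) hM).and (SB.and ?_ ?_))
  · refine (SB.prime hp).and ((SB.ltf ((PF.const 8).mul hM) hp).and ?_)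
    exact SB.all_lt (P := fun _ v q => 8 * M v < q → ¬ q.Prime) hp
      ((SB.ltf ((PF.const 8).mul (PF.up hM)) (PF.proj none)).imp (SB.prime (PF.proj none)).not)
  · exact (SB.lef (((hp.pow 2).mul ((PF.const 8).mul hM)).mul hl)
      ((PF.const 8191).mul (hM.pow 13))).and (SB.ltf ((PF.const 8191).mul (hM.pow 13))
        (((hp.pow 2).mul ((PF.const 8).mul hM)).mul (hl.add (PF.const 1))))

/-- the sets of the code, by a formula -/
def InB (M p α β g x : ℕ) : Prop :=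
  ∃ h < p, (∃ q ≤ α * x + β, α * x + β = p * q + h) ∧
    ∃ P ≤ 4 * M, (IsPow2 P ∧ h * P < p ∧ ∀ P' ≤ 4 * M, IsPow2 P' → h * P' < p → P' ≤ P) ∧
      ∃ q ≤ g, ∃ r < P, g = (2 * q + 1) * P + r

theorem testBit_iff {g k : ℕ} : g.testBit k = true ↔
    ∃ q ≤ g, ∃ r < 2 ^ k, g = (2 * q + 1) * 2 ^ k + r := by
  rw [Nat.testBit_eq_decide_div_mod_eq, decide_eq_true_eq]
  have hpos := Nat.two_pow_pos k
  constructor
  · intro h
    refine ⟨g / 2 ^ k / 2, (Nat.div_le_self _ _).trans (Nat.div_le_self _ _), g % 2 ^ k,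
      Nat.mod_lt _ hpos, ?_⟩
    have h1 := Nat.div_add_mod (g / 2 ^ k) 2
    rw [h] at h1
    rw [h1, Nat.mul_comm]
    exact (Nat.div_add_mod g (2 ^ k)).symm
  · rintro ⟨q, _, r, hr, h⟩
    have : g / 2 ^ k = 2 * q + 1 := by
      rw [h, Nat.mul_comm, Nat.mul_add_div hpos, Nat.div_eq_of_lt hr, Nat.add_zero]
    rw [this]
    omega

theorem inB_iff {j p α β g x : ℕ} (hp : 0 < p) :
    InB (2 ^ j) p α β g x ↔ InA j p α β g x := by
  unfold InB InA
  rw [testBit_iff]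
  have h4 : 4 * 2 ^ j = 2 ^ (j + 2) := by ring
  constructor
  · rintro ⟨h, hh, ⟨q', _, hq'⟩, P, hP, ⟨⟨k, rfl⟩, h1, h2⟩, q, hq, r, hr, he⟩
    have hhs : hsh p α β x = h := by
      unfold hsh
      rw [hq', Nat.mul_add_mod, Nat.mod_eq_of_lt hh]
    rw [hhs]
    have hk : lvl j p h = k := by
      apply le_antisymm
      · have h6 : 2 ^ lvl j p h ≤ 4 * 2 ^ j := by
          rw [h4]
          exact Nat.pow_le_pow_right (by omega) (lvl_le _ _ _)
        have h3 := h2 (2 ^ lvl j p h) h6 ⟨_, rfl⟩ (lvl_spec hh)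
        exact (Nat.pow_le_pow_iff_right (by omega)).1 h3
      · refine le_lvl ?_ h1
        rw [h4] at hP
        exact (Nat.pow_le_pow_iff_right (by omega)).1 hP
    rw [hk]
    exact ⟨q, hq, r, hr, he⟩
  · rintro ⟨q, hq, r, hr, he⟩
    refine ⟨hsh p α β x, hsh_lt hp _ _ _, ⟨(α * x + β) / p, Nat.div_le_self _ _,
      (Nat.div_add_mod _ _).symm⟩, 2 ^ lvl j p (hsh p α β x), ?_, ⟨⟨_, rfl⟩,
      lvl_spec (hsh_lt hp _ _ _), ?_⟩, q, hq, r, hr, he⟩
    · rw [h4]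
      exact Nat.pow_le_pow_right (by omega) (lvl_le _ _ _)
    · rintro P' hP' ⟨k, rfl⟩ h5
      refine Nat.pow_le_pow_right (by omega) (le_lvl ?_ h5)
      rw [h4] at hP'
      exact (Nat.pow_le_pow_iff_right (by omega)).1 hP'

theorem SB.inB {M p α β g x : (ι → ℕ) → ℕ} (hM : PF M) (hp : PF p) (hα : PF α) (hβ : PF β)
    (hg : PF g) (hx : PF x) :
    SB (fun (_ : σ → ℕ → Prop) v => InB (M v) (p v) (α v) (β v) (g v) (x v)) := by
  refine SB.ex_lt (P := fun _ v h => (∃ q ≤ α v * x v + β v, α v * x v + β v = p v * q + h) ∧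
    ∃ P ≤ 4 * M v, (IsPow2 P ∧ h * P < p v ∧ ∀ P' ≤ 4 * M v, IsPow2 P' → h * P' < p v → P' ≤ P) ∧
      ∃ q ≤ g v, ∃ r < P, g v = (2 * q + 1) * P + r) hp (SB.and ?_ ?_)
  · exact SB.ex_le (P := fun _ w q => α (fun i => w (some i)) * x (fun i => w (some i)) +
      β (fun i => w (some i)) = p (fun i => w (some i)) * q + w none)
      ((hα.mul hx).add hβ).up (SB.eqf ((hα.mul hx).add hβ).up.up
        ((hp.up.up.mul (PF.proj none)).add (PF.proj (some none))))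
  · refine SB.ex_le (P := fun _ (w : Option ι → ℕ) P => (IsPow2 P ∧ w none * P <
      p (fun i => w (some i)) ∧ ∀ P' ≤ 4 * M (fun i => w (some i)), IsPow2 P' →
        w none * P' < p (fun i => w (some i)) → P' ≤ P) ∧
      ∃ q ≤ g (fun i => w (some i)), ∃ r < P, g (fun i => w (some i)) = (2 * q + 1) * P + r)
      ((PF.const 4).mul hM).up (SB.and ((SB.pow2 (PF.proj none)).and (SB.and ?_ ?_)) ?_)
    · exact SB.ltf ((PF.proj (some none)).mul (PF.proj none)) hp.up.up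
    · exact SB.all_le (P := fun _ (w : Option (Option ι) → ℕ) P' => IsPow2 P' →
        w (some none) * P' < p (fun i => w (some (some i))) → P' ≤ w none)
        ((PF.const 4).mul hM).up.up ((SB.pow2 (PF.proj none)).imp ((SB.ltf
          ((PF.proj (some (some none))).mul (PF.proj none)) hp.up.up.up).imp
            (SB.lef (PF.proj none) (PF.proj (some none)))))
    · refine SB.ex_le (P := fun _ (w : Option (Option ι) → ℕ) q => ∃ r < w none,
        g (fun i => w (some (some i))) = (2 * q + 1) * w none + r) hg.up.up ?_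
      exact SB.ex_lt (P := fun _ (w : Option (Option (Option ι)) → ℕ) r =>
        g (fun i => w (some (some (some i)))) = (2 * w none + 1) * w (some none) + r)
        (PF.proj (some none)) (SB.eqf hg.up.up.up.up
          ((((PF.const 2).mul (PF.proj (some none))).add (PF.const 1)).mul
            (PF.proj (some (some none))) |>.add (PF.proj none)))

namespace SE

/-- a vector of bounded quantifiers -/
theorem exVec (k : ℕ) : ∀ {ι : Type} {P : (τ → ℕ → Prop) → (ι → ℕ) → (Fin k → ℕ) → Prop}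
    {b : (ι → ℕ) → ℕ}, PF b →
    SE (fun A (w : ι ⊕ Fin k → ℕ) => P A (fun i => w (Sum.inl i)) (fun j => w (Sum.inr j))) →
    SE (fun A v => ∃ y : Fin k → ℕ, (∀ i, y i ≤ b v) ∧ P A v y) := by
  intro ι P b hb hP
  obtain ⟨σ, Φ, hΦ, h⟩ := hP
  refine ⟨σ, fun A v => ∃ y : Fin k → ℕ, (∀ i, y i ≤ b v) ∧ Φ A (Sum.elim v y),
    SB.exVec k (P := fun A v y => Φ A (Sum.elim v y)) hb (hΦ.congr fun A w => ?_), fun B v => ?_⟩
  · have : (Sum.elim (fun i : ι => w (Sum.inl i)) fun j : Fin k => w (Sum.inr j)) = w := by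
      funext o
      cases o <;> rfl
    rw [this]
  · constructor
    · rintro ⟨y, hy, hP⟩
      obtain ⟨A, hA⟩ := (h B (Sum.elim v y)).1 hP
      exact ⟨A, y, hy, hA⟩
    · rintro ⟨A, y, hy, hA⟩
      exact ⟨y, hy, (h B (Sum.elim v y)).2 ⟨A, hA⟩⟩

/-- the parity of a counting number -/
theorem parity {P : (τ → ℕ → Prop) → (ι → ℕ) → ℕ → Prop} {b : (ι → ℕ) → ℕ} (hb : PF b)
    (hP : SB (fun B (w : Option ι → ℕ) => P B (fun i => w (some i)) (w none))) :
    SE (fun B v => Odd (cnt (P B v) (b v))) ∧ SE (fun B v => ¬ Odd (cnt (P B v) (b v))) := by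
  have h1 : SB (fun (B : τ ⊕ Unit → ℕ → Prop) (v : ι → ℕ) => ¬ B (Sum.inr ()) 0 ∧
      ∀ x < b v, (B (Sum.inr ()) (x + 1) ↔ ¬ (B (Sum.inr ()) x ↔ P (fun t => B (Sum.inl t)) v x))) := by
    refine (SB.memf _ (PF.const 0)).not.and (SB.all_lt (P := fun B v x =>
      (B (Sum.inr ()) (x + 1) ↔ ¬ (B (Sum.inr ()) x ↔ P (fun t => B (Sum.inl t)) v x))) hb ?_)
    exact (SB.memf _ ((PF.proj none).add (PF.const 1))).iff
      ((SB.memf _ (PF.proj none)).iff (hP.mapRel (τ := τ ⊕ Unit) Sum.inl)).not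
  have key : ∀ (W P : ℕ → Prop) (n : ℕ), ¬ W 0 → (∀ x < n, (W (x + 1) ↔ ¬ (W x ↔ P x))) →
      (W n ↔ Odd (cnt P n)) := by
    intro W P n
    induction n with
    | zero => intro h0 _; simp [h0]
    | succ n ih =>
      intro h0 h1
      rw [h1 n (by omega), ih h0 fun x hx => h1 x (by omega), cnt_succ]
      by_cases hP : P n
      · simp only [hP, if_true, Nat.odd_add_one, iff_true]
      · simp only [hP, if_false, Nat.add_zero, iff_false, not_not]
  have hW : ∀ (P : ℕ → Prop) (n : ℕ), ¬ (fun x => Odd (cnt P x)) 0 ∧ ∀ x < n,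
      ((fun x => Odd (cnt P x)) (x + 1) ↔ ¬ ((fun x => Odd (cnt P x)) x ↔ P x)) := by
    intro P n
    refine ⟨by simp, fun x _ => ?_⟩
    beta_reduce
    rw [cnt_succ]
    by_cases hP : P x
    · simp only [hP, if_true, Nat.odd_add_one, iff_true]
    · simp only [hP, if_false, Nat.add_zero, iff_false, not_not]
  constructor
  · refine (SE.exRel (SE.of_sb (h1.and (SB.memf (Sum.inr ()) hb)))).congr fun B v => ?_
    constructor
    · intro h
      exact ⟨fun _ x => Odd (cnt (P B v) x), hW _ _, h⟩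
    · rintro ⟨C, ⟨h2, h3⟩, h4⟩
      exact (key (C ()) (P B v) (b v) h2 h3).1 h4
  · refine (SE.exRel (SE.of_sb (h1.and (SB.memf (Sum.inr ()) hb).not))).congr fun B v => ?_
    constructor
    · intro h
      exact ⟨fun _ x => Odd (cnt (P B v) x), hW _ _, h⟩
    · rintro ⟨C, ⟨h2, h3⟩, h4⟩
      exact fun h5 => h4 ((key (C ()) (P B v) (b v) h2 h3).2 h5)

end SE

end Pool.Agent.J4H63.AS
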