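import Pool.Agent.J4H63.AS.Def

/-!
# Eventually periodic sets are spectra
-/

namespace Pool.Agent.J4H63.AS

/-- eventually periodic sets -/
def EvPeriodic (S : Set ℕ) : Prop := ∃ N d : ℕ, 0 < d ∧ ∀ n ≥ N, (n ∈ S ↔ n + d ∈ S)

theorem EvPeriodic.compl {S : Set ℕ} (h : EvPeriodic S) : EvPeriodic {n | 0 < n ∧ n ∉ S} := by
  obtain ⟨N, d, hd, h⟩ := h
  refine ⟨N + 1, d, hd, fun n hn => ?_⟩
  have := h n (by omega)
  constructor
  · rintro ⟨h1, h2⟩
    exact ⟨by omega, fun h3 => h2 (this.2 h3)⟩
  · rintro ⟨h1, h2⟩
    exact ⟨by omega, fun h3 => h2 (this.1 h3)⟩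

/-- the state of the automaton which reads `x + 1` numbers -/
def stt (N d x : ℕ) : ℕ := if x < N then x else N + (x - N) % d

theorem stt_succ {N d : ℕ} (hd : 0 < d) (x : ℕ) :
    stt N d (x + 1) = if stt N d x + 1 < N + d then stt N d x + 1 else N := by
  unfold stt
  by_cases h1 : x + 1 < N
  · rw [if_pos h1, if_pos (show x < N by omega), if_pos (by omega)]
  · rw [if_neg h1]
    by_cases h2 : x < N
    · rw [if_pos h2]
      have : x + 1 - N = 0 := by omega
      rw [this, Nat.zero_mod, if_pos (by omega)]
      omega
    · rw [if_neg h2]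
      have h3 : x + 1 - N = (x - N) + 1 := by omega
      rw [h3]
      have h4 := Nat.mod_lt (x - N) hd
      have h5 := Nat.mod_add_div (x - N) d
      by_cases h6 : (x - N) % d + 1 < d
      · rw [if_pos (by omega)]
        have : ((x - N) + 1) % d = (x - N) % d + 1 := by
          rw [Nat.add_mod, Nat.mod_eq_of_lt (a := 1) (b := d) (by omega), Nat.mod_eq_of_lt h6]
        omega
      · rw [if_neg (by omega)]
        have : ((x - N) + 1) % d = 0 := by
          have h7 : (x - N) % d + 1 = d := by omega
          have h8 : (x - N) + 1 = d * ((x - N) / d + 1) := by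
            rw [Nat.mul_add, Nat.mul_one]
            omega
          rw [h8]
          exact Nat.mul_mod_right _ _
        omega

theorem stt_lt {N d : ℕ} (hd : 0 < d) (x : ℕ) : stt N d x < N + d := by
  unfold stt
  split_ifs
  · omega
  · have := Nat.mod_lt (x - N) hd
    omega

theorem stt_mem {S : Set ℕ} {N d : ℕ} (h : ∀ n ≥ N, (n ∈ S ↔ n + d ∈ S)) (x : ℕ) :
    stt N d x + 1 ∈ S ↔ x + 1 ∈ S := by
  have hk : ∀ k n, N ≤ n → (n ∈ S ↔ n + d * k ∈ S) := by
    intro k
    induction k with
    | zero => intro n _; rw [Nat.mul_zero, Nat.add_zero]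
    | succ k ih =>
      intro n hn
      rw [ih n hn, h (n + d * k) (by omega)]
      have : n + d * (k + 1) = n + d * k + d := by ring
      rw [this]
  unfold stt
  split_ifs with h1
  · exact Iff.rfl
  · rw [hk ((x - N) / d) _ (by omega)]
    have := Nat.mod_add_div (x - N) d
    have h2 : N + (x - N) % d + 1 + d * ((x - N) / d) = x + 1 := by omega
    rw [h2]

theorem isSpectrum_of_evPeriodic {S : Set ℕ} (h0 : 0 ∉ S) (hS : EvPeriodic S) :
    IsSpectrum S := by
  obtain ⟨N, d, hd, h⟩ := hS
  refine isSpectrum_of_def (σ := ℕ) (P := fun n R _ =>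
    (∀ x < n, (∀ z < n, ¬ z < x) → R 0 [x]) ∧
    (∀ s : Fin (N + d), ∀ x < n, ∀ y < n, x < y → (∀ z < n, ¬ (x < z ∧ z < y)) →
      R s.val [x] → R (if s.val + 1 < N + d then s.val + 1 else N) [y]) ∧
    (∀ s : Fin (N + d), ¬ s.val + 1 ∈ S → ∀ x < n, (∀ z < n, ¬ x < z) → ¬ R s.val [x]))
    ?_ fun n => ?_
  · refine Def.and ?_ (Def.and ?_ ?_)
    · exact Def.all (P := fun n R v x => (∀ z < n, ¬ z < x) → R 0 [x]) (Def.imp
        (Def.all (P := fun n R v z => ¬ z < v none) (Def.not (Def.lt none (some none))))
        (Def.rel 0 [none]))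
    · refine Def.allFin _ fun s => ?_
      exact Def.all (P := fun n R v x => ∀ y < n, x < y → (∀ z < n, ¬ (x < z ∧ z < y)) →
          R s.val [x] → R (if s.val + 1 < N + d then s.val + 1 else N) [y]) (Def.all
        (P := fun n R v y => v none < y → (∀ z < n, ¬ (v none < z ∧ z < y)) →
          R s.val [v none] → R (if s.val + 1 < N + d then s.val + 1 else N) [y])
        (Def.imp (Def.lt (some none) none) (Def.imp
          (Def.all (P := fun n R v z => ¬ (v (some none) < z ∧ z < v none))
            (Def.not (Def.and (Def.lt (some (some none)) none) (Def.lt none (some none)))))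
          (Def.imp (Def.rel s.val [some none])
            (Def.rel (if s.val + 1 < N + d then s.val + 1 else N) [none])))))
    · refine Def.allFin _ fun s => Def.imp (Def.const _) ?_
      exact Def.all (P := fun n R v x => (∀ z < n, ¬ x < z) → ¬ R s.val [x]) (Def.imp
        (Def.all (P := fun n R v z => ¬ v none < z) (Def.not (Def.lt (some none) none)))
        (Def.not (Def.rel s.val [none])))
  · constructor
    · intro hn
      have hpos : 0 < n := Nat.pos_of_ne_zero fun h => h0 (h ▸ hn)
      refine ⟨hpos, fun s l => ∃ x, l = [x] ∧ s = stt N d x, ?_, ?_, ?_⟩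
      · intro x _ hx
        obtain rfl : x = 0 := by
          by_contra hne
          exact hx 0 hpos (by omega)
        refine ⟨0, rfl, ?_⟩
        unfold stt
        split_ifs
        · rfl
        · have : 0 - N = 0 := by omega
          rw [this, Nat.zero_mod]
          omega
      · rintro s x _ y hy hxy hz ⟨x', hx', hs⟩
        obtain rfl : x = x' := by simpa using hx'
        obtain rfl : y = x + 1 := by
          by_contra hne
          exact hz (x + 1) (by omega) ⟨by omega, by omega⟩
        refine ⟨x + 1, rfl, ?_⟩
        rw [stt_succ hd, hs]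
      · rintro s hs x hx hz ⟨x', hx', hs'⟩
        obtain rfl : x = x' := by simpa using hx'
        obtain rfl : n = x + 1 := by
          by_contra hne
          exact hz (x + 1) (by omega) (by omega)
        rw [hs'] at hs
        exact hs ((stt_mem h x).2 hn)
    · rintro ⟨hpos, R, h1, h2, h3⟩
      have hall : ∀ x < n, R (stt N d x) [x] := by
        intro x
        induction x with
        | zero =>
          intro hx
          have h4 := h1 0 hx fun z _ => by omega
          have h5 : stt N d 0 = 0 := by
            unfold stt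
            split_ifs
            · rfl
            · have : 0 - N = 0 := by omega
              rw [this, Nat.zero_mod]
              omega
          rw [h5]
          exact h4
        | succ x ih =>
          intro hx
          rw [stt_succ hd]
          exact h2 ⟨stt N d x, stt_lt hd x⟩ x (by omega) (x + 1) hx (by omega)
            (fun z _ => by omega) (ih (by omega))
      by_contra hn
      obtain ⟨m, rfl⟩ : ∃ m, n = m + 1 := ⟨n - 1, by omega⟩
      refine h3 ⟨stt N d m, stt_lt hd m⟩ (fun h4 => hn ((stt_mem h m).1 h4)) m (by omega)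
        (fun z hz => by omega) (hall m (by omega))

end Pool.Agent.J4H63.AS
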