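import Pool.Agent.J4H63.AS.Types
import Pool.Agent.J4H63.AS.EP

/-!
# Multiplying a part of a model with a small interface
-/

namespace Pool.Agent.J4H63.AS

open FirstOrder FirstOrder.Language

section

variable {L : FirstOrder.Language.{0, 0}} [L.IsRelational] {α X Y : Type}

/-- the structure on `α ⊕ X` -/
@[reducible]
def strOf (M : PStr L.Relations α X) : L.Structure (α ⊕ X) where
  funMap := fun f => isEmptyElim f
  RelMap := fun {r} R t => M r R t

/-- quantifier rank -/
def rk : {n : ℕ} → L.BoundedFormula Empty n → ℕ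
  | _, .falsum => 0
  | _, .equal _ _ => 0
  | _, .rel _ _ => 0
  | _, .imp f g => max (rk f) (rk g)
  | _, .all f => rk f + 1

theorem term_var {n : ℕ} (t : L.Term (Empty ⊕ Fin n)) : ∃ i : Fin n, t = Term.var (Sum.inr i) := by
  cases t with
  | var x =>
    rcases x with e | i
    · exact e.elim
    · exact ⟨i, rfl⟩
  | func f _ => exact isEmptyElim f

theorem snoc_inl {n : ℕ} {ι : Type} (a : ι → X) (u : Fin n → α ⊕ ι) (c : α) :
    (Fin.snoc (fun j => Sum.map id a (u j)) (Sum.inl c) : Fin (n + 1) → α ⊕ X) =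
      fun j => Sum.map id a ((Fin.snoc u (Sum.inl c) : Fin (n + 1) → α ⊕ ι) j) := by
  funext j
  refine Fin.lastCases ?_ (fun j => ?_) j
  · simp
  · simp

theorem snoc_inr {n : ℕ} {ι : Type} (a : ι → X) (u : Fin n → α ⊕ ι) (x : X) :
    (Fin.snoc (fun j => Sum.map id a (u j)) (Sum.inr x) : Fin (n + 1) → α ⊕ X) =
      fun j => Sum.map id (fun o : Option ι => o.elim x a)
        ((Fin.snoc (fun j => Sum.map id some (u j)) (Sum.inr none) :
          Fin (n + 1) → α ⊕ Option ι) j) := by
  funext j
  refine Fin.lastCases ?_ (fun j => ?_) j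
  · simp
  · simp only [Fin.snoc_castSucc]
    rcases u j with c | i <;> rfl

theorem realize_tp {n : ℕ} (φ : L.BoundedFormula Empty n) : ∀ (q : ℕ), rk φ ≤ q →
    ∀ {X Y ι : Type} (M : PStr L.Relations α X) (N : PStr L.Relations α Y) (a : ι → X) (b : ι → Y)
      (u : Fin n → α ⊕ ι), tp q M a = tp q N b →
      ((letI := strOf M; φ.Realize default (fun j => Sum.map id a (u j))) ↔
        (letI := strOf N; φ.Realize default (fun j => Sum.map id b (u j)))) := by
  induction φ with
  | falsum => exact fun q _ X Y ι M N a b u h => Iff.rfl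
  | equal t₁ t₂ =>
    intro q _ X Y ι M N a b u h
    obtain ⟨i, rfl⟩ := term_var t₁
    obtain ⟨j, rfl⟩ := term_var t₂
    obtain ⟨h1, _⟩ := atoms_eq.1 (tp_atoms h)
    change (Sum.map id a (u i) = Sum.map id a (u j)) ↔ (Sum.map id b (u i) = Sum.map id b (u j))
    rcases u i with c | k <;> rcases u j with c' | k' <;> simp [h1]
  | rel R ts =>
    intro q _ X Y ι M N a b u h
    choose f hf using fun i => term_var (ts i)
    obtain ⟨_, h2⟩ := atoms_eq.1 (tp_atoms h)
    have e1 : ∀ {Z : Type} (P : PStr L.Relations α Z) (a : ι → Z),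
        (letI := strOf P; (BoundedFormula.rel R ts).Realize default
          (fun j => Sum.map id a (u j))) ↔ P _ R (fun i => Sum.map id a (u (f i))) := by
      intro Z P a
      letI := strOf P
      have : (fun i => (ts i).realize (Sum.elim default (fun j => Sum.map id a (u j)))) =
          fun i => Sum.map id a (u (f i)) := by
        funext i
        rw [hf]
        rfl
      change P _ R (fun i => (ts i).realize (Sum.elim default (fun j => Sum.map id a (u j)))) ↔ _
      rw [this]
    exact (e1 M a).trans ((h2 _ R fun i => u (f i)).trans (e1 N b).symm)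
  | imp f g ih1 ih2 =>
    intro q hq X Y ι M N a b u h
    simp only [rk] at hq
    exact imp_congr (ih1 q (by omega) M N a b u h) (ih2 q (by omega) M N a b u h)
  | all f ih =>
    intro q hq X Y ι M N a b u h
    simp only [rk] at hq
    obtain ⟨q, rfl⟩ : ∃ q', q = q' + 1 := ⟨q - 1, by omega⟩
    obtain ⟨_, h2, h3⟩ := tp_succ.1 h
    constructor
    · intro hM y
      rcases y with c | y
      · have h4 := hM (Sum.inl c)
        rw [snoc_inl] at h4 ⊢
        exact (ih q (by omega) M N a b _ (tp_pred q h)).1 h4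
      · obtain ⟨x, hx⟩ := h3 y
        have h4 := hM (Sum.inr x)
        rw [snoc_inr] at h4 ⊢
        exact (ih q (by omega) M N _ _ _ hx).1 h4
    · intro hN x
      rcases x with c | x
      · have h4 := hN (Sum.inl c)
        rw [snoc_inl] at h4 ⊢
        exact (ih q (by omega) M N a b _ (tp_pred q h)).2 h4
      · obtain ⟨y, hy⟩ := h2 x
        have h4 := hN (Sum.inr y)
        rw [snoc_inr] at h4 ⊢
        exact (ih q (by omega) M N _ _ _ hy).2 h4

theorem sentence_tp (φ : L.Sentence) {q : ℕ} (hq : rk φ ≤ q) (M : PStr L.Relations α X)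
    (N : PStr L.Relations α Y) (h : tp q M (Empty.elim : Empty → X) =
      tp q N (Empty.elim : Empty → Y)) :
    (letI := strOf M; (α ⊕ X) ⊨ φ) ↔ (letI := strOf N; (α ⊕ Y) ⊨ φ) := by
  have h1 := realize_tp φ q hq M N _ _ Fin.elim0 h
  have e : ∀ {Z : Type} (a b : Fin 0 → Z), a = b := fun a b => funext fun i => i.elim0
  rw [e (fun j => Sum.map id (Empty.elim : Empty → X) (Fin.elim0 j)) default,
    e (fun j => Sum.map id (Empty.elim : Empty → Y) (Fin.elim0 j)) default] at h1
  exact h1

end

/-! ### Replacing a part of a structure by several copies -/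

/-- `M` with the part `B` replaced by `k` copies of it -/
def Blow (k : ℕ) {M : Type} (B : Set M) : Type := (Bᶜ : Set M) ⊕ (Fin k × B)

open Classical in
/-- the embedding of `M` which sends `B` to its copy number `i` -/
noncomputable def cp {k : ℕ} {M : Type} (B : Set M) (i : Fin k) (x : M) : Blow k B :=
  if h : x ∈ B then Sum.inr (i, ⟨x, h⟩) else Sum.inl ⟨x, h⟩

section

variable {L : FirstOrder.Language.{0, 0}} [L.IsRelational] {M : Type} [L.Structure M]

/-- A relation holds in the new structure when it comes from `M` by one of the embeddings. -/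
instance blowStr (k : ℕ) (B : Set M) : L.Structure (Blow k B) where
  funMap := fun f => isEmptyElim f
  RelMap := fun {r} R t => ∃ (i : Fin k) (y : Fin r → M), (∀ j, t j = cp B i (y j)) ∧
    Structure.RelMap R y

/-- the elements outside of `B` which occur together with an element of `B` in a relation -/
def interface (L : FirstOrder.Language.{0, 0}) {M : Type} [L.Structure M] (B : Set M) : Set M :=
  {x | x ∉ B ∧ ∃ (r : ℕ) (R : L.Relations r) (t : Fin r → M) (i j : Fin r),
    Structure.RelMap R t ∧ t i = x ∧ t j ∈ B}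

theorem cp_mem {k : ℕ} {B : Set M} (i : Fin k) {x : M} (h : x ∈ B) :
    cp B i x = Sum.inr (i, ⟨x, h⟩) := dif_pos h

theorem cp_not_mem {k : ℕ} {B : Set M} (i : Fin k) {x : M} (h : x ∉ B) :
    cp B i x = Sum.inl ⟨x, h⟩ := dif_neg h

/-- the rest of the structure -/
def Rest (L : FirstOrder.Language.{0, 0}) {M : Type} [L.Structure M] (B : Set M) : Type :=
  {x : M // x ∉ B ∧ x ∉ interface L B}

variable {B : Set M} {a : ℕ} (e : Fin a ≃ interface L B)

/-- the inclusion of the first part -/
def val₁ (s : Fin a ⊕ Rest L B) : M := Sum.elim (fun c => (e c).1) (fun y => y.1) s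

/-- the inclusion of the second part -/
def val₂ (s : Fin a ⊕ B) : M := Sum.elim (fun c => (e c).1) (fun y => y.1) s

/-- the first part -/
def part₁ : PStr L.Relations (Fin a) (Rest L B) := fun _ R t =>
  Structure.RelMap R (fun j => val₁ e (t j))

/-- the second part -/
def part₂ : PStr L.Relations (Fin a) B := fun _ R t => Structure.RelMap R (fun j => val₂ e (t j))

theorem val₁_not_mem (s : Fin a ⊕ Rest L B) : val₁ e s ∉ B := by
  rcases s with c | y
  · exact (e c).2.1
  · exact y.2.1

theorem val₁_bij : Function.Bijective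
    (fun s : Fin a ⊕ Rest L B => (⟨val₁ e s, val₁_not_mem e s⟩ : (Bᶜ : Set M))) := by
  constructor
  · intro s s' h
    have h' : val₁ e s = val₁ e s' := congrArg Subtype.val h
    rcases s with c | y <;> rcases s' with c' | y'
    · rw [e.injective (Subtype.ext h')]
    · refine absurd ?_ y'.2.2
      rw [← (show (e c).1 = y'.1 from h')]
      exact (e c).2
    · refine absurd ?_ y.2.2
      rw [show y.1 = (e c').1 from h']
      exact (e c').2
    · rw [Subtype.ext h']
  · rintro ⟨x, hx⟩
    by_cases hx' : x ∈ interface L B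
    · refine ⟨Sum.inl (e.symm ⟨x, hx'⟩), ?_⟩
      apply Subtype.ext
      change (e (e.symm ⟨x, hx'⟩)).1 = x
      rw [e.apply_symm_apply]
    · exact ⟨Sum.inr ⟨x, hx, hx'⟩, rfl⟩

/-- the universe of the amalgam -/
noncomputable def univ (k : ℕ) : Fin a ⊕ (Rest L B ⊕ (Fin k × B)) ≃ Blow k B :=
  (Equiv.sumAssoc _ _ _).symm.trans
    (Equiv.sumCongr (Equiv.ofBijective _ (val₁_bij e)) (Equiv.refl _))

theorem univ_left (k : ℕ) (i : Fin k) (s : Fin a ⊕ Rest L B) :
    univ e k (Sum.map id Sum.inl s) = cp B i (val₁ e s) := by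
  rw [cp_not_mem i (val₁_not_mem e s)]
  rcases s with c | y <;> rfl

theorem univ_right (k : ℕ) (i : Fin k) (s : Fin a ⊕ B) :
    univ e k (Sum.map id Sum.inr (Sum.map id (fun b => (i, b)) s)) = cp B i (val₂ e s) := by
  rcases s with c | y
  · rw [cp_not_mem i (show val₂ e (Sum.inl c) ∉ B from (e c).2.1)]
    rfl
  · rw [cp_mem i (show val₂ e (Sum.inr y) ∈ B from y.2)]
    rfl

theorem amalg_blow (k : ℕ) (hk : 0 < k) (r : ℕ) (R : L.Relations r)
    (t : Fin r → Fin a ⊕ (Rest L B ⊕ (Fin k × B))) :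
    Structure.RelMap R (fun j => univ e k (t j)) ↔
      amalg (part₁ e) (copies k (part₂ e)) r R t := by
  constructor
  · rintro ⟨i, y, h1, h2⟩
    beta_reduce at h1
    by_cases hB : ∃ j, y j ∈ B
    · right
      obtain ⟨j₀, hj₀⟩ := hB
      have : ∀ j, ∃ s : Fin a ⊕ B, val₂ e s = y j := by
        intro j
        by_cases hj : y j ∈ B
        · exact ⟨Sum.inr ⟨y j, hj⟩, rfl⟩
        · have hj' : y j ∈ interface L B := ⟨hj, r, R, y, j, j₀, h2, rfl, hj₀⟩
          refine ⟨Sum.inl (e.symm ⟨y j, hj'⟩), ?_⟩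
          change (e (e.symm ⟨y j, hj'⟩)).1 = y j
          rw [e.apply_symm_apply]
      choose s hs using this
      refine ⟨fun j => Sum.map id (fun b => (i, b)) (s j), fun j => ?_, i, s, fun j => rfl, ?_⟩
      · apply (univ e k).injective
        rw [h1, univ_right, hs]
      · unfold part₂
        rw [show (fun j => val₂ e (s j)) = y from funext hs]
        exact h2
    · left
      push Not at hB
      choose s hs using fun j => (val₁_bij e).2 ⟨y j, hB j⟩
      have hs' : ∀ j, val₁ e (s j) = y j := fun j => congrArg Subtype.val (hs j)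
      refine ⟨s, fun j => ?_, ?_⟩
      · apply (univ e k).injective
        rw [h1, univ_left e k i, hs']
      · unfold part₁
        rw [show (fun j => val₁ e (s j)) = y from funext hs']
        exact h2
  · rintro (⟨s, h1, h2⟩ | ⟨t', h1, i, s, h2, h3⟩)
    · refine ⟨⟨0, hk⟩, fun j => val₁ e (s j), fun j => ?_, h2⟩
      beta_reduce
      rw [h1, univ_left]
    · refine ⟨i, fun j => val₂ e (s j), fun j => ?_, h3⟩
      beta_reduce
      rw [h1, h2, univ_right]

theorem blow_realize (k : ℕ) (hk : 0 < k) (φ : L.Sentence) : Blow k B ⊨ φ ↔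
    (letI := strOf (amalg (part₁ e) (copies k (part₂ e)));
      (Fin a ⊕ (Rest L B ⊕ (Fin k × B))) ⊨ φ) := by
  letI := strOf (amalg (part₁ e) (copies k (part₂ e)))
  let E : (Fin a ⊕ (Rest L B ⊕ (Fin k × B))) ≃[L] Blow k B :=
    { toEquiv := univ e k
      map_fun' := fun f => isEmptyElim f
      map_rel' := fun {r} R t => amalg_blow e k hk r R t }
  exact (StrongHomClass.realize_sentence E φ).symm

end

/-! ### Arithmetic -/

theorem semigroup_gcd {T : Set ℕ} (hadd : ∀ m ∈ T, ∀ m' ∈ T, m + m' ∈ T) :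
    ∃ n₁, ∀ m ≥ n₁, Nat.setGcd T ∣ m → m ∈ T ∨ m = 0 := by
  obtain ⟨n₁, h⟩ := Nat.exists_mem_closure_of_ge T
  have key : ∀ x ∈ AddSubmonoid.closure T, x ∈ T ∨ x = 0 := by
    intro x hx
    induction hx using AddSubmonoid.closure_induction with
    | mem x hx => exact Or.inl hx
    | zero => exact Or.inr rfl
    | add x y _ _ ihx ihy =>
      rcases ihx with h1 | rfl
      · rcases ihy with h2 | rfl
        · exact Or.inl (hadd x h1 y h2)
        · exact Or.inl h1
      · rwa [Nat.zero_add]
  exact ⟨n₁, fun m hm hd => key m (h m hm hd)⟩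

theorem evPeriodic_of_add {S : Set ℕ} {n₀ D T : ℕ} (hD : 0 < D)
    (h : ∀ n ∈ S, n₀ ≤ n → ∀ t ≥ T, n + t * D ∈ S) : EvPeriodic S := by
  classical
  have hex : ∀ r : ℕ, ∃ N, (∀ n ≥ N, n % D = r → n ∈ S) ∨ (∀ n ≥ N, n % D = r → n ∉ S) := by
    intro r
    by_cases hr : ∃ n ∈ S, n₀ ≤ n ∧ n % D = r
    · obtain ⟨n, hn, h1, h2⟩ := hr
      refine ⟨n + T * D, Or.inl fun m hm hmr => ?_⟩
      have hdvd : D ∣ m - n := (Nat.modEq_iff_dvd' (by omega)).1 (h2.trans hmr.symm)
      obtain ⟨t, ht⟩ := hdvd
      have ht' : T ≤ t := by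
        by_contra hlt
        have : D * t < T * D := by
          rw [Nat.mul_comm]
          exact Nat.mul_lt_mul_of_pos_right (by omega) hD
        omega
      have : m = n + t * D := by
        rw [Nat.mul_comm t D, ← ht]
        omega
      rw [this]
      exact h n hn h1 t ht'
    · push Not at hr
      exact ⟨n₀, Or.inr fun n hn hnr hnS => hr n hnS hn hnr⟩
  choose N hN using hex
  refine ⟨∑ r ∈ Finset.range D, N r, D, hD, fun n hn => ?_⟩
  have hle : N (n % D) ≤ n := by
    refine (Finset.single_le_sum (f := N) (fun _ _ => Nat.zero_le _)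
      (Finset.mem_range.2 (Nat.mod_lt n hD))).trans hn
  rcases hN (n % D) with h1 | h1
  · exact ⟨fun _ => h1 _ (by omega) (by rw [Nat.add_mod_right]), fun _ => h1 n hle rfl⟩
  · exact ⟨fun h2 => absurd h2 (h1 n hle rfl), fun h2 =>
      absurd h2 (h1 _ (by omega) (by rw [Nat.add_mod_right]))⟩

/-! ### The theorem -/

/-- the spectrum of a sentence -/
def Spec {L : FirstOrder.Language.{0, 0}} (φ : L.Sentence) : Set ℕ :=
  {n | 0 < n ∧ ∃ (M : Type) (_ : L.Structure M), Nat.card M = n ∧ φ.Realize M}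

/-- the sizes of the structures of a given type -/
def Sz (ρ : ℕ → Type) (α : Type) (q : ℕ) (t : Ty ρ α q Empty) : Set ℕ :=
  {m | ∃ N : PStr ρ α (Fin m), tp q N (Empty.elim : Empty → Fin m) = t}

theorem sz_of {ρ : ℕ → Type} {α Y : Type} [Finite Y] {q : ℕ} (N : PStr ρ α Y) {m : ℕ}
    (hm : Nat.card Y = m) : m ∈ Sz ρ α q (tp q N (Empty.elim : Empty → Y)) := by
  let e : Y ≃ Fin m := (Finite.equivFin Y).trans (finCongr hm)
  refine ⟨fun r R t => N r R (fun j => Sum.map id e.symm (t j)), ?_⟩
  have h := tp_iso e (M := N)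
    (M' := fun r R t => N r R (fun j => Sum.map id e.symm (t j))) (fun r R t => by
      have : (fun j => Sum.map id e.symm (Sum.map id e (t j))) = t := by
        funext j
        rcases t j with c | x <;> simp
      beta_reduce
      rw [this]) q (Empty.elim : Empty → Y)
  rw [h]
  congr 1
  funext x
  exact x.elim

theorem sz_add {ρ : ℕ → Type} {α X : Type} {q K : ℕ} (hK : q + 1 ≤ K) (M : PStr ρ α X) {m m' : ℕ}
    (h : m ∈ Sz ρ α q (tp q (copies K M) (Empty.elim : Empty → Fin K × X)))
    (h' : m' ∈ Sz ρ α q (tp q (copies K M) (Empty.elim : Empty → Fin K × X))) :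
    m + m' ∈ Sz ρ α q (tp q (copies K M) (Empty.elim : Empty → Fin K × X)) := by
  obtain ⟨N, hN⟩ := h
  obtain ⟨N', hN'⟩ := h'
  have h1 := tp_amalg_idem q K hK M hN hN'
  rw [← h1]
  exact sz_of (amalg N N') (by simp)

/-- The hypothesis: every large finite model of `φ` has a nonempty part `B` with an interface of at
most `s` elements which can be multiplied. -/
def Multipliable {L : FirstOrder.Language.{0, 0}} [L.IsRelational] (φ : L.Sentence) (s n₀ : ℕ) :
    Prop :=
  ∀ (M : Type) [L.Structure M] [Finite M], n₀ ≤ Nat.card M → M ⊨ φ →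
    ∃ B : Set M, B.Nonempty ∧ (interface L B).ncard ≤ s ∧ ∀ k₀, ∃ k ≥ k₀, Blow k B ⊨ φ

open Classical in
theorem spec_evPeriodic {L : FirstOrder.Language.{0, 0}} [L.IsRelational]
    [Finite (Σ r, L.Relations r)] (φ : L.Sentence) {s n₀ : ℕ} (h : Multipliable φ s n₀) :
    EvPeriodic (Spec φ) := by
  set q := rk φ with hq
  let P : Type := Σ a : Fin (s + 1), Ty L.Relations (Fin a) q Empty
  haveI : ∀ a : Fin (s + 1), Finite (Ty L.Relations (Fin a) q Empty) := fun a => finite_ty q Empty
  haveI : Finite P := inferInstanceAs (Finite (Σ a : Fin (s + 1), Ty L.Relations (Fin a) q Empty))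
  haveI : Fintype P := Fintype.ofFinite P
  let T : P → Set ℕ := fun p => Sz L.Relations (Fin p.1) q p.2
  have hex : ∀ p : P, ∃ n₁, (∀ m ∈ T p, ∀ m' ∈ T p, m + m' ∈ T p) →
      ∀ m ≥ n₁, Nat.setGcd (T p) ∣ m → m ∈ T p ∨ m = 0 := by
    intro p
    by_cases hadd : ∀ m ∈ T p, ∀ m' ∈ T p, m + m' ∈ T p
    · obtain ⟨n₁, hn₁⟩ := semigroup_gcd hadd
      exact ⟨n₁, fun _ => hn₁⟩
    · exact ⟨0, fun h => absurd h hadd⟩
  choose n₁ hn₁ using hex
  let D : ℕ := ∏ p : P, max 1 (Nat.setGcd (T p))
  have hD : 0 < D := Finset.prod_pos fun p _ => by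
    have := le_max_left 1 (Nat.setGcd (T p))
    omega
  refine evPeriodic_of_add (n₀ := n₀) (T := ∑ p : P, n₁ p) hD ?_
  rintro n ⟨hn, M, strM, hcard, hM⟩ hn₀ t ht
  haveI : Finite M := Nat.finite_of_card_ne_zero (by omega)
  obtain ⟨B, hBne, hs, hk⟩ := h M (by omega) hM
  set a := (interface L B).ncard with ha
  have hea : Nat.card (interface L B) = a := rfl
  let e : Fin a ≃ interface L B := ((Finite.equivFin (interface L B)).trans (finCongr hea)).symm
  haveI : Finite (Rest L B) := inferInstanceAs (Finite {x : M // x ∉ B ∧ x ∉ interface L B})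
  -- the type of many copies of `B`
  let ty : Ty L.Relations (Fin a) q Empty :=
    tp q (copies (q + 1) (part₂ e)) (Empty.elim : Empty → Fin (q + 1) × B)
  let p : P := ⟨⟨a, by omega⟩, ty⟩
  have hadd : ∀ m ∈ T p, ∀ m' ∈ T p, m + m' ∈ T p := fun m hm m' hm' =>
    sz_add le_rfl (part₂ e) hm hm'
  have hb : 0 < Nat.card B := by
    haveI : Nonempty B := hBne.to_subtype
    exact Nat.card_pos
  have hmult : ∀ k, q + 1 ≤ k → k * Nat.card B ∈ T p := by
    intro k hk
    have h1 := sz_of (q := q) (copies k (part₂ e)) (m := k * Nat.card B) (by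
      rw [Nat.card_prod]
      simp)
    rw [tp_copies_eq (part₂ e) q k (q + 1) hk le_rfl _ (Empty.elim : Empty → Fin (q + 1) × B)] at h1
    exact h1
  have hdvd : Nat.setGcd (T p) ∣ Nat.card B := by
    have h1 := Nat.setGcd_dvd_of_mem (hmult (q + 1) le_rfl)
    have h2 := Nat.setGcd_dvd_of_mem (hmult (q + 2) (by omega))
    have h3 : (q + 2) * Nat.card B - (q + 1) * Nat.card B = Nat.card B := by
      have : (q + 2) * Nat.card B = (q + 1) * Nat.card B + Nat.card B := by ring
      omega
    rw [← h3]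
    exact Nat.dvd_sub h2 h1
  have hgpos : 0 < Nat.setGcd (T p) := Nat.pos_of_dvd_of_pos hdvd hb
  have hgD : Nat.setGcd (T p) ∣ D := by
    have h1 : max 1 (Nat.setGcd (T p)) ∣ D := Finset.dvd_prod_of_mem _ (Finset.mem_univ p)
    rwa [max_eq_right (by omega)] at h1
  -- a structure of the right size and type
  have hm : Nat.card B + t * D ∈ T p := by
    have h1 : n₁ p ≤ Nat.card B + t * D := by
      have h2 : n₁ p ≤ ∑ p : P, n₁ p :=
        Finset.single_le_sum (f := n₁) (fun _ _ => Nat.zero_le _) (Finset.mem_univ p)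
      have h3 : t ≤ t * D := Nat.le_mul_of_pos_right t hD
      omega
    rcases hn₁ p hadd _ h1 (Dvd.dvd.add hdvd (hgD.mul_left t)) with h2 | h2
    · exact h2
    · omega
  obtain ⟨N, hN⟩ := hm
  -- the new model
  obtain ⟨k, hk1, hk2⟩ := hk (q + 1)
  rw [blow_realize e k (by omega) φ] at hk2
  have htp : tp q (amalg (part₁ e) (copies k (part₂ e)))
      (Empty.elim : Empty → Rest L B ⊕ (Fin k × B)) =
      tp q (amalg (part₁ e) N) (Empty.elim : Empty → Rest L B ⊕ Fin (Nat.card B + t * D)) := by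
    have h1 := tp_amalg (M := part₁ e) (M' := part₁ e) (N := copies k (part₂ e)) (N' := N) q
      (Empty.elim : Empty → Rest L B) Empty.elim Empty.elim Empty.elim
      (Empty.elim : Empty → Empty ⊕ Empty) rfl
      ((tp_copies_eq (part₂ e) q k (q + 1) (by omega) le_rfl _ _).trans hN.symm)
    have e : ∀ {Z : Type} (a b : Empty → Z), a = b := fun a b => funext fun e => e.elim
    rw [e (Empty.elim : Empty → Rest L B ⊕ (Fin k × B)) _, h1]
    congr 1
    exact e _ _
  have hnew := (sentence_tp φ (q := q) le_rfl _ _ htp).1 hk2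
  refine ⟨by omega, _, strOf (amalg (part₁ e) N), ?_, hnew⟩
  have hcM : Nat.card M = a + Nat.card (Rest L B) + Nat.card B := by
    have h1 : Nat.card (Fin a ⊕ Rest L B) = Nat.card (Bᶜ : Set M) :=
      Nat.card_congr (Equiv.ofBijective _ (val₁_bij e))
    rw [Nat.card_sum, Nat.card_fin] at h1
    have h2 : Nat.card B + Nat.card (Bᶜ : Set M) = Nat.card M := by
      rw [← Nat.card_sum]
      exact Nat.card_congr (Equiv.Set.sumCompl B)
    omega
  rw [Nat.card_sum, Nat.card_sum, Nat.card_fin, Nat.card_fin]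
  omega

end Pool.Agent.J4H63.AS
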