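import Pool.Agent.J4H63.AS.Cert

/-!
# Asser's problem and the parity of the census
-/

namespace Pool.Agent.J4H63.AS

open GZ Finset

variable {σ τ ι : Type} {S T Te To : Set ℕ}

theorem S1_iff {N : ℕ} : N ∈ S1 S ↔ ∃ y : Fin 7 → ℕ, (∀ i, y i ≤ 8191 * N ^ 13 + 16 * N) ∧
    ((Par (y 0) (y 1) (y 2) ∧ (y 3 < y 1 ∧ y 4 < y 1 ∧ y 5 < 8 * y 0 ∧ y 6 < y 0)) ∧
      ((y 6 ∈ S ∧ InB (y 0) (y 1) (y 3) (y 4) (y 5) (y 6)) ∧
      (N = y 0 ^ 13 + ((y 3 * y 1 + y 4) * (8 * y 0) + y 5) * y 2 + y 6 ∨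
       N + y 0 = y 0 ^ 13 + ((y 3 * y 1 + y 4) * (8 * y 0) + y 5) * y 2 + y 2 + y 6))) := by
  constructor
  · rintro ⟨j, hj, y, hy, x, hx, ⟨hS, hC⟩, hN⟩
    obtain ⟨a, ha, b, hb, g, hg, rfl⟩ := exists_y hy
    rw [inC_y hb hg] at hC
    have hM : 0 < 2 ^ j := Nat.two_pow_pos j
    have hMN : (2 ^ j) ^ 13 ≤ N := by
      rcases hN with h | h <;> rw [h] <;> exact le_pos _ _ _
    have hMN' : 2 ^ j ≤ N := (Nat.le_self_pow (by omega) _).trans hMN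
    have hpp := pp_le j
    have hl : ll j ≤ 8191 * N ^ 13 := by
      have h1 := YY_mul_ll j
      have h2 : ll j ≤ YY j * ll j := Nat.le_mul_of_pos_left _ (YY_pos j)
      have h3 : (2 ^ j) ^ 13 ≤ N ^ 13 := Nat.pow_le_pow_left hMN' 13
      omega
    have hl3 := ll_ge j
    refine ⟨![2 ^ j, pp j, ll j, a, b, g, x], ?_, ⟨?_, ha, hb, hg, hx⟩, ⟨hS, ?_⟩, ?_⟩
    · have h16 : 16 * 2 ^ j ≤ 8191 * N ^ 13 + 16 * N := by omega
      refine Fin.cases ?_ (Fin.cases ?_ (Fin.cases ?_ (Fin.cases ?_ (Fin.cases ?_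
        (Fin.cases ?_ (Fin.cases ?_ fun i => i.elim0)))))) <;> simp <;> omega
    · exact par_iff.2 ⟨j, hj, rfl, rfl, rfl⟩
    · exact (inB_iff (pp_prime j).pos).2 hC
    · rcases hN with h | h
      · exact Or.inl h
      · right
        show N + 2 ^ j = (2 ^ j) ^ 13 + ((a * pp j + b) * (8 * 2 ^ j) + g) * ll j + ll j + x
        rw [h]
        unfold pos
        omega
  · rintro ⟨y, _, ⟨hP, h3, h4, h5, h6⟩, ⟨hS, hB⟩, hN⟩
    obtain ⟨j, hj, h0, h1, h2⟩ := par_iff.1 hP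
    rw [h0, h1, h2] at hN
    rw [h0, h1] at hB
    rw [h1] at h3 h4
    rw [h0] at h5 h6
    rw [inB_iff (pp_prime j).pos] at hB
    have hl3 := ll_ge j
    have hM : 0 < 2 ^ j := Nat.two_pow_pos j
    refine ⟨j, hj, _, yy_lt h3 h4 h5, y 6, h6, ⟨hS, (inC_y h4 h5).2 hB⟩, ?_⟩
    rcases hN with h | h
    · exact Or.inl h
    · right
      unfold pos
      omega

theorem S1_se (hS : IsSpectrum S) {f : (ι → ℕ) → ℕ} (hf : PF f) :
    SE (fun (_ : τ → ℕ → Prop) v => f v ∈ S1 S) := by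
  refine (SE.exVec 7 (P := fun _ v y => (Par (y 0) (y 1) (y 2) ∧
    (y 3 < y 1 ∧ y 4 < y 1 ∧ y 5 < 8 * y 0 ∧ y 6 < y 0)) ∧
      ((y 6 ∈ S ∧ InB (y 0) (y 1) (y 3) (y 4) (y 5) (y 6)) ∧
      (f v = y 0 ^ 13 + ((y 3 * y 1 + y 4) * (8 * y 0) + y 5) * y 2 + y 6 ∨
       f v + y 0 = y 0 ^ 13 + ((y 3 * y 1 + y 4) * (8 * y 0) + y 5) * y 2 + y 2 + y 6)))
    (((PF.const 8191).mul (hf.pow 13)).add ((PF.const 16).mul hf)) ?_).congr fun B v => S1_iff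
  have p : ∀ i : Fin 7, PF (fun w : ι ⊕ Fin 7 → ℕ => w (Sum.inr i)) := fun i => PF.proj _
  have hf' : PF (fun w : ι ⊕ Fin 7 → ℕ => f (fun i => w (Sum.inl i))) :=
    hf.comp fun i => PF.proj (Sum.inl i)
  have hsum := (((p 0).pow 13).add (((((p 3).mul (p 1)).add (p 4)).mul ((PF.const 8).mul (p 0))
    |>.add (p 5)).mul (p 2)))
  refine SE.and (SE.of_sb ?_) (SE.and (SE.and (hS.mem (p 6)) (SE.of_sb ?_)) (SE.of_sb ?_))
  · exact (SB.par (p 0) (p 1) (p 2)).and ((SB.ltf (p 3) (p 1)).and ((SB.ltf (p 4) (p 1)).and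
      ((SB.ltf (p 5) ((PF.const 8).mul (p 0))).and (SB.ltf (p 6) (p 0)))))
  · exact SB.inB (p 0) (p 1) (p 3) (p 4) (p 5) (p 6)
  · exact (SB.eqf hf' (hsum.add (p 6))).or (SB.eqf (hf'.add (p 0)) ((hsum.add (p 2)).add (p 6)))

theorem S1_spectrum (hS : IsSpectrum S) : IsSpectrum (S1 S) :=
  isSpectrum_of_se (fun h => by have := S1_ge h; omega) (S1_se hS (PF.proj ()))

theorem S2_spectrum (hS : IsSpectrum S) : IsSpectrum (insert 1 (S1 S)) := by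
  refine isSpectrum_of_se ?_ ?_
  · rintro (h | h)
    · omega
    · have := S1_ge h
      omega
  · refine ((SE.of_sb (SB.eqf (PF.proj ()) (PF.const 1))).or (S1_se hS (PF.proj ()))).congr
      fun B v => Iff.rfl

/-- the claims about the census, by a formula -/
def GdF (Te To : Set ℕ) (X : ℕ → Prop) (M p l N : ℕ) : Prop :=
  ∃ z : Fin 4 → ℕ, (∀ i, z i ≤ p + 8 * M + l) ∧
    ((z 0 < p ∧ z 1 < p ∧ z 2 < 8 * M ∧ M ≤ z 3 ∧ z 3 + M < l ∧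
      N = M ^ 13 + ((z 0 * p + z 1) * (8 * M) + z 2) * l + z 3) ∧
    ((¬ Odd (cnt (fun x => X x ∧ InB M p (z 0) (z 1) (z 2) x) M) ∧ N ∈ Te) ∨
      (Odd (cnt (fun x => X x ∧ InB M p (z 0) (z 1) (z 2) x) M) ∧ N ∈ To)))

theorem gdF_iff {X : ℕ → Prop} {j N : ℕ} :
    GdF Te To X (2 ^ j) (pp j) (ll j) N ↔ Gd Te To X j N := by
  have key : ∀ a b g, b < pp j → g < 8 * 2 ^ j →
      cnt (fun x => X x ∧ InB (2 ^ j) (pp j) a b g x) (2 ^ j) =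
        cnt (fun x => X x ∧ inC j ((a * pp j + b) * (8 * 2 ^ j) + g) x) (2 ^ j) := by
    intro a b g hb hg
    refine cnt_congr fun x _ => ?_
    rw [inB_iff (pp_prime j).pos, inC_y hb hg]
  constructor
  · rintro ⟨z, _, ⟨h0, h1, h2, h3, h4, h5⟩, h6⟩
    rw [key _ _ _ h1 h2] at h6
    exact ⟨_, yy_lt h0 h1 h2, z 3, h3, h4, h5, h6⟩
  · rintro ⟨y, hy, r, h3, h4, h5, h6⟩
    obtain ⟨a, ha, b, hb, g, hg, rfl⟩ := exists_y hy
    have hM : 0 < 2 ^ j := Nat.two_pow_pos j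
    refine ⟨![a, b, g, r], ?_, ⟨ha, hb, hg, h3, h4, h5⟩, ?_⟩
    · refine Fin.cases ?_ (Fin.cases ?_ (Fin.cases ?_ (Fin.cases ?_ fun i => i.elim0))) <;>
        simp <;> omega
    · have : ((¬ Odd (cnt (fun x => X x ∧ InB (2 ^ j) (pp j) a b g x) (2 ^ j)) ∧ N ∈ Te) ∨
          (Odd (cnt (fun x => X x ∧ InB (2 ^ j) (pp j) a b g x) (2 ^ j)) ∧ N ∈ To)) := by
        rw [key a b g hb hg]
        exact h6
      exact this

theorem gdF_se (hTe : IsSpectrum Te) (hTo : IsSpectrum To) (s : τ) {M p l N : (ι → ℕ) → ℕ}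
    (hM : PF M) (hp : PF p) (hl : PF l) (hN : PF N) :
    SE (fun (B : τ → ℕ → Prop) v => GdF Te To (B s) (M v) (p v) (l v) (N v)) := by
  refine SE.exVec 4 (P := fun B v z => (z 0 < p v ∧ z 1 < p v ∧ z 2 < 8 * M v ∧ M v ≤ z 3 ∧
      z 3 + M v < l v ∧ N v = M v ^ 13 + ((z 0 * p v + z 1) * (8 * M v) + z 2) * l v + z 3) ∧
    ((¬ Odd (cnt (fun x => B s x ∧ InB (M v) (p v) (z 0) (z 1) (z 2) x) (M v)) ∧ N v ∈ Te) ∨
      (Odd (cnt (fun x => B s x ∧ InB (M v) (p v) (z 0) (z 1) (z 2) x) (M v)) ∧ N v ∈ To)))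
    ((hp.add ((PF.const 8).mul hM)).add hl) ?_
  have q : ∀ i : Fin 4, PF (fun w : ι ⊕ Fin 4 → ℕ => w (Sum.inr i)) := fun i => PF.proj _
  have up : ∀ {f : (ι → ℕ) → ℕ}, PF f → PF (fun w : ι ⊕ Fin 4 → ℕ => f (fun i => w (Sum.inl i))) :=
    fun hf => hf.comp fun i => PF.proj (Sum.inl i)
  have hpar := SE.parity (τ := τ) (P := fun B (w : ι ⊕ Fin 4 → ℕ) x => B s x ∧
    InB (M fun i => w (Sum.inl i)) (p fun i => w (Sum.inl i)) (w (Sum.inr 0)) (w (Sum.inr 1))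
      (w (Sum.inr 2)) x) (b := fun w => M fun i => w (Sum.inl i)) (up hM)
    ((SB.memf s (PF.proj none)).and (SB.inB (up hM).up (up hp).up (q 0).up (q 1).up (q 2).up
      (PF.proj none)))
  refine SE.and (SE.of_sb ?_) (SE.or (hpar.2.and (hTe.mem (up hN))) (hpar.1.and
    (hTo.mem (up hN))))
  refine (SB.ltf (q 0) (up hp)).and ((SB.ltf (q 1) (up hp)).and ((SB.ltf (q 2)
    ((PF.const 8).mul (up hM))).and ((SB.lef (up hM) (q 3)).and ((SB.ltf ((q 3).add (up hM))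
      (up hl)).and (SB.eqf (up hN) ?_)))))
  exact (((up hM).pow 13).add (((((q 0).mul (up hp)).add (q 1)).mul ((PF.const 8).mul (up hM))
    |>.add (q 2)).mul (up hl))).add (q 3)

open Classical in
theorem ncard_eq {b : ℕ} {P : ℕ → Prop} :
    {x | x ≤ b ∧ P x}.ncard = ((range (b + 1)).filter P).card := by
  rw [← Set.ncard_coe_finset]
  congr 1
  ext x
  simp [Nat.lt_succ_iff]

/-- the certificate of `n ∉ S` -/
def CertF (Te To : Set ℕ) (c n : ℕ) : Prop :=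
  ∃ X : Unit → ℕ → Prop, ∃ y : Fin 4 → ℕ,
    (∀ i, y i ≤ 8192 * (2 * (n + c + 4)) ^ 13 + 16 * (2 * (n + c + 4)) + 1) ∧
    (((Par (y 0) (y 1) (y 2) ∧ n < y 0 ∧ c ≤ y 0) ∧ ¬ X () n ∧
      61 * (y 1 ^ 2 * (8 * y 0) * y 2) ≤ 64 * y 3 + 61 * (y 1 ^ 2 * (8 * y 0) * (2 * y 0))) ∧
    y 3 ≤ {x | x ≤ (2 * y 0) ^ 13 ∧ GdF Te To (X ()) (y 0) (y 1) (y 2) x}.ncard)

open Classical in
theorem certF_iff {c n : ℕ}
    (he : ∀ N ≥ c, 50 * ((Icc 1 N).filter (Ee S Te)).card ≤ N)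
    (ho : ∀ N ≥ c, 50 * ((Icc 1 N).filter (Eo S To)).card ≤ N) :
    CertF Te To c n ↔ n ∉ S := by
  have hgen : ∀ j, (2 * 2 ^ j) ^ 13 = (2 ^ (j + 1)) ^ 13 := fun j => by
    rw [pow_succ 2 j, Nat.mul_comm]
  have hR : ∀ j, YY j * (ll j - 2 * 2 ^ j) + YY j * (2 * 2 ^ j) = YY j * ll j := by
    intro j
    have := ll_ge j
    have h0 := Nat.two_pow_pos j
    rw [← Nat.mul_add]
    congr 1
    omega
  have hbig : ∀ j, c ≤ 2 ^ j → c ≤ (2 ^ (j + 1)) ^ 13 := by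
    intro j hj
    have h1 : 2 ^ j ≤ 2 ^ (j + 1) := Nat.pow_le_pow_right (by omega) (by omega)
    have h2 : 2 ^ (j + 1) ≤ (2 ^ (j + 1)) ^ 13 := Nat.le_self_pow (by omega) _
    omega
  constructor
  · rintro ⟨X, y, _, ⟨⟨hP, hn, hc⟩, hX, h1⟩, h2⟩ hS
    obtain ⟨j, hj, e0, e1, e2⟩ := par_iff.1 hP
    rw [e0] at hn hc
    rw [e0, e1, e2] at h1
    rw [e0, e1, e2, hgen] at h2
    have h3 := cert_sound (S := S) (Te := Te) (To := To) hj rfl (he _ (hbig j hc))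
      (ho _ (hbig j hc)) hn hX hS
    rw [ncard_eq] at h2
    have h4 : ((range ((2 ^ (j + 1)) ^ 13 + 1)).filter
        fun x => GdF Te To (X ()) (2 ^ j) (pp j) (ll j) x) =
        (range ((2 ^ (j + 1)) ^ 13 + 1)).filter (Gd Te To (X ()) j) :=
      filter_congr fun x _ => gdF_iff
    rw [h4] at h2
    have h5 := hR j
    have h6 : pp j ^ 2 * (8 * 2 ^ j) = YY j := rfl
    rw [h6, ← h5] at h1
    generalize YY j * (ll j - 2 * 2 ^ j) = V at *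
    generalize YY j * (2 * 2 ^ j) = W at *
    omega
  · intro hn
    obtain ⟨j, hj1, hj2⟩ : ∃ j, n + c + 4 ≤ 2 ^ j ∧ 2 ^ j ≤ 2 * (n + c + 4) := by
      refine ⟨Nat.clog 2 (n + c + 4), Nat.le_pow_clog (by omega) _, ?_⟩
      have h2 := Nat.pow_pred_clog_lt_self (b := 2) (x := n + c + 4) (by omega) (by omega)
      have h3 : 0 < Nat.clog 2 (n + c + 4) := Nat.clog_pos (by omega) (by omega)
      obtain ⟨e, he⟩ : ∃ e, Nat.clog 2 (n + c + 4) = e + 1 :=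
        ⟨Nat.clog 2 (n + c + 4) - 1, by omega⟩
      rw [he] at h2 ⊢
      rw [Nat.pred_succ] at h2
      rw [pow_succ]
      omega
    have hj : 2 ≤ j := by
      by_contra hlt
      have : 2 ^ j ≤ 2 ^ 1 := Nat.pow_le_pow_right (by omega) (by omega)
      omega
    have hc : c ≤ 2 ^ j := by omega
    have h3 := cert_complete (S := S) (Te := Te) (To := To) hj rfl (he _ (hbig j hc))
      (ho _ (hbig j hc))
    set K := ((range ((2 ^ (j + 1)) ^ 13 + 1)).filter (Gd Te To (· ∈ S) j)).card with hK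
    have hKle : K ≤ (2 ^ (j + 1)) ^ 13 + 1 := by
      have := card_filter_le (range ((2 ^ (j + 1)) ^ 13 + 1)) (Gd Te To (· ∈ S) j)
      rwa [card_range] at this
    have h13 : (2 ^ j) ^ 13 ≤ (2 * (n + c + 4)) ^ 13 := Nat.pow_le_pow_left hj2 13
    have hsucc : (2 ^ (j + 1)) ^ 13 = 8192 * (2 ^ j) ^ 13 := by ring
    have hl : ll j ≤ 8191 * (2 ^ j) ^ 13 := by
      have h1 := YY_mul_ll j
      have h2 : ll j ≤ YY j * ll j := Nat.le_mul_of_pos_left _ (YY_pos j)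
      omega
    have hpp := pp_le j
    refine ⟨fun _ => (· ∈ S), ![2 ^ j, pp j, ll j, K], ?_, ⟨⟨par_iff.2 ⟨j, hj, rfl, rfl, rfl⟩,
      ?_, ?_⟩, hn, ?_⟩, ?_⟩
    · refine Fin.cases ?_ (Fin.cases ?_ (Fin.cases ?_ (Fin.cases ?_ fun i => i.elim0))) <;>
        simp <;> omega
    · show n < 2 ^ j
      omega
    · exact hc
    · show 61 * (pp j ^ 2 * (8 * 2 ^ j) * ll j) ≤ 64 * K +
        61 * (pp j ^ 2 * (8 * 2 ^ j) * (2 * 2 ^ j))
      have h5 := hR j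
      have h6 : pp j ^ 2 * (8 * 2 ^ j) = YY j := rfl
      rw [h6, ← h5]
      omega
    · show K ≤ {x | x ≤ (2 * 2 ^ j) ^ 13 ∧ GdF Te To (· ∈ S) (2 ^ j) (pp j) (ll j) x}.ncard
      rw [ncard_eq, hgen]
      have h4 : ((range ((2 ^ (j + 1)) ^ 13 + 1)).filter
          fun x => GdF Te To (· ∈ S) (2 ^ j) (pp j) (ll j) x) =
          (range ((2 ^ (j + 1)) ^ 13 + 1)).filter (Gd Te To (· ∈ S) j) :=
        filter_congr fun x _ => gdF_iff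
      rw [h4]

theorem certF_se (hTe : IsSpectrum Te) (hTo : IsSpectrum To) (c : ℕ) :
    SE (fun (_ : Empty → ℕ → Prop) (v : Unit → ℕ) => CertF Te To c (v ())) := by
  refine SE.exRel (τ' := Unit) (P := fun (B : Empty ⊕ Unit → ℕ → Prop) (v : Unit → ℕ) =>
    ∃ y : Fin 4 → ℕ,
      (∀ i, y i ≤ 8192 * (2 * (v () + c + 4)) ^ 13 + 16 * (2 * (v () + c + 4)) + 1) ∧
      (((Par (y 0) (y 1) (y 2) ∧ v () < y 0 ∧ c ≤ y 0) ∧ ¬ B (Sum.inr ()) (v ()) ∧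
        61 * (y 1 ^ 2 * (8 * y 0) * y 2) ≤ 64 * y 3 + 61 * (y 1 ^ 2 * (8 * y 0) * (2 * y 0))) ∧
      y 3 ≤ {x | x ≤ (2 * y 0) ^ 13 ∧
        GdF Te To (B (Sum.inr ())) (y 0) (y 1) (y 2) x}.ncard)) ?_
  have hB : PF (fun v : Unit → ℕ => 2 * (v () + c + 4)) :=
    (PF.const 2).mul (((PF.proj ()).add (PF.const c)).add (PF.const 4))
  refine SE.exVec 4 (P := fun (B : Empty ⊕ Unit → ℕ → Prop) (v : Unit → ℕ) (y : Fin 4 → ℕ) =>
      ((Par (y 0) (y 1) (y 2) ∧ v () < y 0 ∧ c ≤ y 0) ∧ ¬ B (Sum.inr ()) (v ()) ∧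
        61 * (y 1 ^ 2 * (8 * y 0) * y 2) ≤ 64 * y 3 + 61 * (y 1 ^ 2 * (8 * y 0) * (2 * y 0))) ∧
      y 3 ≤ {x | x ≤ (2 * y 0) ^ 13 ∧
        GdF Te To (B (Sum.inr ())) (y 0) (y 1) (y 2) x}.ncard)
    ((((PF.const 8192).mul (hB.pow 13)).add ((PF.const 16).mul hB)).add (PF.const 1)) ?_
  have q : ∀ i : Fin 4, PF (fun w : Unit ⊕ Fin 4 → ℕ => w (Sum.inr i)) := fun i => PF.proj _
  have u : PF (fun w : Unit ⊕ Fin 4 → ℕ => w (Sum.inl ())) := PF.proj _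
  refine SE.and (SE.of_sb (SB.and ((SB.par (q 0) (q 1) (q 2)).and ((SB.ltf u (q 0)).and
    (SB.lef (PF.const c) (q 0)))) ((SB.memf (Sum.inr ()) u).not.and (SB.lef ?_ ?_)))) ?_
  · exact (PF.const 61).mul ((((q 1).pow 2).mul ((PF.const 8).mul (q 0))).mul (q 2))
  · exact ((PF.const 64).mul (q 3)).add ((PF.const 61).mul
      ((((q 1).pow 2).mul ((PF.const 8).mul (q 0))).mul ((PF.const 2).mul (q 0))))
  · exact SE.count (P := fun B w x => GdF Te To (B (Sum.inr ())) (w (Sum.inr 0)) (w (Sum.inr 1))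
      (w (Sum.inr 2)) x) (b := fun w : Unit ⊕ Fin 4 → ℕ => (2 * w (Sum.inr 0)) ^ 13)
      (k := fun w => w (Sum.inr 3)) (((PF.const 2).mul (q 0)).pow 13) (q 3)
      (gdF_se hTe hTo (Sum.inr ()) (q 0).up (q 1).up (q 2).up (PF.proj none))

open Classical in
theorem compl_spectrum (hTe : IsSpectrum Te) (hTo : IsSpectrum To) (c : ℕ)
    (he : ∀ N ≥ c, 50 * ((Icc 1 N).filter (Ee S Te)).card ≤ N)
    (ho : ∀ N ≥ c, 50 * ((Icc 1 N).filter (Eo S To)).card ≤ N) :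
    IsSpectrum {n | 0 < n ∧ n ∉ S} := by
  refine isSpectrum_of_se (fun h => lt_irrefl 0 h.1) ?_
  refine ((SE.of_sb (SB.ltf (PF.const 0) (PF.proj ()))).and (certF_se hTe hTo c)).congr
    fun B v => ?_
  show (0 < v () ∧ v () ∉ S) ↔ _
  rw [certF_iff he ho]

end Pool.Agent.J4H63.AS
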