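import Pool.Agent.J4H63.AS.Arith

/-!
# Certificates from approximations of the parity of the census
-/

namespace Pool.Agent.J4H63.AS

open Finset

theorem yy_lt {j a b g : ℕ} (ha : a < pp j) (hb : b < pp j) (hg : g < 8 * 2 ^ j) :
    (a * pp j + b) * (8 * 2 ^ j) + g < YY j := by
  have h1 : (a + 1) * pp j ≤ pp j * pp j := Nat.mul_le_mul_right _ ha
  have h2 : (a * pp j + b + 1) * (8 * 2 ^ j) ≤ pp j * pp j * (8 * 2 ^ j) := by
    refine Nat.mul_le_mul_right _ ?_
    rw [Nat.add_mul, Nat.one_mul] at h1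
    omega
  have h3 : YY j = pp j * pp j * (8 * 2 ^ j) := by unfold YY; ring
  rw [h3]
  rw [Nat.add_mul, Nat.one_mul] at h2
  omega

theorem inC_y {j a b g x : ℕ} (hb : b < pp j) (hg : g < 8 * 2 ^ j) :
    inC j ((a * pp j + b) * (8 * 2 ^ j) + g) x ↔ InA j (pp j) a b g x := by
  have hm : 0 < 8 * 2 ^ j := by omega
  have e1 : ((a * pp j + b) * (8 * 2 ^ j) + g) / (8 * 2 ^ j) = a * pp j + b := by
    rw [Nat.mul_comm _ (8 * 2 ^ j), Nat.mul_add_div hm, Nat.div_eq_of_lt hg, Nat.add_zero]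
  have e2 : ((a * pp j + b) * (8 * 2 ^ j) + g) % (8 * 2 ^ j) = g := by
    rw [Nat.mul_comm _ (8 * 2 ^ j), Nat.mul_add_mod, Nat.mod_eq_of_lt hg]
  have e3 : (a * pp j + b) / pp j = a := by
    rw [Nat.mul_comm, Nat.mul_add_div (pp_prime j).pos, Nat.div_eq_of_lt hb, Nat.add_zero]
  have e4 : (a * pp j + b) % pp j = b := by
    rw [Nat.mul_comm, Nat.mul_add_mod, Nat.mod_eq_of_lt hb]
  unfold inC
  rw [e1, e2, e3, e4]

theorem exists_y {j y : ℕ} (hy : y < YY j) : ∃ a < pp j, ∃ b < pp j, ∃ g < 8 * 2 ^ j,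
    y = (a * pp j + b) * (8 * 2 ^ j) + g := by
  have hp := (pp_prime j).pos
  have hm : 0 < 8 * 2 ^ j := by have := Nat.two_pow_pos j; omega
  refine ⟨y / (8 * 2 ^ j) / pp j, ?_, y / (8 * 2 ^ j) % pp j, Nat.mod_lt _ hp,
    y % (8 * 2 ^ j), Nat.mod_lt _ hm, ?_⟩
  · rw [Nat.div_lt_iff_lt_mul hp, Nat.div_lt_iff_lt_mul hm]
    refine hy.trans_le (le_of_eq ?_)
    unfold YY
    ring
  · rw [Nat.mul_comm _ (pp j), Nat.div_add_mod, Nat.mul_comm _ (8 * 2 ^ j), Nat.div_add_mod]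

/-- the usable positions, with the claims about the census which are made by the sets `Te`, `To` -/
def Gd (Te To : Set ℕ) (X : ℕ → Prop) (j N : ℕ) : Prop :=
  ∃ y < YY j, ∃ r, 2 ^ j ≤ r ∧ r + 2 ^ j < ll j ∧ N = pos j y r ∧
    ((¬ Odd (cnt (fun x => X x ∧ inC j y x) (2 ^ j)) ∧ N ∈ Te) ∨
      (Odd (cnt (fun x => X x ∧ inC j y x) (2 ^ j)) ∧ N ∈ To))

variable {S Te To : Set ℕ}

/-- the errors of `Te` -/
def Ee (S Te : Set ℕ) (k : ℕ) : Prop := ¬ (k ∈ Te ↔ ¬ Odd (cnt (· ∈ S1 S) (k + 1)))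

/-- the errors of `To` -/
def Eo (S To : Set ℕ) (k : ℕ) : Prop := ¬ (k ∈ To ↔ Odd (cnt (· ∈ S1 S) (k + 1)))

open Classical in
theorem card_pos_image (j : ℕ) (s : Finset ℕ) :
    ((s ×ˢ Ico (2 ^ j) (ll j - 2 ^ j)).image fun q => pos j q.1 q.2).card =
      s.card * (ll j - 2 * 2 ^ j) := by
  rw [card_image_of_injOn, card_product, Nat.card_Ico]
  · congr 1
    omega
  · rintro ⟨y, r⟩ hq ⟨y', r'⟩ hq' h
    rw [mem_coe, mem_product, mem_Ico] at hq hq'
    have h0 := Nat.two_pow_pos j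
    have h1 : r < ll j := by have := hq.2.2; dsimp only at this; omega
    have h2 : r' < ll j := by have := hq'.2.2; dsimp only at this; omega
    obtain ⟨h3, h4⟩ := pos_inj h1 h2 h
    exact Prod.ext h3 h4

theorem census_pos {j : ℕ} (hj : 2 ≤ j) {y r : ℕ} (hy : y < YY j) (h1 : 2 ^ j ≤ r)
    (h2 : r + 2 ^ j < ll j) : (Odd (cnt (· ∈ S1 S) (pos j y r + 1)) ↔
      Odd (cnt (fun x => x ∈ S ∧ inC j y x) (2 ^ j))) := by
  have : pos j y r + 1 = pos j y (r + 1) := by unfold pos; omega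
  rw [this]
  exact cnt_S1 hj hy (by omega) (by omega)

open Classical in
theorem cert_sound {j : ℕ} (hj : 2 ≤ j) {N : ℕ} (hN : N = (2 ^ (j + 1)) ^ 13)
    (he : 50 * ((Icc 1 N).filter (Ee S Te)).card ≤ N)
    (ho : 50 * ((Icc 1 N).filter (Eo S To)).card ≤ N)
    {X : ℕ → Prop} {n : ℕ} (hn : n < 2 ^ j) (hX : ¬ X n) (hS : n ∈ S) :
    64 * ((range (N + 1)).filter (Gd Te To X j)).card < 61 * (YY j * (ll j - 2 * 2 ^ j)) := by
  set D := (range (2 ^ j)).filter fun x => ¬ (X x ↔ x ∈ S) with hD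
  have hDne : D.Nonempty := ⟨n, by rw [hD, mem_filter, mem_range]; exact ⟨hn, by tauto⟩⟩
  have hdist := distance' j hDne fun x hx => mem_range.1 (mem_filter.1 hx).1
  set Yd := (range (YY j)).filter fun y => Odd (D.filter fun x => inC j y x).card with hYd
  set Ys := (range (YY j)).filter fun y => ¬ Odd (D.filter fun x => inC j y x).card with hYs
  have hcard : Yd.card + Ys.card = YY j := by
    have := card_filter_add_card_filter_not (s := range (YY j))
      (fun y => Odd (D.filter fun x => inC j y x).card)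
    rwa [card_range] at this
  have hsub : (range (N + 1)).filter (Gd Te To X j) ⊆
      ((Ys ×ˢ Ico (2 ^ j) (ll j - 2 ^ j)).image fun q => pos j q.1 q.2) ∪
        ((Icc 1 N).filter (Ee S Te) ∪ (Icc 1 N).filter (Eo S To)) := by
    intro N' hN'
    rw [mem_filter, mem_range] at hN'
    obtain ⟨hle, y, hy, r, h1, h2, rfl, h3⟩ := hN'
    rw [mem_union, mem_union]
    by_cases hys : y ∈ Ys
    · left
      rw [mem_image]
      refine ⟨(y, r), ?_, rfl⟩
      rw [mem_product, mem_Ico]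
      exact ⟨hys, h1, by dsimp only; omega⟩
    · right
      have hodd : Odd (D.filter fun x => inC j y x).card := by
        by_contra h
        exact hys (mem_filter.2 ⟨mem_range.2 hy, h⟩)
      have hpar := cnt_parity (P := fun x => X x ∧ inC j y x) (Q := fun x => x ∈ S ∧ inC j y x)
        (n := 2 ^ j)
      have heq : ((range (2 ^ j)).filter fun k => ¬ ((X k ∧ inC j y k) ↔ (k ∈ S ∧ inC j y k))) =
          D.filter fun x => inC j y x := by
        ext x
        simp only [hD, mem_filter, mem_range]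
        tauto
      rw [heq] at hpar
      have hcen := census_pos (S := S) hj hy h1 h2
      have hpos : 1 ≤ pos j y r := by
        have := le_pos j y r
        have := Nat.pow_pos (n := 13) (Nat.two_pow_pos j)
        omega
      have hmem : pos j y r ∈ Icc 1 N := mem_Icc.2 ⟨hpos, by omega⟩
      rcases h3 with ⟨h3, h4⟩ | ⟨h3, h4⟩
      · left
        refine mem_filter.2 ⟨hmem, ?_⟩
        unfold Ee
        rw [hcen]
        tauto
      · right
        refine mem_filter.2 ⟨hmem, ?_⟩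
        unfold Eo
        rw [hcen]
        tauto
  have h5 := card_le_card hsub
  have h6 := card_union_le ((Ys ×ˢ Ico (2 ^ j) (ll j - 2 ^ j)).image fun q => pos j q.1 q.2)
    ((Icc 1 N).filter (Ee S Te) ∪ (Icc 1 N).filter (Eo S To))
  have h7 := card_union_le ((Icc 1 N).filter (Ee S Te)) ((Icc 1 N).filter (Eo S To))
  rw [card_pos_image] at h6
  have h8 := YY_mul_R hj
  have h9 : N = 8192 * (2 ^ j) ^ 13 := by rw [hN]; ring
  have h10 : 32 * (Ys.card * (ll j - 2 * 2 ^ j)) ≤ 29 * (YY j * (ll j - 2 * 2 ^ j)) := by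
    rw [← Nat.mul_assoc, ← Nat.mul_assoc]
    exact Nat.mul_le_mul_right _ (by omega)
  have h11 : 0 < (2 ^ j) ^ 13 := Nat.pow_pos (Nat.two_pow_pos j)
  generalize (2 ^ j) ^ 13 = Q at *
  generalize YY j * (ll j - 2 * 2 ^ j) = V at *
  generalize Ys.card * (ll j - 2 * 2 ^ j) = V' at *
  omega

open Classical in
theorem cert_complete {j : ℕ} (hj : 2 ≤ j) {N : ℕ} (hN : N = (2 ^ (j + 1)) ^ 13)
    (he : 50 * ((Icc 1 N).filter (Ee S Te)).card ≤ N)
    (ho : 50 * ((Icc 1 N).filter (Eo S To)).card ≤ N) :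
    61 * (YY j * (ll j - 2 * 2 ^ j)) ≤ 64 * ((range (N + 1)).filter (Gd Te To (· ∈ S) j)).card := by
  have hsub : ((range (YY j) ×ˢ Ico (2 ^ j) (ll j - 2 ^ j)).image fun q => pos j q.1 q.2) ⊆
      (range (N + 1)).filter (Gd Te To (· ∈ S) j) ∪
        ((Icc 1 N).filter (Ee S Te) ∪ (Icc 1 N).filter (Eo S To)) := by
    intro N' hN'
    rw [mem_image] at hN'
    obtain ⟨⟨y, r⟩, hq, rfl⟩ := hN'
    rw [mem_product, mem_range, mem_Ico] at hq
    obtain ⟨hy, h1, h2⟩ := hq
    dsimp only at hy h1 h2 ⊢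
    have h0 := Nat.two_pow_pos j
    have hcen := census_pos (S := S) hj hy h1 (by omega)
    have hlt := pos_lt hy (r := r) (by omega)
    have hpos : 1 ≤ pos j y r := by
      have := le_pos j y r
      have := Nat.pow_pos (n := 13) (Nat.two_pow_pos j)
      omega
    have hmem : pos j y r ∈ Icc 1 N := mem_Icc.2 ⟨hpos, by omega⟩
    rw [mem_union, mem_union]
    by_cases hE : Ee S Te (pos j y r)
    · exact Or.inr (Or.inl (mem_filter.2 ⟨hmem, hE⟩))
    by_cases hO : Eo S To (pos j y r)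
    · exact Or.inr (Or.inr (mem_filter.2 ⟨hmem, hO⟩))
    left
    refine mem_filter.2 ⟨mem_range.2 (by omega), y, hy, r, h1, by omega, rfl, ?_⟩
    unfold Ee at hE
    unfold Eo at hO
    rw [hcen] at hE hO
    tauto
  have h5 := card_le_card hsub
  have h6 := card_union_le ((range (N + 1)).filter (Gd Te To (· ∈ S) j))
    ((Icc 1 N).filter (Ee S Te) ∪ (Icc 1 N).filter (Eo S To))
  have h7 := card_union_le ((Icc 1 N).filter (Ee S Te)) ((Icc 1 N).filter (Eo S To))
  rw [card_pos_image, card_range] at h5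
  have h8 := YY_mul_R hj
  have h9 : N = 8192 * (2 ^ j) ^ 13 := by rw [hN]; ring
  generalize (2 ^ j) ^ 13 = Q at *
  generalize YY j * (ll j - 2 * 2 ^ j) = V at *
  omega

end Pool.Agent.J4H63.AS
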