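import Mathlib

/-!
# A binary linear code of constant relative distance
-/

namespace Pool.Agent.J4H63.AS

open Finset

/-- the hash function -/
def hsh (p α β x : ℕ) : ℕ := (α * x + β) % p

/-- the level of a value -/
def lvl (j p v : ℕ) : ℕ := Nat.findGreatest (fun k => v * 2 ^ k < p) (j + 2)

/-- the sets of the code -/
def InA (j p α β g x : ℕ) : Prop := g.testBit (lvl j p (hsh p α β x)) = true

instance (j p α β g x : ℕ) : Decidable (InA j p α β g x) := inferInstanceAs (Decidable (_ = _))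

theorem lvl_le (j p v : ℕ) : lvl j p v ≤ j + 2 := Nat.findGreatest_le _

theorem le_lvl {j p v k : ℕ} (hk : k ≤ j + 2) (h : v * 2 ^ k < p) : k ≤ lvl j p v :=
  Nat.le_findGreatest hk h

theorem lvl_spec {j p v : ℕ} (h : v < p) : v * 2 ^ lvl j p v < p :=
  Nat.findGreatest_spec (P := fun k => v * 2 ^ k < p) (Nat.zero_le (j + 2)) (by simpa using h)

theorem hsh_lt {p : ℕ} (hp : 0 < p) (α β x : ℕ) : hsh p α β x < p := Nat.mod_lt _ hp

/-- the number of `β` with a value in a given set -/
theorem card_beta {p : ℕ} (hp : 0 < p) (α x : ℕ) {V : Finset ℕ} (hV : V ⊆ range p) :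
    ((range p).filter fun β => hsh p α β x ∈ V).card = V.card := by
  have hinj : Set.InjOn (fun β => hsh p α β x) (range p : Set ℕ) := by
    intro β hβ β' hβ' h
    rw [mem_coe, mem_range] at hβ hβ'
    have h1 : α * x + β ≡ α * x + β' [MOD p] := h
    have h2 : β ≡ β' [MOD p] := Nat.ModEq.add_left_cancel' _ h1
    have h3 : β % p = β' % p := h2
    rwa [Nat.mod_eq_of_lt hβ, Nat.mod_eq_of_lt hβ'] at h3
  have himg : (range p).image (fun β => hsh p α β x) = range p := by
    refine eq_of_subset_of_card_le ?_ ?_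
    · intro v hv
      rw [mem_image] at hv
      obtain ⟨β, _, rfl⟩ := hv
      exact mem_range.2 (hsh_lt hp _ _ _)
    · rw [card_image_of_injOn hinj]
  refine card_bij (fun β _ => hsh p α β x) (fun β hβ => (mem_filter.1 hβ).2)
    (fun β hβ β' hβ' h => hinj (mem_filter.1 hβ).1 (mem_filter.1 hβ').1 h) fun v hv => ?_
  have := hV hv
  rw [← himg, mem_image] at this
  obtain ⟨β, hβ, rfl⟩ := this
  exact ⟨β, mem_filter.2 ⟨hβ, hv⟩, rfl⟩

theorem card_one {p : ℕ} (hp : 0 < p) (x : ℕ) {V : Finset ℕ} (hV : V ⊆ range p) :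
    ((range p ×ˢ range p).filter fun q => hsh p q.1 q.2 x ∈ V).card = p * V.card := by
  rw [card_filter, sum_product]
  have : ∀ α ∈ range p, (∑ β ∈ range p, if hsh p (α, β).1 (α, β).2 x ∈ V then 1 else 0) =
      V.card := by
    intro α _
    rw [← card_filter]
    exact card_beta hp α x hV
  rw [sum_congr rfl this, sum_const, card_range, smul_eq_mul]

theorem card_two {p : ℕ} (hp : p.Prime) {x x' : ℕ} (hx : x < p) (hx' : x' < p) (hne : x ≠ x')
    (V : Finset ℕ) :
    ((range p ×ˢ range p).filter fun q => hsh p q.1 q.2 x ∈ V ∧ hsh p q.1 q.2 x' ∈ V).card ≤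
      V.card * V.card := by
  rw [← card_product]
  refine card_le_card_of_injOn (fun q => (hsh p q.1 q.2 x, hsh p q.1 q.2 x')) ?_ ?_
  · intro q hq
    rw [mem_coe, mem_filter] at hq
    rw [mem_coe, mem_product]
    exact hq.2
  · rintro ⟨α, β⟩ h1 ⟨α', β'⟩ h2 h
    rw [mem_coe, mem_filter, mem_product, mem_range, mem_range] at h1 h2
    obtain ⟨⟨hα, hβ⟩, _⟩ := h1
    obtain ⟨⟨hα', hβ'⟩, _⟩ := h2
    dsimp only at hα hβ hα' hβ'
    haveI : Fact p.Prime := ⟨hp⟩
    have e1 : α * x + β ≡ α' * x + β' [MOD p] := congrArg Prod.fst h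
    have e2 : α * x' + β ≡ α' * x' + β' [MOD p] := congrArg Prod.snd h
    rw [← ZMod.natCast_eq_natCast_iff] at e1 e2
    push_cast at e1 e2
    have e3 : ((α : ZMod p) - α') * ((x : ZMod p) - x') = 0 := by
      linear_combination e1 - e2
    have hxx : ((x : ZMod p) - x') ≠ 0 := by
      rw [sub_ne_zero]
      intro he
      have := (ZMod.natCast_eq_natCast_iff' x x' p).1 he
      rw [Nat.mod_eq_of_lt hx, Nat.mod_eq_of_lt hx'] at this
      exact hne this
    have e4 : (α : ZMod p) = α' := by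
      rcases mul_eq_zero.1 e3 with h | h
      · exact sub_eq_zero.1 h
      · exact absurd h hxx
    have e5 : (β : ZMod p) = β' := by
      rw [e4] at e1
      exact add_left_cancel e1
    have h4 := (ZMod.natCast_eq_natCast_iff' α α' p).1 e4
    have h5 := (ZMod.natCast_eq_natCast_iff' β β' p).1 e5
    rw [Nat.mod_eq_of_lt hα, Nat.mod_eq_of_lt hα'] at h4
    rw [Nat.mod_eq_of_lt hβ, Nat.mod_eq_of_lt hβ'] at h5
    rw [h4, h5]

/-- isolation of an element -/
theorem isolation {p j : ℕ} (hp : p.Prime) (hpj : 8 * 2 ^ j < p) {D : Finset ℕ} (hD : D.Nonempty)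
    (hDM : ∀ x ∈ D, x < 2 ^ j) : ∃ k ≤ j + 2,
      3 * p ^ 2 ≤ 16 * ((range p ×ˢ range p).filter fun q =>
        (D.filter fun x => hsh p q.1 q.2 x * 2 ^ k < p).card = 1).card := by
  set d := D.card with hd
  have hdpos : 0 < d := card_pos.2 hD
  have hdM : d ≤ 2 ^ j := by
    have : D ⊆ range (2 ^ j) := fun x hx => mem_range.2 (hDM x hx)
    simpa using card_le_card this
  -- the scale
  obtain ⟨k, hk1, hk2⟩ : ∃ k, 2 * d ≤ 2 ^ k ∧ 2 ^ k < 4 * d := by
    refine ⟨Nat.clog 2 (2 * d), Nat.le_pow_clog (by omega) _, ?_⟩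
    have h1 : 1 < 2 * d := by omega
    have h2 := Nat.pow_pred_clog_lt_self (b := 2) (by omega) h1
    have h3 : 0 < Nat.clog 2 (2 * d) := Nat.clog_pos (by omega) (by omega)
    obtain ⟨c, hc⟩ : ∃ c, Nat.clog 2 (2 * d) = c + 1 := ⟨Nat.clog 2 (2 * d) - 1, by omega⟩
    rw [hc] at h2 ⊢
    rw [Nat.pred_succ] at h2
    rw [pow_succ]
    omega
  have hkj : k ≤ j + 2 := by
    by_contra hlt
    have h1 : 2 ^ (j + 3) ≤ 2 ^ k := Nat.pow_le_pow_right (by omega) (by omega)
    have h2 : 2 ^ (j + 3) = 8 * 2 ^ j := by ring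
    omega
  refine ⟨k, hkj, ?_⟩
  set Q := 2 ^ k with hQ
  have hQpos : 0 < Q := Nat.two_pow_pos k
  set V := (range p).filter fun v => v * Q < p with hV
  have hVsub : V ⊆ range p := filter_subset _ _
  set t := V.card with ht
  -- bounds for `t`
  have hVeq : V = range ((p + Q - 1) / Q) := by
    ext v
    rw [hV, mem_filter, mem_range, mem_range, Nat.lt_div_iff_mul_lt hQpos]
    constructor
    · rintro ⟨_, h⟩
      have h2 : Q * v = v * Q := Nat.mul_comm _ _
      omega
    · intro h
      have h2 : Q * v = v * Q := Nat.mul_comm _ _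
      have h3 : v ≤ v * Q := Nat.le_mul_of_pos_right v hQpos
      omega
  have ht' : t = (p + Q - 1) / Q := by rw [ht, hVeq, card_range]
  have htl : p ≤ t * Q := by
    have h1 := Nat.div_add_mod (p + Q - 1) Q
    have h2 := Nat.mod_lt (p + Q - 1) hQpos
    have h3 : t * Q = Q * ((p + Q - 1) / Q) := by rw [ht', Nat.mul_comm]
    omega
  have htu : t * Q < p + Q := by
    have h1 := Nat.div_mul_le_self (p + Q - 1) Q
    rw [← ht'] at h1
    omega
  have h4dt : p ≤ 4 * (d * t) := by
    have : t * Q ≤ t * (4 * d) := Nat.mul_le_mul_left t hk2.le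
    nlinarith
  have h3p : 4 * (d * t) ≤ 3 * p := by
    have h1 : t * (2 * d) ≤ t * Q := Nat.mul_le_mul_left t hk1
    have h2 : Q < 4 * 2 ^ j := by omega
    nlinarith
  -- counting
  set E := (range p ×ˢ range p).filter fun q =>
    (D.filter fun x => hsh p q.1 q.2 x * Q < p).card = 1 with hE
  let S : ℕ × ℕ → Finset ℕ := fun q => D.filter fun x => hsh p q.1 q.2 x ∈ V
  have hS : ∀ q, S q = D.filter fun x => hsh p q.1 q.2 x * Q < p := by
    intro q
    refine filter_congr fun x _ => ?_
    rw [hV, mem_filter, mem_range]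
    exact ⟨fun h => h.2, fun h => ⟨hsh_lt hp.pos _ _ _, h⟩⟩
  have e1 : ∑ q ∈ range p ×ˢ range p, (S q).card = d * (p * t) := by
    have h1 := sum_card_bipartiteAbove_eq_sum_card_bipartiteBelow
      (s := D) (t := range p ×ˢ range p) (fun x q => hsh p q.1 q.2 x ∈ V)
    have h2 : ∑ x ∈ D, ((range p ×ˢ range p).bipartiteAbove
        (fun x q => hsh p q.1 q.2 x ∈ V) x).card = d * (p * t) := by
      have h3 : ∀ x ∈ D, ((range p ×ˢ range p).bipartiteAbove
          (fun x q => hsh p q.1 q.2 x ∈ V) x).card = p * t := fun x _ => card_one hp.pos x hVsub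
      rw [sum_congr rfl h3, sum_const, smul_eq_mul]
    rw [← h2, h1]
    rfl
  have e2 : ∑ q ∈ range p ×ˢ range p, ((S q).card * (S q).card - (S q).card) ≤
      (d * d) * (t * t) := by
    have h1 := sum_card_bipartiteAbove_eq_sum_card_bipartiteBelow
      (s := D.offDiag) (t := range p ×ˢ range p)
      (fun z q => hsh p q.1 q.2 z.1 ∈ V ∧ hsh p q.1 q.2 z.2 ∈ V)
    have h2 : ∀ q, (S q).card * (S q).card - (S q).card = (D.offDiag.bipartiteBelow
        (fun z q => hsh p q.1 q.2 z.1 ∈ V ∧ hsh p q.1 q.2 z.2 ∈ V) q).card := by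
      intro q
      rw [← offDiag_card]
      congr 1
      ext z
      simp only [S, mem_offDiag, mem_filter, bipartiteBelow]
      tauto
    rw [sum_congr rfl fun q _ => h2 q, ← h1]
    calc _ ≤ ∑ z ∈ D.offDiag, t * t := by
          refine sum_le_sum fun z hz => ?_
          rw [mem_offDiag] at hz
          have h1 := hDM z.1 hz.1
          have h2 := hDM z.2 hz.2.1
          exact card_two hp (by omega) (by omega) hz.2.2 V
      _ ≤ (d * d) * (t * t) := by
          rw [sum_const, smul_eq_mul, offDiag_card]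
          exact Nat.mul_le_mul_right _ (Nat.sub_le _ _)
  have e3 : ∀ q, (S q).card ≤ (if (S q).card = 1 then 1 else 0) +
      ((S q).card * (S q).card - (S q).card) := by
    intro q
    split_ifs with h
    · omega
    · rcases Nat.eq_zero_or_pos (S q).card with h0 | h0
      · omega
      · have : 2 * (S q).card ≤ (S q).card * (S q).card := Nat.mul_le_mul_right _ (by omega)
        omega
  have e4 : E.card = ∑ q ∈ range p ×ˢ range p, if (S q).card = 1 then 1 else 0 := by
    rw [hE, card_filter]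
    refine sum_congr rfl fun q _ => ?_
    rw [hS]
  have hcount : (d * t) * p ≤ E.card + (d * t) * (d * t) := by
    have h1 : ∑ q ∈ range p ×ˢ range p, (S q).card ≤ ∑ q ∈ range p ×ˢ range p,
        ((if (S q).card = 1 then 1 else 0) + ((S q).card * (S q).card - (S q).card)) :=
      sum_le_sum fun q _ => e3 q
    rw [sum_add_distrib, e1, ← e4] at h1
    have h2 : d * (p * t) = (d * t) * p := by ring
    have h3 : (d * d) * (t * t) = (d * t) * (d * t) := by ring
    omega
  generalize d * t = u at h4dt h3p hcount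
  generalize E.card = w at hcount ⊢
  zify at *
  nlinarith [mul_nonneg (sub_nonneg.2 h4dt) (sub_nonneg.2 h3p)]

/-- flipping the bit of an isolated level -/
theorem half_odd {p j : ℕ} (hp : 0 < p) {D : Finset ℕ} {α β k : ℕ} (hk : k ≤ j + 2)
    (h : (D.filter fun x => hsh p α β x * 2 ^ k < p).card = 1) :
    8 * 2 ^ j ≤ 2 * ((range (8 * 2 ^ j)).filter fun g =>
      Odd (D.filter fun x => InA j p α β g x).card).card := by
  obtain ⟨x₀, hx₀⟩ := card_eq_one.1 h
  have hx₀' : x₀ ∈ D ∧ hsh p α β x₀ * 2 ^ k < p := by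
    have : x₀ ∈ D.filter fun x => hsh p α β x * 2 ^ k < p := by rw [hx₀]; simp
    exact mem_filter.1 this
  set κ := lvl j p (hsh p α β x₀) with hκ
  have hκk : k ≤ κ := le_lvl hk hx₀'.2
  have hother : ∀ x ∈ D, x ≠ x₀ → lvl j p (hsh p α β x) ≠ κ := by
    intro x hx hne he
    have h1 : ¬ hsh p α β x * 2 ^ k < p := by
      intro h1
      have : x ∈ D.filter fun x => hsh p α β x * 2 ^ k < p := mem_filter.2 ⟨hx, h1⟩
      rw [hx₀, mem_singleton] at this
      exact hne this
    have h2 := lvl_spec (j := j) (hsh_lt hp α β x)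
    rw [he] at h2
    have h3 : 2 ^ k ≤ 2 ^ κ := Nat.pow_le_pow_right (by omega) hκk
    have h4 : hsh p α β x * 2 ^ k ≤ hsh p α β x * 2 ^ κ := Nat.mul_le_mul_left _ h3
    omega
  have hκj : κ ≤ j + 2 := lvl_le _ _ _
  have h8 : 8 * 2 ^ j = 2 ^ (j + 3) := by ring
  have hlt : 2 ^ κ < 2 ^ (j + 3) := Nat.pow_lt_pow_right (by omega) (by omega)
  -- the flip
  have hflip : ∀ g, (Odd (D.filter fun x => InA j p α β (g ^^^ 2 ^ κ) x).card ↔
      ¬ Odd (D.filter fun x => InA j p α β g x).card) := by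
    intro g
    have hsplit : ∀ g', D.filter (fun x => InA j p α β g' x) =
        ((D.erase x₀).filter fun x => InA j p α β g' x) ∪
          (if InA j p α β g' x₀ then {x₀} else ∅) := by
      intro g'
      ext x
      by_cases hx : x = x₀
      · subst hx
        split_ifs with h1
        · simp [h1, hx₀'.1]
        · simp [h1]
      · split_ifs with h1 <;> simp [hx]
    have hcard : ∀ g', (D.filter (fun x => InA j p α β g' x)).card =
        ((D.erase x₀).filter fun x => InA j p α β g' x).card +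
          (if InA j p α β g' x₀ then 1 else 0) := by
      intro g'
      rw [hsplit, card_union_of_disjoint]
      · split_ifs <;> simp
      · split_ifs <;> simp
    have hsame : ((D.erase x₀).filter fun x => InA j p α β (g ^^^ 2 ^ κ) x) =
        ((D.erase x₀).filter fun x => InA j p α β g x) := by
      refine filter_congr fun x hx => ?_
      have h1 := hother x (mem_of_mem_erase hx) (ne_of_mem_erase hx)
      unfold InA
      rw [Nat.testBit_xor, Nat.testBit_two_pow]
      have : decide (κ = lvl j p (hsh p α β x)) = false := by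
        rw [decide_eq_false_iff_not]
        exact fun h => h1 h.symm
      rw [this, Bool.xor_false]
    have hx₀f : InA j p α β (g ^^^ 2 ^ κ) x₀ ↔ ¬ InA j p α β g x₀ := by
      unfold InA
      rw [Nat.testBit_xor, Nat.testBit_two_pow, ← hκ]
      simp
    rw [hcard, hcard, hsame]
    by_cases h1 : InA j p α β g x₀
    · have h2 : ¬ InA j p α β (g ^^^ 2 ^ κ) x₀ := by rw [hx₀f]; exact not_not.2 h1
      simp only [if_pos h1, if_neg h2, Nat.add_zero, Nat.odd_add_one, not_not]
    · have h2 : InA j p α β (g ^^^ 2 ^ κ) x₀ := hx₀f.2 h1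
      simp only [if_neg h1, if_pos h2, Nat.add_zero, Nat.odd_add_one]
  have hmem : ∀ g ∈ range (8 * 2 ^ j), g ^^^ 2 ^ κ ∈ range (8 * 2 ^ j) := by
    intro g hg
    rw [mem_range, h8] at hg ⊢
    exact Nat.xor_lt_two_pow hg hlt
  have hcard : ((range (8 * 2 ^ j)).filter fun g =>
      Odd (D.filter fun x => InA j p α β g x).card).card =
      ((range (8 * 2 ^ j)).filter fun g =>
        ¬ Odd (D.filter fun x => InA j p α β g x).card).card := by
    refine card_bij' (fun g _ => g ^^^ 2 ^ κ) (fun g _ => g ^^^ 2 ^ κ) ?_ ?_ ?_ ?_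
    · intro g hg
      rw [mem_filter] at hg ⊢
      refine ⟨hmem g hg.1, ?_⟩
      rw [hflip]
      exact not_not.2 hg.2
    · intro g hg
      rw [mem_filter] at hg ⊢
      exact ⟨hmem g hg.1, (hflip g).2 hg.2⟩
    · intro g _
      beta_reduce
      rw [Nat.xor_assoc, Nat.xor_self, Nat.xor_zero]
    · intro g _
      beta_reduce
      rw [Nat.xor_assoc, Nat.xor_self, Nat.xor_zero]
  have htot := card_filter_add_card_filter_not (s := range (8 * 2 ^ j))
    (fun g => Odd (D.filter fun x => InA j p α β g x).card)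
  rw [card_range] at htot
  omega

/-- the distance of the code -/
theorem distance {p j : ℕ} (hp : p.Prime) (hpj : 8 * 2 ^ j < p) {D : Finset ℕ} (hD : D.Nonempty)
    (hDM : ∀ x ∈ D, x < 2 ^ j) :
    3 * (p ^ 2 * (8 * 2 ^ j)) ≤ 32 * (((range p ×ˢ range p) ×ˢ range (8 * 2 ^ j)).filter fun q =>
      Odd (D.filter fun x => InA j p q.1.1 q.1.2 q.2 x).card).card := by
  obtain ⟨k, hk, hE⟩ := isolation hp hpj hD hDM
  set E := (range p ×ˢ range p).filter fun q =>
    (D.filter fun x => hsh p q.1 q.2 x * 2 ^ k < p).card = 1 with hEdef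
  have h1 : E.card * (8 * 2 ^ j) ≤ 2 * (((range p ×ˢ range p) ×ˢ range (8 * 2 ^ j)).filter fun q =>
      Odd (D.filter fun x => InA j p q.1.1 q.1.2 q.2 x).card).card := by
    have h2 : ∑ q ∈ E, (8 * 2 ^ j) ≤ ∑ q ∈ E, 2 * ((range (8 * 2 ^ j)).filter fun g =>
        Odd (D.filter fun x => InA j p q.1 q.2 g x).card).card := by
      refine sum_le_sum fun q hq => half_odd hp.pos hk ?_
      exact (mem_filter.1 hq).2
    rw [sum_const, smul_eq_mul, ← mul_sum] at h2
    refine h2.trans (Nat.mul_le_mul_left 2 ?_)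
    have h3 : (((range p ×ˢ range p) ×ˢ range (8 * 2 ^ j)).filter fun q =>
        Odd (D.filter fun x => InA j p q.1.1 q.1.2 q.2 x).card).card =
        ∑ q ∈ range p ×ˢ range p, ((range (8 * 2 ^ j)).filter fun g =>
          Odd (D.filter fun x => InA j p q.1 q.2 g x).card).card := by
      rw [card_filter, sum_product]
      refine sum_congr rfl fun q _ => ?_
      rw [card_filter]
    rw [h3]
    exact sum_le_sum_of_subset (filter_subset _ _)
  have h4 : 3 * (p ^ 2 * (8 * 2 ^ j)) ≤ 16 * (E.card * (8 * 2 ^ j)) := by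
    calc 3 * (p ^ 2 * (8 * 2 ^ j)) = (3 * p ^ 2) * (8 * 2 ^ j) := by ring
      _ ≤ (16 * E.card) * (8 * 2 ^ j) := Nat.mul_le_mul_right _ hE
      _ = _ := by ring
  omega

end Pool.Agent.J4H63.AS
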