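import Mathlib

/-!
# Spectra, and existential second-order definability over initial segments
-/

namespace Pool.Agent.J4H63.AS

open FirstOrder FirstOrder.Language

/-- `S` is the spectrum of a first-order sentence: the set of the sizes of its finite models. -/
def IsSpectrum (S : Set ℕ) : Prop :=
  ∃ (L : FirstOrder.Language.{0, 0}) (φ : L.Sentence), ∀ n : ℕ,
    n ∈ S ↔ (0 < n ∧ ∃ (M : Type) (_ : L.Structure M), Nat.card M = n ∧ φ.Realize M)

/-- First-order definability, uniformly over the universes `{0, …, n - 1}` with the order and with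
relation variables `R s`, for `s : σ`, which are predicates of finite sequences. -/
inductive Def {σ : Type} : {ι : Type} → (ℕ → (σ → List ℕ → Prop) → (ι → ℕ) → Prop) → Prop
  | eq {ι : Type} (i j : ι) : Def (fun _ _ v => v i = v j)
  | lt {ι : Type} (i j : ι) : Def (fun _ _ v => v i < v j)
  | rel {ι : Type} (s : σ) (l : List ι) : Def (fun _ R v => R s (l.map v))
  | not {ι : Type} {P : ℕ → (σ → List ℕ → Prop) → (ι → ℕ) → Prop} :
      Def P → Def (fun n R v => ¬ P n R v)
  | and {ι : Type} {P Q : ℕ → (σ → List ℕ → Prop) → (ι → ℕ) → Prop} :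
      Def P → Def Q → Def (fun n R v => P n R v ∧ Q n R v)
  | ex {ι : Type} {P : ℕ → (σ → List ℕ → Prop) → (Option ι → ℕ) → Prop} :
      Def P → Def (fun n R v => ∃ x, x < n ∧ P n R (fun o => o.elim x v))

namespace Def

variable {σ ι κ : Type} {P Q : ℕ → (σ → List ℕ → Prop) → (ι → ℕ) → Prop}

theorem congr (h : Def P) (hPQ : ∀ n R v, Q n R v ↔ P n R v) : Def Q := by
  have : Q = P := by
    funext n R v
    exact propext (hPQ n R v)
  rw [this]
  exact h

theorem or (hP : Def P) (hQ : Def Q) : Def (fun n R v => P n R v ∨ Q n R v) :=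
  (Def.not (Def.and (Def.not hP) (Def.not hQ))).congr fun n R v => by tauto

theorem imp (hP : Def P) (hQ : Def Q) : Def (fun n R v => P n R v → Q n R v) :=
  (Def.not (Def.and hP (Def.not hQ))).congr fun n R v => by tauto

theorem iff (hP : Def P) (hQ : Def Q) : Def (fun n R v => (P n R v ↔ Q n R v)) :=
  (Def.and (hP.imp hQ) (hQ.imp hP)).congr fun n R v => by tauto

theorem ex' {P : ℕ → (σ → List ℕ → Prop) → (ι → ℕ) → ℕ → Prop}
    (hP : Def (fun n R (w : Option ι → ℕ) => P n R (fun i => w (some i)) (w none))) :
    Def (fun n R v => ∃ x < n, P n R v x) :=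
  (Def.ex hP).congr fun _ _ _ => Iff.rfl

theorem all {P : ℕ → (σ → List ℕ → Prop) → (ι → ℕ) → ℕ → Prop}
    (hP : Def (fun n R (w : Option ι → ℕ) => P n R (fun i => w (some i)) (w none))) :
    Def (fun n R v => ∀ x < n, P n R v x) :=
  (Def.not (ex' (P := fun n R v x => ¬ P n R v x) (Def.not hP))).congr fun n R v => by
    push Not
    rfl

theorem const (p : Prop) : Def (fun (_ : ℕ) (_ : σ → List ℕ → Prop) (_ : ι → ℕ) => p) := by
  have h : Def (fun (n : ℕ) (_ : σ → List ℕ → Prop) (_ : ι → ℕ) => ∀ x < n, x = x) :=
    all (P := fun _ _ _ x => x = x) (Def.eq none none)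
  by_cases hp : p
  · exact h.congr fun n R v => by simp [hp]
  · exact (Def.not h).congr fun n R v => by simp [hp]

theorem allFin (m : ℕ) {P : Fin m → ℕ → (σ → List ℕ → Prop) → (ι → ℕ) → Prop}
    (hP : ∀ i, Def (P i)) : Def (fun n R v => ∀ i, P i n R v) := by
  induction m with
  | zero => exact (const True).congr fun n R v => by simp
  | succ m ih => exact (Def.and (hP 0) (ih fun i => hP i.succ)).congr fun n R v => Fin.forall_fin_succ

/-- renaming of variables -/
theorem subst (hP : Def P) : ∀ {κ : Type} (f : ι → κ), Def (fun n R (v : κ → ℕ) =>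
    P n R (fun i => v (f i))) := by
  induction hP with
  | eq i j => exact fun f => Def.eq (f i) (f j)
  | lt i j => exact fun f => Def.lt (f i) (f j)
  | rel s l =>
    intro κ f
    refine (Def.rel s (l.map f)).congr fun n R v => ?_
    rw [List.map_map]
    rfl
  | not _ ih => exact fun f => Def.not (ih f)
  | and _ _ ih1 ih2 => exact fun f => Def.and (ih1 f) (ih2 f)
  | @ex ι P _ ih =>
    intro κ f
    refine (ex' (P := fun n R (v : κ → ℕ) x => P n R (fun o => o.elim x (fun i => v (f i))))
      ((ih (fun o => o.map f)).congr fun n R w => ?_))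
    have : (fun o : Option ι => o.elim (w none) fun i => w (some (f i))) =
        fun o => w (o.map f) := by
      funext o
      cases o <;> rfl
    rw [this]

/-- bounded quantifiers -/
theorem exLt {P : ℕ → (σ → List ℕ → Prop) → (ι → ℕ) → ℕ → Prop} (i : ι)
    (hP : Def (fun n R (w : Option ι → ℕ) => P n R (fun i => w (some i)) (w none))) :
    Def (fun n R v => ∃ x < n, x < v i ∧ P n R v x) :=
  ex' (P := fun n R v x => x < v i ∧ P n R v x) (Def.and (Def.lt none (some i)) hP)

end Def

/-! ### Translation into first-order sentences -/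

/-- the language of the relation variables and of the order -/
def LL (σ : Type) : FirstOrder.Language.{0, 0} := ⟨fun _ => Empty, fun k => σ ⊕ PLift (k = 2)⟩

/-- the structure on `{0, …, n - 1}` -/
@[reducible]
def St (σ : Type) (n : ℕ) (R : σ → List ℕ → Prop) : (LL σ).Structure (Fin n) where
  funMap := fun f => f.elim
  RelMap := fun {k} r x => match r with
    | .inl s => R s (List.ofFn fun i => (x i).val)
    | .inr h => x (Fin.cast h.down.symm 0) < x (Fin.cast h.down.symm 1)

/-- the symbol for the order -/
def ltSym (σ : Type) : (LL σ).Relations 2 := Sum.inr ⟨rfl⟩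

/-- the symbol for a relation variable -/
def relSym {σ : Type} (s : σ) (k : ℕ) : (LL σ).Relations k := Sum.inl s

theorem exists_formula {σ ι : Type} {P : ℕ → (σ → List ℕ → Prop) → (ι → ℕ) → Prop} (hP : Def P) :
    ∀ (k : ℕ) (f : ι → Fin k), ∃ ψ : (LL σ).BoundedFormula Empty k,
      ∀ (n : ℕ) (R : σ → List ℕ → Prop) (v : Fin k → Fin n),
        (letI := St σ n R; ψ.Realize default v) ↔ P n R (fun i => (v (f i)).val) := by
  induction hP with
  | eq i j =>
    intro k f
    refine ⟨Term.bdEqual (Term.var (Sum.inr (f i))) (Term.var (Sum.inr (f j))), fun n R v => ?_⟩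
    letI := St σ n R
    simp only [BoundedFormula.realize_bdEqual, Term.realize_var, Sum.elim_inr]
    exact Fin.ext_iff
  | lt i j =>
    intro k f
    refine ⟨Relations.boundedFormula₂ (ltSym σ) (Term.var (Sum.inr (f i)))
      (Term.var (Sum.inr (f j))), fun n R v => ?_⟩
    letI := St σ n R
    rw [BoundedFormula.realize_rel₂]
    exact Iff.rfl
  | rel s l =>
    intro k f
    refine ⟨Relations.boundedFormula (relSym s l.length)
      (fun j => Term.var (Sum.inr (f (l.get j)))), fun n R v => ?_⟩
    letI := St σ n R
    rw [BoundedFormula.realize_rel]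
    have : (List.ofFn fun j : Fin l.length => (v (f (l.get j))).val) =
        l.map (fun i => (v (f i)).val) := by
      apply List.ext_getElem
      · simp
      · intro j h1 h2
        simp
    change _ ↔ R s (l.map (fun i => (v (f i)).val))
    rw [← this]
    exact Iff.rfl
  | not _ ih =>
    intro k f
    obtain ⟨ψ, hψ⟩ := ih k f
    refine ⟨ψ.not, fun n R v => ?_⟩
    letI := St σ n R
    rw [BoundedFormula.realize_not]
    exact not_congr (hψ n R v)
  | and _ _ ih1 ih2 =>
    intro k f
    obtain ⟨ψ, hψ⟩ := ih1 k f
    obtain ⟨χ, hχ⟩ := ih2 k f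
    refine ⟨ψ ⊓ χ, fun n R v => ?_⟩
    letI := St σ n R
    rw [BoundedFormula.realize_inf]
    exact and_congr (hψ n R v) (hχ n R v)
  | @ex ι P _ ih =>
    intro k f
    obtain ⟨ψ, hψ⟩ := ih (k + 1) (fun o => o.elim (Fin.last k) (fun i => (f i).castSucc))
    refine ⟨ψ.ex, fun n R v => ?_⟩
    letI := St σ n R
    rw [BoundedFormula.realize_ex]
    have key : ∀ a : Fin n, ψ.Realize default (Fin.snoc v a : Fin (k + 1) → Fin n) ↔
        P n R (fun o => o.elim a.val (fun i => (v (f i)).val)) := by
      intro a
      refine (hψ n R _).trans ?_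
      have : (fun o : Option ι => ((Fin.snoc v a : Fin (k + 1) → Fin n) (o.elim (Fin.last k)
          (fun i => (f i).castSucc))).val) = fun o => o.elim a.val (fun i => (v (f i)).val) := by
        funext o
        cases o with
        | none => simp
        | some i => simp
      rw [this]
    constructor
    · rintro ⟨a, ha⟩
      exact ⟨a.val, a.isLt, (key a).1 ha⟩
    · rintro ⟨x, hx, h⟩
      exact ⟨⟨x, hx⟩, (key ⟨x, hx⟩).2 h⟩

/-- the order is a strict linear order -/
def linSentence (σ : Type) : (LL σ).Sentence :=
  (∀' ∼((ltSym σ).boundedFormula₂ (&0) (&0))) ⊓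
  ((∀' ∀' ∀' (((ltSym σ).boundedFormula₂ (&0) (&1)) ⟹ (((ltSym σ).boundedFormula₂ (&1) (&2)) ⟹
    ((ltSym σ).boundedFormula₂ (&0) (&2))))) ⊓
  (∀' ∀' (((ltSym σ).boundedFormula₂ (&0) (&1)) ⊔ ((Term.bdEqual (&0) (&1)) ⊔
    ((ltSym σ).boundedFormula₂ (&1) (&0))))))

theorem realize_lin {σ M : Type} [(LL σ).Structure M] : M ⊨ linSentence σ ↔
    (∀ x : M, ¬ Language.Structure.RelMap (ltSym σ) ![x, x]) ∧
    (∀ x y z : M, Language.Structure.RelMap (ltSym σ) ![x, y] →
      Language.Structure.RelMap (ltSym σ) ![y, z] →
      Language.Structure.RelMap (ltSym σ) ![x, z]) ∧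
    ∀ x y : M, Language.Structure.RelMap (ltSym σ) ![x, y] ∨ x = y ∨
      Language.Structure.RelMap (ltSym σ) ![y, x] := by
  unfold linSentence Sentence.Realize Formula.Realize
  simp only [BoundedFormula.realize_inf, BoundedFormula.realize_all, BoundedFormula.realize_not,
    BoundedFormula.realize_rel₂, BoundedFormula.realize_imp, BoundedFormula.realize_sup,
    BoundedFormula.realize_bdEqual, Term.realize_var, Sum.elim_inr]
  rfl

open Classical in
/-- Existential second-order definable sets are spectra. -/
theorem isSpectrum_of_def {σ : Type} {P : ℕ → (σ → List ℕ → Prop) → (Empty → ℕ) → Prop}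
    (hP : Def P) {S : Set ℕ} (hS : ∀ n, n ∈ S ↔ (0 < n ∧ ∃ R, P n R Empty.elim)) :
    IsSpectrum S := by
  obtain ⟨ψ, hψ⟩ := exists_formula hP 0 Empty.elim
  have hemp : ∀ (n : ℕ) (v : Fin 0 → Fin n), (fun i : Empty => (v (Empty.elim i)).val) =
      Empty.elim := fun n v => funext fun i => i.elim
  refine ⟨LL σ, linSentence σ ⊓ ψ, fun n => ?_⟩
  rw [hS]
  refine and_congr_right fun hn => ?_
  constructor
  · rintro ⟨R, hR⟩
    letI := St σ n R
    refine ⟨Fin n, St σ n R, by simp, ?_⟩
    unfold Sentence.Realize Formula.Realize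
    rw [BoundedFormula.realize_inf]
    refine ⟨?_, ?_⟩
    · have hlin : (Fin n) ⊨ linSentence σ := by
        refine (realize_lin (M := Fin n)).2 ⟨fun x => ?_, fun x y z hxy hyz => ?_, fun x y => ?_⟩
        · exact lt_irrefl x
        · exact lt_trans (a := x) (b := y) (c := z) hxy hyz
        · exact lt_trichotomy x y
      exact hlin
    · refine (hψ n R default).2 ?_
      rw [hemp]
      exact hR
  · rintro ⟨M, strM, hcard, hM⟩
    unfold Sentence.Realize Formula.Realize at hM
    rw [BoundedFormula.realize_inf] at hM
    obtain ⟨h1, h2⟩ := hM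
    obtain ⟨ha, hb, hc⟩ := (realize_lin (σ := σ) (M := M)).1 h1
    haveI : Finite M := Nat.finite_of_card_ne_zero (by omega)
    haveI : Fintype M := Fintype.ofFinite M
    let r : M → M → Prop := fun x y => Language.Structure.RelMap (ltSym σ) ![x, y]
    haveI hr : IsStrictTotalOrder M r :=
      { irrefl := ha
        trans := hb
        trichotomous := fun x y h1 h2 => by
          rcases hc x y with h | h | h
          · exact absurd h h1
          · exact h
          · exact absurd h h2 }
    letI : LinearOrder M := linearOrderOfSTO r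
    have hcard' : Fintype.card M = n := by
      rw [← Nat.card_eq_fintype_card]
      exact hcard
    let e : M ≃o Fin n := (Fintype.orderIsoFinOfCardEq M hcard').symm
    let R : σ → List ℕ → Prop := fun s l => ∃ (k : ℕ) (x : Fin k → M),
      l = List.ofFn (fun j => (e (x j)).val) ∧ Language.Structure.RelMap (relSym s k) x
    refine ⟨R, ?_⟩
    letI stR := St σ n R
    let E : M ≃[LL σ] Fin n :=
      { toEquiv := e.toEquiv
        map_fun' := fun f => f.elim
        map_rel' := by
          intro k rr x
          rcases rr with s | h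
          · constructor
            · rintro ⟨k', x', he, hx'⟩
              obtain rfl : k = k' := by
                have := congrArg List.length he
                simpa using this
              have h4 := List.ofFn_injective he
              have : x' = x := by
                funext j
                have h5 := congrFun h4 j
                exact (e.injective (Fin.ext h5)).symm
              rw [this] at hx'
              exact hx'
            · intro hx
              exact ⟨k, x, rfl, hx⟩
          · obtain ⟨rfl⟩ := h
            have hx : x = ![x 0, x 1] := by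
              funext i
              fin_cases i <;> rfl
            constructor
            · intro h
              have h' : e (x 0) < e (x 1) := h
              rw [hx]
              exact (e.lt_iff_lt.1 h' : r (x 0) (x 1))
            · intro h
              rw [hx] at h
              have h' : x 0 < x 1 := h
              exact (e.lt_iff_lt.2 h' : e (x 0) < e (x 1)) }
    have h2' : M ⊨ (ψ : (LL σ).Sentence) := h2
    have h4 : (Fin n) ⊨ (ψ : (LL σ).Sentence) := (StrongHomClass.realize_sentence E ψ).1 h2'
    have h3 := (hψ n R default).1 h4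
    rw [hemp] at h3
    exact h3

end Pool.Agent.J4H63.AS
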