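import Pool.Agent.J4H63.AS.Blow

/-!
# Disjoint doubling
-/

namespace Pool.Agent.J4H63.AS

open FirstOrder FirstOrder.Language

section

variable {L : FirstOrder.Language.{0, 0}} [L.IsRelational] {M : Type} [L.Structure M]

/-- `k` disjoint copies -/
def blowUniv (k : ℕ) (M : Type) : Blow k (Set.univ : Set M) ≃ Fin k × M where
  toFun := fun s => Sum.elim (fun x => absurd (Set.mem_univ x.1) x.2) (fun p => (p.1, p.2.1)) s
  invFun := fun p => Sum.inr (p.1, ⟨p.2, Set.mem_univ _⟩)
  left_inv := by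
    rintro (⟨x, hx⟩ | ⟨i, x, hx⟩)
    · exact absurd (Set.mem_univ x) hx
    · rfl
  right_inv := fun p => rfl

theorem cp_univ (k : ℕ) (i : Fin k) (x : M) (t : Blow k (Set.univ : Set M)) :
    t = cp Set.univ i x ↔ blowUniv k M t = (i, x) := by
  rw [cp_mem i (Set.mem_univ x), ← Equiv.eq_symm_apply]
  rfl

theorem relMap_univ (k : ℕ) {r : ℕ} (R : L.Relations r) (t : Fin r → Blow k (Set.univ : Set M)) :
    Structure.RelMap R t ↔ ∃ (i : Fin k) (y : Fin r → M), (∀ j, blowUniv k M (t j) = (i, y j)) ∧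
      Structure.RelMap R y := by
  constructor
  · rintro ⟨i, y, h1, h2⟩
    exact ⟨i, y, fun j => (cp_univ k i _ _).1 (h1 j), h2⟩
  · rintro ⟨i, y, h1, h2⟩
    exact ⟨i, y, fun j => (cp_univ k i _ _).2 (h1 j), h2⟩

/-- doubling `k` copies gives `2 k` copies -/
def blowBlow (k : ℕ) (M : Type) : Blow 2 (Set.univ : Set (Blow k (Set.univ : Set M))) ≃
    Blow (2 * k) (Set.univ : Set M) :=
  (blowUniv 2 _).trans (((Equiv.refl (Fin 2)).prodCongr (blowUniv k M)).trans
    ((Equiv.prodAssoc (Fin 2) (Fin k) M).symm.trans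
      ((finProdFinEquiv.prodCongr (Equiv.refl M)).trans (blowUniv (2 * k) M).symm)))

theorem blowBlow_apply (k : ℕ) (t : Blow 2 (Set.univ : Set (Blow k (Set.univ : Set M))))
    (p : Fin 2 × Blow k (Set.univ : Set M)) (q : Fin k × M) (h1 : blowUniv 2 _ t = p)
    (h2 : blowUniv k M p.2 = q) :
    blowUniv (2 * k) M (blowBlow k M t) = (finProdFinEquiv (p.1, q.1), q.2) := by
  subst h1
  subst h2
  rfl

theorem blowBlow_rel (k : ℕ) {r : ℕ} (R : L.Relations r)
    (t : Fin r → Blow 2 (Set.univ : Set (Blow k (Set.univ : Set M)))) :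
    Structure.RelMap R (fun j => blowBlow k M (t j)) ↔ Structure.RelMap R t := by
  rw [relMap_univ, relMap_univ]
  constructor
  · rintro ⟨i, y, h1, h2⟩
    have h3 : ∀ j, (blowUniv 2 _ (t j)).1 = (finProdFinEquiv.symm i).1 ∧
        blowUniv k M (blowUniv 2 _ (t j)).2 = ((finProdFinEquiv.symm i).2, y j) := by
      intro j
      have h4 := blowBlow_apply k (t j) _ _ rfl rfl
      rw [h1 j] at h4
      have h5 := congrArg Prod.fst h4
      have h6 := congrArg Prod.snd h4
      simp only at h5 h6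
      refine ⟨?_, Prod.ext ?_ ?_⟩
      · rw [h5, Equiv.symm_apply_apply]
      · rw [h5, Equiv.symm_apply_apply]
      · exact h6.symm
    refine ⟨(finProdFinEquiv.symm i).1, fun j => (blowUniv 2 _ (t j)).2, fun j => ?_, ?_⟩
    · exact Prod.ext (h3 j).1 rfl
    · rw [relMap_univ]
      exact ⟨(finProdFinEquiv.symm i).2, y, fun j => (h3 j).2, h2⟩
  · rintro ⟨i, y, h1, h2⟩
    rw [relMap_univ] at h2
    obtain ⟨i', y', h3, h4⟩ := h2
    exact ⟨finProdFinEquiv (i, i'), y', fun j => blowBlow_apply k (t j) _ _ (h1 j) (h3 j), h4⟩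

theorem one_copy (φ : L.Sentence) : Blow 1 (Set.univ : Set M) ⊨ φ ↔ M ⊨ φ := by
  let E : Blow 1 (Set.univ : Set M) ≃[L] M :=
    { toEquiv := (blowUniv 1 M).trans (Equiv.uniqueProd M (Fin 1))
      map_fun' := fun f => isEmptyElim f
      map_rel' := fun {r} R t => by
        rw [relMap_univ]
        constructor
        · intro h
          exact ⟨0, fun j => (blowUniv 1 M (t j)).2, fun j => Prod.ext (Subsingleton.elim _ _) rfl,
            h⟩
        · rintro ⟨i, y, h1, h2⟩
          have : (fun j => (blowUniv 1 M (t j)).2) = y := by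
            funext j
            rw [h1 j]
          change Structure.RelMap R (fun j => (blowUniv 1 M (t j)).2)
          rw [this]
          exact h2 }
  exact StrongHomClass.realize_sentence E φ

theorem pow_copies (φ : L.Sentence)
    (h : ∀ (M : Type) [L.Structure M] [Finite M], Nonempty M → M ⊨ φ →
      Blow 2 (Set.univ : Set M) ⊨ φ) [Finite M] [Nonempty M] (hM : M ⊨ φ) :
    ∀ k, Blow (2 ^ k) (Set.univ : Set M) ⊨ φ := by
  intro k
  induction k with
  | zero => exact (one_copy φ).2 hM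
  | succ k ih =>
    haveI : Finite (Blow (2 ^ k) (Set.univ : Set M)) := Finite.of_equiv _ (blowUniv _ M).symm
    haveI : Nonempty (Fin (2 ^ k)) := ⟨⟨0, Nat.two_pow_pos k⟩⟩
    haveI : Nonempty (Blow (2 ^ k) (Set.univ : Set M)) :=
      (blowUniv _ M).nonempty
    have h1 := h _ inferInstance ih
    have E : Blow 2 (Set.univ : Set (Blow (2 ^ k) (Set.univ : Set M))) ≃[L]
        Blow (2 * 2 ^ k) (Set.univ : Set M) :=
      { toEquiv := blowBlow (2 ^ k) M
        map_fun' := fun f => isEmptyElim f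
        map_rel' := fun {r} R t => blowBlow_rel _ R t }
    have h2 := (StrongHomClass.realize_sentence E φ).1 h1
    rw [pow_succ, mul_comm]
    exact h2

theorem interface_univ : interface L (Set.univ : Set M) = ∅ := by
  rw [Set.eq_empty_iff_forall_notMem]
  rintro x ⟨hx, _⟩
  exact hx (Set.mem_univ x)

end

/-- Sentences preserved under disjoint doubling. -/
theorem multipliable_of_double {L : FirstOrder.Language.{0, 0}} [L.IsRelational] (φ : L.Sentence)
    (h : ∀ (M : Type) [L.Structure M] [Finite M], Nonempty M → M ⊨ φ →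
      Blow 2 (Set.univ : Set M) ⊨ φ) : Multipliable φ 0 1 := by
  intro M _ _ hM hφ
  haveI : Nonempty M := (Nat.card_pos_iff.1 (by omega)).1
  refine ⟨Set.univ, Set.univ_nonempty, ?_, fun k₀ => ⟨2 ^ k₀, Nat.lt_two_pow_self.le,
    pow_copies φ h hφ k₀⟩⟩
  rw [interface_univ]
  simp

end Pool.Agent.J4H63.AS
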