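import Pool.Agent.J4H63.AS.SB
import Pool.Agent.J4H63.AS.Def

/-!
# Spectra are defined by existential second-order formulas over bounded formulas
-/

namespace Pool.Agent.J4H63.AS

open MvPolynomial GZ FirstOrder FirstOrder.Language

/-- set variables for the symbols of a language -/
def Sym (L : FirstOrder.Language.{0, 0}) : Type := (Σ k, L.Relations k) ⊕ (Σ k, L.Functions k)

section

variable {L : FirstOrder.Language.{0, 0}}

open Classical in
/-- the value of a function symbol -/
noncomputable def fval (A : Sym L → ℕ → Prop) (n : ℕ) {k : ℕ} (f : L.Functions k)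
    (x : Fin k → ℕ) : ℕ :=
  if h : ∃ y, y < n ∧ A (Sum.inr ⟨k, f⟩) (enc (Matrix.vecCons y x)) then Nat.find h else 0

/-- the value of a term -/
noncomputable def tval (A : Sym L → ℕ → Prop) (n : ℕ) {m : ℕ} (xs : Fin m → ℕ) :
    L.Term (Empty ⊕ Fin m) → ℕ
  | .var (Sum.inl e) => e.elim
  | .var (Sum.inr i) => xs i
  | .func f ts => fval A n f (fun i => tval A n xs (ts i))

/-- the truth of a formula -/
def sat (A : Sym L → ℕ → Prop) (n : ℕ) : {m : ℕ} → L.BoundedFormula Empty m → (Fin m → ℕ) → Prop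
  | _, .falsum, _ => False
  | _, .equal t₁ t₂, xs => tval A n xs t₁ = tval A n xs t₂
  | _, .rel R ts, xs => A (Sum.inl ⟨_, R⟩) (enc (fun i => tval A n xs (ts i)))
  | _, .imp f g, xs => sat A n f xs → sat A n g xs
  | _, .all f, xs => ∀ x < n, sat A n f (Fin.snoc xs x)

theorem fval_eq (A : Sym L → ℕ → Prop) (n : ℕ) {k : ℕ} (f : L.Functions k) (x : Fin k → ℕ) (y : ℕ) :
    fval A n f x = y ↔
      (y < n ∧ A (Sum.inr ⟨k, f⟩) (enc (Matrix.vecCons y x)) ∧
        ∀ y' < y, ¬ A (Sum.inr ⟨k, f⟩) (enc (Matrix.vecCons y' x))) ∨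
      (y = 0 ∧ ∀ y' < n, ¬ A (Sum.inr ⟨k, f⟩) (enc (Matrix.vecCons y' x))) := by
  classical
  unfold fval
  by_cases h : ∃ y, y < n ∧ A (Sum.inr ⟨k, f⟩) (enc (Matrix.vecCons y x))
  · rw [dif_pos h]
    constructor
    · rintro rfl
      left
      have h1 := Nat.find_spec h
      exact ⟨h1.1, h1.2, fun y' hy' h2 => Nat.find_min h hy' ⟨by omega, h2⟩⟩
    · rintro (⟨h1, h2, h3⟩ | ⟨_, h2⟩)
      · rw [Nat.find_eq_iff]
        exact ⟨⟨h1, h2⟩, fun m hm h4 => h3 m hm h4.2⟩
      · obtain ⟨y', h3, h4⟩ := h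
        exact absurd h4 (h2 y' h3)
  · rw [dif_neg h]
    push Not at h
    constructor
    · rintro rfl
      exact Or.inr ⟨rfl, h⟩
    · rintro (⟨h1, h2, _⟩ | ⟨h1, _⟩)
      · exact absurd h2 (h y h1)
      · exact h1.symm

theorem fval_le (A : Sym L → ℕ → Prop) (n : ℕ) {k : ℕ} (f : L.Functions k) (x : Fin k → ℕ) :
    fval A n f x ≤ n := by
  rcases (fval_eq A n f x _).1 rfl with ⟨h, _⟩ | ⟨h, _⟩
  · exact h.le
  · omega

theorem fval_lt (A : Sym L → ℕ → Prop) {n : ℕ} (hn : 0 < n) {k : ℕ} (f : L.Functions k)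
    (x : Fin k → ℕ) : fval A n f x < n := by
  rcases (fval_eq A n f x _).1 rfl with ⟨h, _⟩ | ⟨h, _⟩
  · exact h
  · omega

theorem tval_le (A : Sym L → ℕ → Prop) (n : ℕ) {m : ℕ} (xs : Fin m → ℕ)
    (t : L.Term (Empty ⊕ Fin m)) : tval A n xs t ≤ n + ∑ i, xs i := by
  cases t with
  | var x =>
    rcases x with e | i
    · exact e.elim
    · have : xs i ≤ ∑ i, xs i := Finset.single_le_sum (f := xs) (fun _ _ => Nat.zero_le _)
        (Finset.mem_univ i)
      exact this.trans (Nat.le_add_left _ _)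
  | func f ts =>
    exact (fval_le A n f _).trans (Nat.le_add_right _ _)

theorem sb_fval {ι : Type} {k : ℕ} (f : L.Functions k) {N y : (ι → ℕ) → ℕ}
    {z : Fin k → (ι → ℕ) → ℕ} (hN : PF N) (hy : PF y) (hz : ∀ i, PF (z i)) :
    SB (fun A v => fval A (N v) f (fun i => z i v) = y v) := by
  have hc : ∀ {κ : Type} {y : (κ → ℕ) → ℕ} {z : Fin k → (κ → ℕ) → ℕ}, PF y → (∀ i, PF (z i)) →
      PF (fun v => enc (Matrix.vecCons (y v) (fun i => z i v))) := fun hy hz =>
    PF.pr hy (PF.enc hz)
  refine ((((SB.ltf hy hN).and ((SB.memf (σ := Sym L) (Sum.inr ⟨k, f⟩) (hc hy hz)).and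
    (SB.all_lt (P := fun (A : Sym L → ℕ → Prop) v y' => ¬ A (Sum.inr ⟨k, f⟩) (enc (Matrix.vecCons y'
      (fun i => z i v)))) hy
      (SB.not (SB.memf (σ := Sym L) (Sum.inr ⟨k, f⟩)
        (hc (PF.proj none) (fun i => PF.upp (hz i)))))))).or
    ((SB.eqf hy (PF.const 0)).and (SB.all_lt (P := fun (A : Sym L → ℕ → Prop) v y' => ¬ A (Sum.inr ⟨k, f⟩)
      (enc (Matrix.vecCons y' (fun i => z i v)))) hN
      (SB.not (SB.memf (σ := Sym L) (Sum.inr ⟨k, f⟩)
        (hc (PF.proj none) (fun i => PF.upp (hz i))))))))).congr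
    fun A v => fval_eq A (N v) f _ _

theorem sb_tval {m : ℕ} (t : L.Term (Empty ⊕ Fin m)) : ∀ {ι : Type} {N y : (ι → ℕ) → ℕ}
    {u : Fin m → (ι → ℕ) → ℕ}, PF N → PF y → (∀ i, PF (u i)) →
    SB (fun A v => tval A (N v) (fun i => u i v) t = y v) := by
  induction t with
  | var x =>
    intro ι N y u hN hy hu
    rcases x with e | i
    · exact e.elim
    · exact SB.eqf (hu i) hy
  | @func k f ts ih =>
    intro ι N y u hN hy hu
    have hb : PF (fun v => N v + ∑ i, u i v) := hN.add (PF.sum Finset.univ hu)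
    refine (SB.exVec k (P := fun A v z => (∀ i, tval A (N v) (fun i => u i v) (ts i) = z i) ∧
      fval A (N v) f z = y v) hb ?_).congr fun A v => ?_
    · have hl : ∀ {g : (ι → ℕ) → ℕ}, PF g →
          PF (fun w : ι ⊕ Fin k → ℕ => g (fun i => w (Sum.inl i))) :=
        fun hg => hg.comp fun i => PF.proj (Sum.inl i)
      refine SB.and (SB.allFin k fun i => ?_) ?_
      · exact ih i (hl hN) (PF.proj (Sum.inr i)) (fun i => hl (hu i))
      · exact sb_fval f (hl hN) (hl hy) (fun i => PF.proj (Sum.inr i))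
    · constructor
      · intro h
        exact ⟨fun i => tval A (N v) (fun i => u i v) (ts i), fun i => tval_le _ _ _ _,
          fun i => rfl, h⟩
      · rintro ⟨z, _, h1, h2⟩
        rw [← h2]
        change fval A (N v) f (fun i => tval A (N v) (fun i => u i v) (ts i)) = _
        rw [funext h1]

theorem sb_sat {m : ℕ} (φ : L.BoundedFormula Empty m) : ∀ {ι : Type} {N : (ι → ℕ) → ℕ}
    {u : Fin m → (ι → ℕ) → ℕ}, PF N → (∀ i, PF (u i)) →
    SB (fun A v => sat A (N v) φ (fun i => u i v)) := by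
  induction φ with
  | falsum => exact fun _ _ => SB.const False
  | equal t₁ t₂ =>
    intro ι N u hN hu
    have hb : PF (fun v => N v + ∑ i, u i v) := hN.add (PF.sum Finset.univ hu)
    refine (SB.ex_le (P := fun A v y => tval A (N v) (fun i => u i v) t₁ = y ∧
      tval A (N v) (fun i => u i v) t₂ = y) hb
      ((sb_tval t₁ (PF.upp hN) (PF.proj none) (fun i => PF.upp (hu i))).and
        (sb_tval t₂ (PF.upp hN) (PF.proj none) (fun i => PF.upp (hu i))))).congr fun A v => ?_
    constructor
    · intro h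
      exact ⟨_, tval_le _ _ _ _, rfl, h.symm⟩
    · rintro ⟨y, _, h1, h2⟩
      exact h1.trans h2.symm
  | @rel m k R ts =>
    intro ι N u hN hu
    have hb : PF (fun v => N v + ∑ i, u i v) := hN.add (PF.sum Finset.univ hu)
    refine (SB.exVec k (P := fun A v z => (∀ i, tval A (N v) (fun i => u i v) (ts i) = z i) ∧
      A (Sum.inl ⟨k, R⟩) (enc z)) hb ?_).congr fun A v => ?_
    · have hl : ∀ {g : (ι → ℕ) → ℕ}, PF g →
          PF (fun w : ι ⊕ Fin k → ℕ => g (fun i => w (Sum.inl i))) :=
        fun hg => hg.comp fun i => PF.proj (Sum.inl i)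
      refine SB.and (SB.allFin k fun i => ?_) ?_
      · exact sb_tval (ts i) (hl hN) (PF.proj (Sum.inr i)) (fun i => hl (hu i))
      · exact SB.memf _ (PF.enc fun i => PF.proj (Sum.inr i))
    · constructor
      · intro h
        exact ⟨fun i => tval A (N v) (fun i => u i v) (ts i), fun i => tval_le _ _ _ _,
          fun i => rfl, h⟩
      · rintro ⟨z, _, h1, h2⟩
        change A (Sum.inl ⟨k, R⟩) (enc fun i => tval A (N v) (fun i => u i v) (ts i))
        rw [funext h1]
        exact h2
  | imp f g ih1 ih2 => exact fun hN hu => SB.imp (ih1 hN hu) (ih2 hN hu)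
  | @all m f ih =>
    intro ι N u hN hu
    refine SB.all_lt (P := fun A v x => sat A (N v) f (Fin.snoc (fun i => u i v) x)) hN ?_
    refine (ih (N := fun w : Option ι → ℕ => N (fun i => w (some i)))
      (u := fun j w => (Fin.snoc (fun i => u i (fun i => w (some i))) (w none) :
        Fin (m + 1) → ℕ) j) (PF.upp hN) ?_).congr fun A w => Iff.rfl
    intro j
    refine Fin.lastCases ?_ (fun i => ?_) j
    · simp only [Fin.snoc_last]
      exact PF.proj none
    · simp only [Fin.snoc_castSucc]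
      exact PF.upp (hu i)

/-- the structure on `{0, …, n - 1}` -/
@[reducible]
noncomputable def symStr (A : Sym L → ℕ → Prop) {n : ℕ} (hn : 0 < n) : L.Structure (Fin n) where
  funMap := fun f x => ⟨fval A n f (fun i => (x i).val), fval_lt A hn f _⟩
  RelMap := fun {k} R x => A (Sum.inl ⟨k, R⟩) (enc fun i => (x i).val)

theorem term_symStr (A : Sym L → ℕ → Prop) {n : ℕ} (hn : 0 < n) {m : ℕ} (xs : Fin m → Fin n)
    (t : L.Term (Empty ⊕ Fin m)) :
    (letI := symStr A hn; (t.realize (Sum.elim default xs)).val) =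
      tval A n (fun i => (xs i).val) t := by
  induction t with
  | var x =>
    rcases x with e | i
    · exact e.elim
    · rfl
  | func f ts ih =>
    change fval A n f (fun i => (letI := symStr A hn; ((ts i).realize (Sum.elim default xs)).val)) =
      fval A n f (fun i => tval A n (fun i => (xs i).val) (ts i))
    congr 1
    funext i
    exact ih i

theorem realize_symStr (A : Sym L → ℕ → Prop) {n : ℕ} (hn : 0 < n) {m : ℕ}
    (φ : L.BoundedFormula Empty m) : ∀ (xs : Fin m → Fin n),
    (letI := symStr A hn; φ.Realize default xs) ↔ sat A n φ (fun i => (xs i).val) := by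
  induction φ with
  | falsum => exact fun xs => Iff.rfl
  | equal t₁ t₂ =>
    intro xs
    letI := symStr A hn
    change (t₁.realize (Sum.elim default xs) = t₂.realize (Sum.elim default xs)) ↔
      tval A n (fun i => (xs i).val) t₁ = tval A n (fun i => (xs i).val) t₂
    rw [← term_symStr A hn xs t₁, ← term_symStr A hn xs t₂]
    exact Fin.ext_iff
  | rel R ts =>
    intro xs
    letI := symStr A hn
    change A (Sum.inl ⟨_, R⟩) (enc fun i => ((ts i).realize (Sum.elim default xs)).val) ↔
      A (Sum.inl ⟨_, R⟩) (enc fun i => tval A n (fun i => (xs i).val) (ts i))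
    have : (fun i => ((ts i).realize (Sum.elim default xs)).val) =
        fun i => tval A n (fun i => (xs i).val) (ts i) := funext fun i => term_symStr A hn xs (ts i)
    rw [this]
  | imp f g ih1 ih2 => exact fun xs => imp_congr (ih1 xs) (ih2 xs)
  | all f ih =>
    intro xs
    have key : ∀ a : Fin n, (letI := symStr A hn; f.Realize default (Fin.snoc xs a)) ↔
        sat A n f (Fin.snoc (fun i => (xs i).val) a.val) := by
      intro a
      refine (ih _).trans ?_
      have : (fun i => ((Fin.snoc xs a : Fin _ → Fin n) i).val) =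
          (Fin.snoc (fun i => (xs i).val) a.val : Fin _ → ℕ) := by
        funext i
        refine Fin.lastCases ?_ (fun i => ?_) i
        · simp
        · simp
      rw [this]
    constructor
    · intro h x hx
      exact (key ⟨x, hx⟩).1 (h ⟨x, hx⟩)
    · intro h a
      exact (key a).2 (h a.val a.isLt)

/-- every structure of size `n` is coded -/
theorem exists_sym {n : ℕ} (hn : 0 < n) (M : Type) [L.Structure M] (hM : Nat.card M = n)
    (φ : L.Sentence) (h : φ.Realize M) : ∃ A : Sym L → ℕ → Prop, sat A n φ default := by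
  haveI : Finite M := Nat.finite_of_card_ne_zero (by omega)
  let e : M ≃ Fin n := (Finite.equivFin M).trans (finCongr hM)
  let A : Sym L → ℕ → Prop := fun s z => match s with
    | .inl ⟨k, R⟩ => ∃ x : Fin k → M, z = enc (fun i => (e (x i)).val) ∧ Structure.RelMap R x
    | .inr ⟨k, f⟩ => ∃ x : Fin k → M, z = enc (Matrix.vecCons (e (Structure.funMap f x)).val
        (fun i => (e (x i)).val))
  refine ⟨A, ?_⟩
  have hinj : ∀ {k : ℕ} {x y : Fin k → M}, (fun i => (e (x i)).val) = (fun i => (e (y i)).val) →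
      x = y := by
    intro k x y he
    funext i
    exact e.injective (Fin.ext (congrFun he i))
  letI := symStr A hn
  have hmf : ∀ {k : ℕ} (f : L.Functions k) (x : Fin k → M),
      e (Structure.funMap f x) = Structure.funMap f (e ∘ x) := by
    intro k f x
    apply Fin.ext
    refine ((fval_eq A n f _ _).2 (Or.inl ⟨(e _).isLt, ⟨x, rfl⟩, ?_⟩)).symm
    rintro y' hy' ⟨x', hx'⟩
    have h1 := enc_inj hx'
    have h2 : y' = (e (Structure.funMap f x')).val := congrFun h1 0
    have h3 : x = x' := hinj (funext fun i => congrFun h1 i.succ)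
    rw [← h3] at h2
    exact absurd hy' (by rw [h2]; exact lt_irrefl _)
  have hmr : ∀ {k : ℕ} (R : L.Relations k) (x : Fin k → M),
      Structure.RelMap R (e ∘ x) ↔ Structure.RelMap R x := by
    intro k R x
    constructor
    · rintro ⟨x', h1, h2⟩
      rw [hinj (enc_inj h1)]
      exact h2
    · intro h
      exact ⟨x, rfl, h⟩
  let E : M ≃[L] Fin n := ⟨e, hmf, hmr⟩
  have h1 : (Fin n) ⊨ φ := (StrongHomClass.realize_sentence E φ).1 h
  have h2 := (realize_symStr A hn φ default).1 h1
  have h3 : (fun i : Fin 0 => ((default : Fin 0 → Fin n) i).val) = default :=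
    funext fun i => i.elim0
  rw [h3] at h2
  exact h2

end

/-- Spectra are existential second-order definable. -/
theorem IsSpectrum.se {S : Set ℕ} (hS : IsSpectrum S) :
    0 ∉ S ∧ SE (fun (_ : Empty → ℕ → Prop) (v : Unit → ℕ) => v () ∈ S) := by
  obtain ⟨L, φ, h⟩ := hS
  refine ⟨fun h0 => absurd ((h 0).1 h0).1 (lt_irrefl 0), ?_⟩
  refine ⟨Sym L, fun A v => 0 < v () ∧ sat (fun s => A (Sum.inr s)) (v ()) φ default,
    (SB.ltf (PF.const 0) (PF.proj ())).and ?_, fun B v => ?_⟩
  · refine ((sb_sat φ (N := fun v : Unit → ℕ => v ()) (u := fun i _ => i.elim0) (PF.proj ())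
      (fun i => i.elim0)).mapRel Sum.inr).congr fun A v => ?_
    have : (default : Fin 0 → ℕ) = fun i => i.elim0 := funext fun i => i.elim0
    rw [this]
  · beta_reduce
    rw [h]
    constructor
    · rintro ⟨hn, M, strM, hM, hφ⟩
      obtain ⟨A, hA⟩ := exists_sym hn M hM φ hφ
      exact ⟨A, hn, hA⟩
    · rintro ⟨A, hn, hA⟩
      refine ⟨hn, Fin (v ()), symStr A hn, by simp, ?_⟩
      refine (realize_symStr A hn φ default).2 ?_
      have : (fun i : Fin 0 => ((default : Fin 0 → Fin (v ())) i).val) = default :=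
        funext fun i => i.elim0
      rw [this]
      exact hA

end Pool.Agent.J4H63.AS
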