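import Pool.Agent.J4H63.AS.Code

/-!
# A set whose census has the parities of the code word of another set
-/

namespace Pool.Agent.J4H63.AS

open Finset

open Classical in
/-- the number of `k < n` with `P k` -/
noncomputable def cnt (P : ℕ → Prop) (n : ℕ) : ℕ := ((range n).filter P).card

section

variable {P Q : ℕ → Prop} {m n : ℕ}

@[simp] theorem cnt_zero : cnt P 0 = 0 := by simp [cnt]

open Classical in
theorem cnt_succ : cnt P (n + 1) = cnt P n + if P n then 1 else 0 := by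
  unfold cnt
  rw [range_add_one, filter_insert]
  split_ifs with h
  · rw [card_insert_of_notMem]
    simp
  · simp

open Classical in
theorem cnt_congr (h : ∀ k < n, (P k ↔ Q k)) : cnt P n = cnt Q n := by
  unfold cnt
  exact congrArg card (filter_congr fun k hk => h k (mem_range.1 hk))

open Classical in
theorem cnt_false (h : ∀ k < n, ¬ P k) : cnt P n = 0 := by
  unfold cnt
  rw [card_eq_zero, filter_eq_empty_iff]
  exact fun k hk => h k (mem_range.1 hk)

theorem cnt_add : cnt P (m + n) = cnt P m + cnt (fun k => P (m + k)) n := by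
  induction n with
  | zero => simp
  | succ n ih =>
    rw [← Nat.add_assoc, cnt_succ, ih, cnt_succ]
    split_ifs <;> omega

/-- the parities of two counting numbers -/
theorem cnt_parity [DecidablePred fun k => ¬ (P k ↔ Q k)] :
    ((Odd (cnt P n) ↔ Odd (cnt Q n)) ↔ ¬ Odd ((range n).filter fun k => ¬ (P k ↔ Q k)).card) := by
  classical
  induction n with
  | zero => simp
  | succ n ih =>
    rw [range_add_one, filter_insert, cnt_succ, cnt_succ]
    have hn : n ∉ (range n).filter fun k => ¬ (P k ↔ Q k) := by simp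
    by_cases hP : P n <;> by_cases hQ : Q n
    · simp only [hP, hQ, if_true, Nat.odd_add_one, not_true, if_false]
      rw [← ih]
      tauto
    · simp only [hP, hQ, if_true, if_false, Nat.odd_add_one, iff_false, not_true, not_false_iff,
        Nat.add_zero]
      rw [card_insert_of_notMem hn, Nat.odd_add_one, not_not]
      tauto
    · simp only [hP, hQ, if_true, if_false, Nat.odd_add_one, not_false_iff, false_iff, not_true,
        Nat.add_zero]
      rw [card_insert_of_notMem hn, Nat.odd_add_one, not_not]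
      tauto
    · simp only [hP, hQ, if_false, Nat.add_zero, not_true]
      exact ih

end

/-! ### The parameters -/

theorem exists_pp (j : ℕ) : ∃ p, 8 * 2 ^ j < p ∧ p.Prime := by
  obtain ⟨p, h1, h2⟩ := Nat.exists_infinite_primes (8 * 2 ^ j + 1)
  exact ⟨p, h1, h2⟩

/-- the least prime above `8 * 2 ^ j` -/
def pp (j : ℕ) : ℕ := Nat.find (exists_pp j)

theorem pp_gt (j : ℕ) : 8 * 2 ^ j < pp j := (Nat.find_spec (exists_pp j)).1

theorem pp_prime (j : ℕ) : (pp j).Prime := (Nat.find_spec (exists_pp j)).2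

theorem pp_min {j q : ℕ} (h : q < pp j) (h' : 8 * 2 ^ j < q) : ¬ q.Prime := fun h2 =>
  Nat.find_min (exists_pp j) h ⟨h', h2⟩

theorem pp_eq {j p : ℕ} (h1 : 8 * 2 ^ j < p) (h2 : p.Prime) (h3 : ∀ q < p, 8 * 2 ^ j < q →
    ¬ q.Prime) : p = pp j := by
  rcases lt_trichotomy p (pp j) with h | h | h
  · exact absurd h2 (pp_min h h1)
  · exact h
  · exact absurd (pp_prime j) (h3 _ h (pp_gt j))

theorem pp_le (j : ℕ) : pp j ≤ 16 * 2 ^ j := by
  obtain ⟨p, hp, h1, h2⟩ := Nat.exists_prime_lt_and_le_two_mul (8 * 2 ^ j)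
    (by have := Nat.two_pow_pos j; omega)
  have : pp j ≤ p := Nat.find_min' (exists_pp j) ⟨h1, hp⟩
  omega

/-- the number of positions of the code -/
def YY (j : ℕ) : ℕ := pp j ^ 2 * (8 * 2 ^ j)

/-- the length of a block -/
def ll (j : ℕ) : ℕ := 8191 * (2 ^ j) ^ 13 / YY j

theorem YY_pos (j : ℕ) : 0 < YY j :=
  Nat.mul_pos (Nat.pow_pos (pp_prime j).pos) (by have := Nat.two_pow_pos j; omega)

theorem YY_le (j : ℕ) : YY j ≤ 2048 * (2 ^ j) ^ 3 := by
  unfold YY
  calc pp j ^ 2 * (8 * 2 ^ j) ≤ (16 * 2 ^ j) ^ 2 * (8 * 2 ^ j) :=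
        Nat.mul_le_mul_right _ (Nat.pow_le_pow_left (pp_le j) 2)
    _ = _ := by ring

theorem YY_mul_ll (j : ℕ) : YY j * ll j ≤ 8191 * (2 ^ j) ^ 13 := Nat.mul_div_le _ _

theorem lt_YY_mul (j : ℕ) : 8191 * (2 ^ j) ^ 13 < YY j * (ll j + 1) :=
  Nat.lt_mul_div_succ _ (YY_pos j)

theorem ll_eq {j l : ℕ} (h1 : YY j * l ≤ 8191 * (2 ^ j) ^ 13)
    (h2 : 8191 * (2 ^ j) ^ 13 < YY j * (l + 1)) : l = ll j := by
  symm
  refine Nat.div_eq_of_lt_le ?_ ?_
  · rw [Nat.mul_comm]; exact h1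
  · rw [Nat.mul_comm (l + 1)]; exact h2

theorem ll_ge (j : ℕ) : 3 * 2 ^ j ≤ ll j := by
  unfold ll
  rw [Nat.le_div_iff_mul_le (YY_pos j)]
  have h1 := YY_le j
  have h2 : 1 ≤ 2 ^ j := Nat.one_le_two_pow
  generalize 2 ^ j = M at *
  calc 3 * M * YY j ≤ 3 * M * (2048 * M ^ 3) := Nat.mul_le_mul_left _ h1
    _ = 6144 * M ^ 4 := by ring
    _ ≤ 8191 * M ^ 13 := Nat.mul_le_mul (by omega) (Nat.pow_le_pow_right h2 (by omega))

theorem YY_mul_R {j : ℕ} (hj : 2 ≤ j) : 8190 * (2 ^ j) ^ 13 ≤ YY j * (ll j - 2 * 2 ^ j) := by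
  have h1 := YY_le j
  have h2 : 2 ^ 2 ≤ 2 ^ j := Nat.pow_le_pow_right (by omega) hj
  have h3 := lt_YY_mul j
  have h4 := ll_ge j
  generalize 2 ^ j = M at *
  obtain ⟨R, hR⟩ : ∃ R, ll j = R + 2 * M := ⟨ll j - 2 * M, by omega⟩
  rw [hR] at h3 ⊢
  rw [Nat.add_sub_cancel]
  have h5 : YY j * (R + 2 * M + 1) = YY j * R + YY j * (2 * M + 1) := by ring
  have h6 : YY j * (2 * M + 1) ≤ M ^ 13 := by
    calc YY j * (2 * M + 1) ≤ (2048 * M ^ 3) * (3 * M) := Nat.mul_le_mul h1 (by omega)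
      _ = 6144 * M ^ 4 := by ring
      _ ≤ 4 ^ 9 * M ^ 4 := Nat.mul_le_mul_right _ (by norm_num)
      _ ≤ M ^ 9 * M ^ 4 := Nat.mul_le_mul_right _ (Nat.pow_le_pow_left h2 9)
      _ = M ^ 13 := by ring
  omega

/-- the positions -/
def pos (j y r : ℕ) : ℕ := (2 ^ j) ^ 13 + y * ll j + r

theorem pos_lt {j y r : ℕ} (hy : y < YY j) (hr : r < ll j) : pos j y r < (2 ^ (j + 1)) ^ 13 := by
  have h1 := YY_mul_ll j
  have h2 : (y + 1) * ll j ≤ YY j * ll j := Nat.mul_le_mul_right _ hy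
  have h3 : (2 ^ (j + 1)) ^ 13 = 8192 * (2 ^ j) ^ 13 := by ring
  unfold pos
  rw [Nat.add_mul, Nat.one_mul] at h2
  omega

theorem le_pos (j y r : ℕ) : (2 ^ j) ^ 13 ≤ pos j y r := by
  unfold pos
  omega

theorem mul_add_inj {l y y' r r' : ℕ} (hr : r < l) (hr' : r' < l) (h : y * l + r = y' * l + r') :
    y = y' ∧ r = r' := by
  have h1 : (y * l + r) / l = y := by
    rw [Nat.mul_comm, Nat.mul_add_div (by omega), Nat.div_eq_of_lt hr, Nat.add_zero]
  have h2 : (y' * l + r') / l = y' := by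
    rw [Nat.mul_comm, Nat.mul_add_div (by omega), Nat.div_eq_of_lt hr', Nat.add_zero]
  have h3 : y = y' := by rw [← h1, h, h2]
  subst h3
  exact ⟨rfl, by omega⟩

theorem pos_inj {j y y' r r' : ℕ} (hr : r < ll j) (hr' : r' < ll j) (h : pos j y r = pos j y' r') :
    y = y' ∧ r = r' := by
  unfold pos at h
  exact mul_add_inj hr hr' (by omega)

theorem pow13_inj {j j' n : ℕ} (h1 : (2 ^ j) ^ 13 ≤ n) (h2 : n < (2 ^ (j + 1)) ^ 13)
    (h1' : (2 ^ j') ^ 13 ≤ n) (h2' : n < (2 ^ (j' + 1)) ^ 13) : j = j' := by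
  have key : ∀ {a b : ℕ}, (2 ^ a) ^ 13 ≤ n → n < (2 ^ (b + 1)) ^ 13 → a ≤ b := by
    intro a b ha hb
    by_contra hlt
    have h3 : 2 ^ (b + 1) ≤ 2 ^ a := Nat.pow_le_pow_right (by omega) (by omega)
    have h4 := Nat.pow_le_pow_left h3 13
    omega
  exact le_antisymm (key h1 h2') (key h1' h2)

/-- the code positions -/
def inC (j y x : ℕ) : Prop :=
  InA j (pp j) (y / (8 * 2 ^ j) / pp j) (y / (8 * 2 ^ j) % pp j) (y % (8 * 2 ^ j)) x

instance (j y x : ℕ) : Decidable (inC j y x) := inferInstanceAs (Decidable (InA _ _ _ _ _ _))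

/-- the set whose census has the parities of the code words of `S` -/
def S1 (S : Set ℕ) : Set ℕ :=
  {N | ∃ j ≥ 2, ∃ y < YY j, ∃ x < 2 ^ j, (x ∈ S ∧ inC j y x) ∧
    (N = pos j y x ∨ N = pos j y (ll j - 2 ^ j + x))}

variable {S : Set ℕ}

theorem S1_ge {N : ℕ} (h : N ∈ S1 S) : 4 ^ 13 ≤ N := by
  obtain ⟨j, hj, y, _, x, _, _, h⟩ := h
  have h1 : 2 ^ 2 ≤ 2 ^ j := Nat.pow_le_pow_right (by omega) hj
  have h2 := Nat.pow_le_pow_left h1 13
  rcases h with rfl | rfl
  · exact h2.trans (le_pos _ _ _)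
  · exact h2.trans (le_pos _ _ _)

theorem S1_pos {j : ℕ} (hj : 2 ≤ j) {y r : ℕ} (hy : y < YY j) (hr : r < ll j) :
    pos j y r ∈ S1 S ↔ ((r < 2 ^ j ∧ (r ∈ S ∧ inC j y r)) ∨
      (ll j - 2 ^ j ≤ r ∧ (r - (ll j - 2 ^ j) ∈ S ∧ inC j y (r - (ll j - 2 ^ j))))) := by
  constructor
  · rintro ⟨j', hj', y', hy', x, hx, hC, h⟩
    have hl := ll_ge j'
    have hpos : 0 < 2 ^ j' := Nat.two_pow_pos j'
    have hjj : j = j' := by
      refine pow13_inj (le_pos j y r) (pos_lt hy hr) ?_ ?_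
      · rcases h with h | h <;> rw [h] <;> exact le_pos _ _ _
      · rcases h with h | h <;> rw [h] <;> refine pos_lt hy' ?_ <;> omega
    subst hjj
    rcases h with h | h
    · obtain ⟨rfl, rfl⟩ := pos_inj hr (by omega) h
      exact Or.inl ⟨hx, hC⟩
    · obtain ⟨rfl, rfl⟩ := pos_inj hr (by omega) h
      refine Or.inr ⟨by omega, ?_⟩
      rw [Nat.add_sub_cancel_left]
      exact hC
  · have hl := ll_ge j
    rintro (⟨h1, h2⟩ | ⟨h1, h2⟩)
    · exact ⟨j, hj, y, hy, r, h1, h2, Or.inl rfl⟩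
    · refine ⟨j, hj, y, hy, _, by omega, h2, Or.inr ?_⟩
      congr 1
      omega

theorem S1_gap {j : ℕ} (hj : 2 ≤ j) {N : ℕ} (h1 : (2 ^ j) ^ 13 + YY j * ll j ≤ N)
    (h2 : N < (2 ^ (j + 1)) ^ 13) : N ∉ S1 S := by
  rintro ⟨j', hj', y', hy', x, hx, hC, h⟩
  have hl := ll_ge j'
  have hpos : 0 < 2 ^ j' := Nat.two_pow_pos j'
  have hjj : j = j' := by
    refine pow13_inj ((Nat.le_add_right _ _).trans h1) h2 ?_ ?_
    · rcases h with h | h <;> rw [h] <;> exact le_pos _ _ _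
    · rcases h with h | h <;> rw [h] <;> refine pos_lt hy' ?_ <;> omega
  subst hjj
  have h3 : (y' + 1) * ll j ≤ YY j * ll j := Nat.mul_le_mul_right _ hy'
  rw [Nat.add_mul, Nat.one_mul] at h3
  unfold pos at h
  omega

/-- the count at the middle of a block -/
theorem cnt_mid {j : ℕ} (hj : 2 ≤ j) {y r : ℕ} (hy : y < YY j) (h1 : 2 ^ j ≤ r)
    (h2 : r + 2 ^ j ≤ ll j) : cnt (· ∈ S1 S) (pos j y r) = cnt (· ∈ S1 S) (pos j y 0) +
      cnt (fun x => x ∈ S ∧ inC j y x) (2 ^ j) := by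
  have hl := ll_ge j
  have hpos : 0 < 2 ^ j := Nat.two_pow_pos j
  obtain ⟨t, rfl⟩ : ∃ t, r = 2 ^ j + t := ⟨r - 2 ^ j, by omega⟩
  have e1 : pos j y (2 ^ j + t) = pos j y 0 + (2 ^ j + t) := by unfold pos; omega
  have e2 : ∀ k, pos j y 0 + k = pos j y k := fun k => by unfold pos; omega
  rw [e1, cnt_add, cnt_add]
  have e3 : cnt (fun k => (pos j y 0 + k) ∈ S1 S) (2 ^ j) =
      cnt (fun x => x ∈ S ∧ inC j y x) (2 ^ j) := by
    refine cnt_congr fun k hk => ?_
    rw [e2, S1_pos hj hy (by omega)]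
    constructor
    · rintro (h | h)
      · exact h.2
      · omega
    · exact fun h => Or.inl ⟨hk, h⟩
  have e4 : cnt (fun k => (pos j y 0 + (2 ^ j + k)) ∈ S1 S) t = 0 := by
    refine cnt_false fun k hk => ?_
    rw [e2, S1_pos hj hy (by omega)]
    rintro (h | h) <;> omega
  rw [e3, e4, Nat.add_zero]

theorem cnt_block {j : ℕ} (hj : 2 ≤ j) {y : ℕ} (hy : y < YY j) :
    cnt (· ∈ S1 S) (pos j (y + 1) 0) = cnt (· ∈ S1 S) (pos j y 0) +
      2 * cnt (fun x => x ∈ S ∧ inC j y x) (2 ^ j) := by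
  have hl := ll_ge j
  have hpos : 0 < 2 ^ j := Nat.two_pow_pos j
  have e1 : pos j (y + 1) 0 = pos j y (ll j - 2 ^ j) + 2 ^ j := by
    unfold pos
    have : (y + 1) * ll j = y * ll j + ll j := by ring
    omega
  have e2 : ∀ k, pos j y (ll j - 2 ^ j) + k = pos j y (ll j - 2 ^ j + k) := fun k => by
    unfold pos; omega
  rw [e1, cnt_add, cnt_mid hj hy (by omega) (by omega)]
  have e3 : cnt (fun k => (pos j y (ll j - 2 ^ j) + k) ∈ S1 S) (2 ^ j) =
      cnt (fun x => x ∈ S ∧ inC j y x) (2 ^ j) := by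
    refine cnt_congr fun k hk => ?_
    rw [e2, S1_pos hj hy (by omega), Nat.add_sub_cancel_left]
    constructor
    · rintro (h | h)
      · omega
      · exact h.2
    · exact fun h => Or.inr ⟨by omega, h⟩
  rw [e3]
  omega

theorem cnt_start {j : ℕ} (hj : 2 ≤ j) : ∀ {y : ℕ}, y ≤ YY j →
    (Odd (cnt (· ∈ S1 S) (pos j y 0)) ↔ Odd (cnt (· ∈ S1 S) ((2 ^ j) ^ 13))) := by
  intro y
  induction y with
  | zero =>
    intro _
    have : pos j 0 0 = (2 ^ j) ^ 13 := by unfold pos; omega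
    rw [this]
  | succ y ih =>
    intro hy
    rw [cnt_block hj hy, Nat.odd_add, ← ih (by omega)]
    simp

theorem cnt_super {j : ℕ} (hj : 2 ≤ j) :
    ¬ Odd (cnt (· ∈ S1 S) ((2 ^ j) ^ 13)) := by
  induction j, hj using Nat.le_induction with
  | base =>
    rw [cnt_false]
    · simp
    · intro k hk h
      have := S1_ge h
      norm_num at hk this
      omega
  | succ j hj ih =>
    have h1 := cnt_start (S := S) hj (le_refl (YY j))
    have h2 := YY_mul_ll j
    have h3 : (2 ^ (j + 1)) ^ 13 = 8192 * (2 ^ j) ^ 13 := by ring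
    obtain ⟨t, ht⟩ : ∃ t, (2 ^ (j + 1)) ^ 13 = pos j (YY j) 0 + t :=
      ⟨(2 ^ (j + 1)) ^ 13 - pos j (YY j) 0, by unfold pos; omega⟩
    rw [ht, cnt_add, cnt_false (P := fun k => (pos j (YY j) 0 + k) ∈ S1 S), Nat.add_zero, h1]
    · exact ih
    · intro k hk
      refine S1_gap hj ?_ (by omega)
      unfold pos
      omega

/-- the parity of the census in the middle of a block -/
theorem cnt_S1 {j : ℕ} (hj : 2 ≤ j) {y r : ℕ} (hy : y < YY j) (h1 : 2 ^ j ≤ r)
    (h2 : r + 2 ^ j ≤ ll j) : (Odd (cnt (· ∈ S1 S) (pos j y r)) ↔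
      Odd (cnt (fun x => x ∈ S ∧ inC j y x) (2 ^ j))) := by
  rw [cnt_mid hj hy h1 h2, Nat.odd_add, cnt_start hj hy.le]
  have := cnt_super (S := S) hj
  simp only [this, false_iff, Nat.not_even_iff_odd]

/-- the distance of the code, for the positions of the blocks -/
theorem distance' (j : ℕ) {D : Finset ℕ} (hD : D.Nonempty) (hDM : ∀ x ∈ D, x < 2 ^ j) :
    3 * YY j ≤ 32 * ((range (YY j)).filter fun y => Odd (D.filter fun x => inC j y x).card).card := by
  refine (distance (pp_prime j) (pp_gt j) hD hDM).trans (Nat.mul_le_mul_left _ ?_)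
  set p := pp j with hp
  set m := 8 * 2 ^ j with hm
  have hppos : 0 < p := (pp_prime j).pos
  have hmpos : 0 < m := by
    have := Nat.two_pow_pos j
    omega
  refine card_le_card_of_injOn (fun q => (q.1.1 * p + q.1.2) * m + q.2) ?_ ?_
  · rintro ⟨⟨a, b⟩, g⟩ hq
    rw [mem_coe, mem_filter, mem_product, mem_product, mem_range, mem_range, mem_range] at hq
    obtain ⟨⟨⟨ha, hb⟩, hg⟩, hodd⟩ := hq
    dsimp only at ha hb hg hodd
    rw [mem_coe, mem_filter, mem_range]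
    have e1 : ((a * p + b) * m + g) / m = a * p + b := by
      rw [Nat.mul_comm, Nat.mul_add_div hmpos, Nat.div_eq_of_lt hg, Nat.add_zero]
    have e2 : ((a * p + b) * m + g) % m = g := by
      rw [Nat.mul_comm, Nat.mul_add_mod, Nat.mod_eq_of_lt hg]
    have e3 : (a * p + b) / p = a := by
      rw [Nat.mul_comm, Nat.mul_add_div hppos, Nat.div_eq_of_lt hb, Nat.add_zero]
    have e4 : (a * p + b) % p = b := by
      rw [Nat.mul_comm, Nat.mul_add_mod, Nat.mod_eq_of_lt hb]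
    constructor
    · have h1 : (a + 1) * p ≤ p * p := Nat.mul_le_mul_right _ ha
      have h2 : (a * p + b + 1) * m ≤ p * p * m := by
        refine Nat.mul_le_mul_right _ ?_
        rw [Nat.add_mul, Nat.one_mul] at h1
        omega
      have h3 : YY j = p * p * m := by unfold YY; rw [← hp, ← hm]; ring
      rw [h3]
      rw [Nat.add_mul, Nat.one_mul] at h2
      dsimp only
      omega
    · have : (D.filter fun x => inC j ((a * p + b) * m + g) x) =
          D.filter fun x => InA j p a b g x := by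
        refine filter_congr fun x _ => ?_
        unfold inC
        rw [← hp, ← hm, e1, e2, e3, e4]
      dsimp only
      rw [this]
      exact hodd
  · rintro ⟨⟨a, b⟩, g⟩ hq ⟨⟨a', b'⟩, g'⟩ hq' h
    rw [mem_coe, mem_filter, mem_product, mem_product, mem_range, mem_range, mem_range] at hq hq'
    obtain ⟨⟨⟨ha, hb⟩, hg⟩, _⟩ := hq
    obtain ⟨⟨⟨ha', hb'⟩, hg'⟩, _⟩ := hq'
    dsimp only at ha hb hg ha' hb' hg' h
    obtain ⟨h1, h2⟩ := mul_add_inj hg hg' h
    obtain ⟨h3, h4⟩ := mul_add_inj hb hb' h1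
    rw [h2, h3, h4]

end Pool.Agent.J4H63.AS
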