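import Pool.Agent.J4H63.AS.Census

/-!
# Asser's problem and the parity of the census: the equivalence
-/

namespace Pool.Agent.J4H63.AS

open GZ Finset

variable {S T : Set ℕ}

theorem census_eq {n : ℕ} : {k | k ≤ n ∧ k ∈ S}.ncard = cnt (· ∈ S) (n + 1) := by
  classical
  rw [ncard_eq]
  unfold cnt
  exact congrArg card (filter_congr fun _ _ => Iff.rfl)

theorem census_insert {n : ℕ} (hn : 0 < n) (h1 : 1 ∉ S) :
    {k | k ≤ n ∧ k ∈ insert 1 S}.ncard = {k | k ≤ n ∧ k ∈ S}.ncard + 1 := by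
  have h : {k | k ≤ n ∧ k ∈ insert 1 S} = insert 1 {k | k ≤ n ∧ k ∈ S} := by
    ext k
    simp only [Set.mem_setOf_eq, Set.mem_insert_iff]
    constructor
    · rintro ⟨h2, h3 | h3⟩
      · exact Or.inl h3
      · exact Or.inr ⟨h2, h3⟩
    · rintro (h2 | h2)
      · exact ⟨by omega, Or.inl h2⟩
      · exact ⟨h2.1, Or.inr h2.2⟩
  rw [h, Set.ncard_insert_of_notMem (fun h2 => h1 h2.2)
    ((Set.finite_le_nat n).subset fun k hk => hk.1)]

/-- the numbers with an even census -/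
def EvenCensus (S : Set ℕ) : Set ℕ := {n | 0 < n ∧ Even {k | k ≤ n ∧ k ∈ S}.ncard}

/-- the complement -/
def Cp (S : Set ℕ) : Set ℕ := {n | 0 < n ∧ n ∉ S}

theorem census_add (h0 : 0 ∉ S) (n : ℕ) :
    {k | k ≤ n ∧ k ∈ S}.ncard + {k | k ≤ n ∧ k ∈ Cp S}.ncard = n := by
  rw [← Set.ncard_union_eq ?_ ((Set.finite_le_nat n).subset fun k hk => hk.1)
    ((Set.finite_le_nat n).subset fun k hk => hk.1)]
  · have : {k | k ≤ n ∧ k ∈ S} ∪ {k | k ≤ n ∧ k ∈ Cp S} = (Icc 1 n : Finset ℕ) := by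
      ext k
      simp only [Set.mem_union, Set.mem_setOf_eq, Cp, coe_Icc, Set.mem_Icc]
      constructor
      · rintro (⟨h1, h2⟩ | ⟨h1, h2, _⟩)
        · refine ⟨?_, h1⟩
          rcases Nat.eq_zero_or_pos k with h | h
          · subst h
            exact absurd h2 h0
          · exact h
        · exact ⟨h2, h1⟩
      · rintro ⟨h1, h2⟩
        by_cases h : k ∈ S
        · exact Or.inl ⟨h2, h⟩
        · exact Or.inr ⟨h2, h1, h⟩
    rw [this, Set.ncard_coe_finset, Nat.card_Icc, Nat.add_sub_cancel]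
  · rw [Set.disjoint_left]
    rintro k ⟨_, h1⟩ ⟨_, _, h2⟩
    exact h2 h1

theorem evenCensus_spectrum (hS : IsSpectrum S) (hC : IsSpectrum (Cp S)) :
    IsSpectrum (EvenCensus S) := by
  have h0 : 0 ∉ S := (isSpectrum_iff.1 hS).1
  refine isSpectrum_of_se (fun h => lt_irrefl 0 h.1) ?_
  have h : SE (fun (_ : Empty → ℕ → Prop) (v : Unit → ℕ) => 0 < v () ∧ ∃ y : Fin 3 → ℕ,
      (∀ i, y i ≤ v ()) ∧ ((y 0 + y 1 = v () ∧ y 0 = 2 * y 2) ∧
        (y 0 ≤ {k | k ≤ v () ∧ k ∈ S}.ncard ∧ y 1 ≤ {k | k ≤ v () ∧ k ∈ Cp S}.ncard))) := by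
    refine (SE.of_sb (SB.ltf (PF.const 0) (PF.proj ()))).and (SE.exVec 3
      (P := fun _ (v : Unit → ℕ) (y : Fin 3 → ℕ) => (y 0 + y 1 = v () ∧ y 0 = 2 * y 2) ∧
        (y 0 ≤ {k | k ≤ v () ∧ k ∈ S}.ncard ∧ y 1 ≤ {k | k ≤ v () ∧ k ∈ Cp S}.ncard))
      (PF.proj ()) ?_)
    have q : ∀ i : Fin 3, PF (fun w : Unit ⊕ Fin 3 → ℕ => w (Sum.inr i)) := fun i => PF.proj _
    have u : PF (fun w : Unit ⊕ Fin 3 → ℕ => w (Sum.inl ())) := PF.proj _
    refine SE.and (SE.of_sb ((SB.eqf ((q 0).add (q 1)) u).and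
      (SB.eqf (q 0) ((PF.const 2).mul (q 2))))) (SE.and ?_ ?_)
    · exact SE.count (P := fun _ _ x => x ∈ S) (b := fun w : Unit ⊕ Fin 3 → ℕ => w (Sum.inl ()))
        (k := fun w => w (Sum.inr 0)) u (q 0) (hS.mem (PF.proj none))
    · exact SE.count (P := fun _ _ x => x ∈ Cp S) (b := fun w : Unit ⊕ Fin 3 → ℕ => w (Sum.inl ()))
        (k := fun w => w (Sum.inr 1)) u (q 1) (hC.mem (PF.proj none))
  refine h.congr fun B v => ?_
  have hadd := census_add h0 (v ())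
  constructor
  · rintro ⟨h1, h2⟩
    obtain ⟨t, ht⟩ := h2
    refine ⟨h1, ![{k | k ≤ v () ∧ k ∈ S}.ncard, {k | k ≤ v () ∧ k ∈ Cp S}.ncard, t], ?_,
      ⟨hadd, ?_⟩, le_rfl, le_rfl⟩
    · refine Fin.cases ?_ (Fin.cases ?_ (Fin.cases ?_ fun i => i.elim0)) <;> simp <;> omega
    · show {k | k ≤ v () ∧ k ∈ S}.ncard = 2 * t
      omega
  · rintro ⟨h1, y, _, ⟨h2, h3⟩, h4, h5⟩
    refine ⟨h1, y 2, ?_⟩
    omega

open Classical in
theorem err_eq {N : ℕ} {P Q : ℕ → Prop} (h : ∀ n, 0 < n → (P n ↔ Q n)) :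
    {n | 0 < n ∧ n ≤ N ∧ P n}.ncard = ((Icc 1 N).filter Q).card := by
  rw [← Set.ncard_coe_finset]
  congr 1
  ext x
  simp only [Set.mem_setOf_eq, coe_filter, mem_Icc]
  constructor
  · rintro ⟨h1, h2, h3⟩
    exact ⟨⟨h1, h2⟩, (h x h1).1 h3⟩
  · rintro ⟨⟨h1, h2⟩, h3⟩
    exact ⟨h1, h2, (h x h1).2 h3⟩

/-- `T` has the parity of the census of `S` right for 98 percent of the numbers -/
def Approx (S T : Set ℕ) : Prop := ∃ N₀ : ℕ, ∀ N ≥ N₀,
  50 * {n | 0 < n ∧ n ≤ N ∧ ¬ (n ∈ T ↔ Even {k | k ≤ n ∧ k ∈ S}.ncard)}.ncard ≤ N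

theorem compl_of_approx (H : ∀ S, IsSpectrum S → ∃ T, IsSpectrum T ∧ Approx S T)
    (hS : IsSpectrum S) : IsSpectrum (Cp S) := by
  classical
  obtain ⟨Te, hTe, Ne, he⟩ := H _ (S1_spectrum hS)
  obtain ⟨To, hTo, No, ho⟩ := H _ (S2_spectrum hS)
  have h1 : 1 ∉ S1 S := fun h => by
    have := S1_ge h
    omega
  refine compl_spectrum hTe hTo (max Ne No) ?_ ?_
  · intro N hN
    have h := he N (le_of_max_le_left hN)
    rw [err_eq (Q := Ee S Te)] at h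
    · exact h
    · intro n _
      unfold Ee
      rw [census_eq, Nat.not_odd_iff_even]
  · intro N hN
    have h := ho N (le_of_max_le_right hN)
    rw [err_eq (Q := Eo S To)] at h
    · exact h
    · intro n hn
      unfold Eo
      rw [census_insert hn h1, census_eq, Nat.even_add_one, Nat.not_even_iff_odd]

end Pool.Agent.J4H63.AS
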