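import Pool.Agent.J4H63.GZ.Bd

/-!
# Bounded formulas with set variables
-/

namespace Pool.Agent.J4H63.AS

open MvPolynomial GZ

/-- bounded formulas of arithmetic with set variables `A s`, for `s : σ` -/
inductive SB {σ : Type} : {ι : Type} → ((σ → ℕ → Prop) → (ι → ℕ) → Prop) → Prop
  | eq {ι : Type} (p q : MvPolynomial ι ℕ) : SB (fun _ v => eval v p = eval v q)
  | le {ι : Type} (p q : MvPolynomial ι ℕ) : SB (fun _ v => eval v p ≤ eval v q)
  | mem {ι : Type} (s : σ) (p : MvPolynomial ι ℕ) : SB (fun A v => A s (eval v p))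
  | not {ι : Type} {P : (σ → ℕ → Prop) → (ι → ℕ) → Prop} : SB P → SB (fun A v => ¬ P A v)
  | and {ι : Type} {P Q : (σ → ℕ → Prop) → (ι → ℕ) → Prop} : SB P → SB Q →
      SB (fun A v => P A v ∧ Q A v)
  | ex {ι : Type} {P : (σ → ℕ → Prop) → (Option ι → ℕ) → Prop} (p : MvPolynomial ι ℕ) :
      SB P → SB (fun A v => ∃ x, x ≤ eval v p ∧ P A (fun o => o.elim x v))

theorem PF.upp {κ : Type} {f : (κ → ℕ) → ℕ} (hf : PF f) :
    PF (fun w : Option κ → ℕ => f (fun i => w (some i))) := hf.comp fun i => PF.proj (some i)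

namespace SB

variable {σ τ ι κ : Type} {P Q : (σ → ℕ → Prop) → (ι → ℕ) → Prop}

theorem congr (h : SB P) (hPQ : ∀ A v, Q A v ↔ P A v) : SB Q := by
  have : Q = P := by
    funext A v
    exact propext (hPQ A v)
  rw [this]
  exact h

theorem eqf {f g : (ι → ℕ) → ℕ} (hf : PF f) (hg : PF g) :
    SB (fun (_ : σ → ℕ → Prop) v => f v = g v) := by
  obtain ⟨p, hp⟩ := hf
  obtain ⟨q, hq⟩ := hg
  exact (SB.eq p q).congr fun A v => by rw [hp, hq]

theorem lef {f g : (ι → ℕ) → ℕ} (hf : PF f) (hg : PF g) :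
    SB (fun (_ : σ → ℕ → Prop) v => f v ≤ g v) := by
  obtain ⟨p, hp⟩ := hf
  obtain ⟨q, hq⟩ := hg
  exact (SB.le p q).congr fun A v => by rw [hp, hq]

theorem ltf {f g : (ι → ℕ) → ℕ} (hf : PF f) (hg : PF g) :
    SB (fun (_ : σ → ℕ → Prop) v => f v < g v) :=
  (lef (hf.add (PF.const 1)) hg).congr fun _ _ => Iff.rfl

theorem memf (s : σ) {f : (ι → ℕ) → ℕ} (hf : PF f) : SB (fun A v => A s (f v)) := by
  obtain ⟨p, hp⟩ := hf
  exact (SB.mem s p).congr fun A v => by rw [hp]

theorem or (hP : SB P) (hQ : SB Q) : SB (fun A v => P A v ∨ Q A v) :=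
  (SB.not (SB.and (SB.not hP) (SB.not hQ))).congr fun A v => by tauto

theorem imp (hP : SB P) (hQ : SB Q) : SB (fun A v => P A v → Q A v) :=
  (SB.not (SB.and hP (SB.not hQ))).congr fun A v => by tauto

theorem iff (hP : SB P) (hQ : SB Q) : SB (fun A v => (P A v ↔ Q A v)) :=
  (SB.and (hP.imp hQ) (hQ.imp hP)).congr fun A v => by tauto

theorem ex_le {P : (σ → ℕ → Prop) → (ι → ℕ) → ℕ → Prop} {b : (ι → ℕ) → ℕ} (hb : PF b)
    (hP : SB (fun A (w : Option ι → ℕ) => P A (fun i => w (some i)) (w none))) :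
    SB (fun A v => ∃ x ≤ b v, P A v x) := by
  obtain ⟨p, hp⟩ := hb
  exact (SB.ex p hP).congr fun A v => by simp only [hp]; rfl

theorem all_le {P : (σ → ℕ → Prop) → (ι → ℕ) → ℕ → Prop} {b : (ι → ℕ) → ℕ} (hb : PF b)
    (hP : SB (fun A (w : Option ι → ℕ) => P A (fun i => w (some i)) (w none))) :
    SB (fun A v => ∀ x ≤ b v, P A v x) :=
  (SB.not (ex_le hb (P := fun A v x => ¬ P A v x) (SB.not hP))).congr fun A v => by
    push Not
    rfl

theorem all_lt {P : (σ → ℕ → Prop) → (ι → ℕ) → ℕ → Prop} {b : (ι → ℕ) → ℕ} (hb : PF b)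
    (hP : SB (fun A (w : Option ι → ℕ) => P A (fun i => w (some i)) (w none))) :
    SB (fun A v => ∀ x < b v, P A v x) :=
  (all_le hb (P := fun A v x => x < b v → P A v x) (SB.imp (ltf (PF.proj none)
    (hb.comp fun i => PF.proj (some i))) hP)).congr fun A v => by
    constructor
    · intro h x _ hx; exact h x hx
    · intro h x hx; exact h x hx.le hx

theorem ex_lt {P : (σ → ℕ → Prop) → (ι → ℕ) → ℕ → Prop} {b : (ι → ℕ) → ℕ} (hb : PF b)
    (hP : SB (fun A (w : Option ι → ℕ) => P A (fun i => w (some i)) (w none))) :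
    SB (fun A v => ∃ x < b v, P A v x) :=
  (ex_le hb (P := fun A v x => x < b v ∧ P A v x) (SB.and (ltf (PF.proj none)
    (hb.comp fun i => PF.proj (some i))) hP)).congr fun A v => by
    constructor
    · rintro ⟨x, hx, h⟩; exact ⟨x, hx.le, hx, h⟩
    · rintro ⟨x, _, hx, h⟩; exact ⟨x, hx, h⟩

theorem const (p : Prop) : SB (fun (_ : σ → ℕ → Prop) (_ : ι → ℕ) => p) := by
  by_cases hp : p
  · exact (eqf (PF.const 0) (PF.const 0)).congr fun A v => by simp [hp]
  · exact (eqf (PF.const 0) (PF.const 1)).congr fun A v => by simp [hp]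

theorem allFin (m : ℕ) {P : Fin m → (σ → ℕ → Prop) → (ι → ℕ) → Prop} (hP : ∀ i, SB (P i)) :
    SB (fun A v => ∀ i, P i A v) := by
  induction m with
  | zero => exact (const True).congr fun A v => by simp
  | succ m ih =>
    exact (SB.and (hP 0) (ih fun i => hP i.succ)).congr fun A v => Fin.forall_fin_succ

/-- substitution for the number variables -/
theorem subst {P : (σ → ℕ → Prop) → (κ → ℕ) → Prop} (hP : SB P) :
    ∀ {ι : Type} {f : κ → (ι → ℕ) → ℕ}, (∀ i, PF (f i)) → SB (fun A v => P A (fun i => f i v)) := by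
  induction hP with
  | eq p q => exact fun hf => eqf (PF.comp ⟨p, fun _ => rfl⟩ hf) (PF.comp ⟨q, fun _ => rfl⟩ hf)
  | le p q => exact fun hf => lef (PF.comp ⟨p, fun _ => rfl⟩ hf) (PF.comp ⟨q, fun _ => rfl⟩ hf)
  | mem s p => exact fun hf => memf s (PF.comp ⟨p, fun _ => rfl⟩ hf)
  | not _ ih => exact fun hf => SB.not (ih hf)
  | and _ _ ih1 ih2 => exact fun hf => SB.and (ih1 hf) (ih2 hf)
  | @ex κ P p _ ih =>
    intro ι f hf
    refine ex_le (b := fun v => eval (fun i => f i v) p)
      (P := fun A v x => P A (fun o => o.elim x (fun i => f i v)))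
      (PF.comp ⟨p, fun _ => rfl⟩ hf) ?_
    refine (ih (f := fun o w => o.elim (w none) (fun i => f i (fun j => w (some j)))) ?_).congr
      fun A w => Iff.rfl
    intro o
    cases o with
    | none => exact PF.proj none
    | some i => exact (hf i).comp fun j => PF.proj (some j)

/-- substitution for the set variables -/
theorem substRel (hP : SB P) : ∀ {τ : Type} {D : σ → (τ → ℕ → Prop) → (ι → ℕ) → ℕ → Prop},
    (∀ s, SB (fun B (w : Option ι → ℕ) => D s B (fun i => w (some i)) (w none))) →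
    SB (fun B v => P (fun s x => D s B v x) v) := by
  induction hP with
  | eq p q => exact fun _ => SB.eq p q
  | le p q => exact fun _ => SB.le p q
  | @mem ι s p =>
    intro τ D hD
    refine ((hD s).subst (f := fun o v => o.elim (eval v p) v) ?_).congr fun B v => Iff.rfl
    intro o
    cases o with
    | none => exact ⟨p, fun _ => rfl⟩
    | some i => exact PF.proj i
  | not _ ih => exact fun hD => SB.not (ih hD)
  | and _ _ ih1 ih2 => exact fun hD => SB.and (ih1 hD) (ih2 hD)
  | @ex ι P p _ ih =>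
    intro τ D hD
    refine ex_le (b := fun v => eval v p)
      (P := fun B v x => P (fun s y => D s B v y) (fun o => o.elim x v)) ⟨p, fun _ => rfl⟩ ?_
    have h := ih (D := fun s B (w : Option ι → ℕ) y => D s B (fun i => w (some i)) y) fun s =>
      ((hD s).subst (ι := Option (Option ι)) (f := fun o w => o.elim (w none)
        (fun i => w (some (some i)))) (by
          intro o
          cases o with
          | none => exact PF.proj none
          | some i => exact PF.proj _)).congr fun B w => Iff.rfl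
    refine h.congr fun B w => ?_
    have : (fun o : Option ι => o.elim (w none) fun i => w (some i)) = w := by
      funext o
      cases o <;> rfl
    rw [this]

/-- renaming of set variables -/
theorem mapRel (hP : SB P) (f : σ → τ) : SB (fun (B : τ → ℕ → Prop) v => P (fun s => B (f s)) v) :=
  hP.substRel (D := fun s B _ x => B (f s) x) fun s => memf (f s) (PF.proj none)

/-- a vector of bounded quantifiers -/
theorem exVec (k : ℕ) : ∀ {ι : Type} {P : (σ → ℕ → Prop) → (ι → ℕ) → (Fin k → ℕ) → Prop}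
    {b : (ι → ℕ) → ℕ}, PF b →
    SB (fun A (w : ι ⊕ Fin k → ℕ) => P A (fun i => w (Sum.inl i)) (fun j => w (Sum.inr j))) →
    SB (fun A v => ∃ y : Fin k → ℕ, (∀ i, y i ≤ b v) ∧ P A v y) := by
  induction k with
  | zero =>
    intro ι P b _ hP
    refine (hP.subst (f := fun s (v : ι → ℕ) => Sum.elim (fun i => v i)
      (fun j : Fin 0 => j.elim0) s) ?_).congr fun A v => ?_
    · intro s
      cases s with
      | inl i => exact PF.proj i
      | inr j => exact j.elim0
    · constructor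
      · rintro ⟨y, _, h2⟩
        have : y = fun j : Fin 0 => j.elim0 := funext fun j => j.elim0
        rw [this] at h2
        exact h2
      · intro h
        exact ⟨fun j => j.elim0, fun i => i.elim0, h⟩
  | succ k ih =>
    intro ι P b hb hP
    refine (ex_le (P := fun A v x => ∃ y : Fin k → ℕ, (∀ i, y i ≤ b v) ∧
      P A v (Matrix.vecCons x y)) hb
      (ih (P := fun A w y => P A (fun i => w (some i)) (Matrix.vecCons (w none) y))
        (b := fun w : Option ι → ℕ => b (fun i => w (some i)))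
        (hb.comp fun i => PF.proj (some i)) ?_)).congr fun A v => ?_
    · refine (hP.subst (f := fun s w => Sum.elim (fun i => w (Sum.inl (some i)))
        (Matrix.vecCons (w (Sum.inl none)) (fun j => w (Sum.inr j))) s) ?_).congr
        fun A w => Iff.rfl
      intro s
      cases s with
      | inl i => exact PF.proj (Sum.inl (some i))
      | inr o =>
        refine Fin.cases ?_ (fun j => ?_) o
        · exact PF.proj (Sum.inl none)
        · exact PF.proj (Sum.inr j)
    · constructor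
      · rintro ⟨y, h1, h2⟩
        refine ⟨y 0, h1 _, fun j => y j.succ, fun i => h1 _, ?_⟩
        have : (Matrix.vecCons (y 0) (fun j => y j.succ) : Fin (k + 1) → ℕ) = y := by
          funext o
          refine Fin.cases rfl (fun j => rfl) o
        rw [this]
        exact h2
      · rintro ⟨x, hx, y, h1, h2⟩
        exact ⟨Matrix.vecCons x y, fun i => Fin.cases hx h1 i, h2⟩

end SB

/-! ### Pairing -/

/-- an injective polynomial pairing -/
def pr (a b : ℕ) : ℕ := (a + b) ^ 2 + a

theorem pr_inj {a b c d : ℕ} (h : pr a b = pr c d) : a = c ∧ b = d := by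
  unfold pr at h
  have h1 : a + b = c + d := by
    rcases lt_trichotomy (a + b) (c + d) with h2 | h2 | h2
    · nlinarith
    · exact h2
    · nlinarith
  rw [h1] at h
  omega

theorem PF.pr {ι : Type} {f g : (ι → ℕ) → ℕ} (hf : PF f) (hg : PF g) :
    PF (fun v => AS.pr (f v) (g v)) := ((hf.add hg).pow 2).add hf

/-- codes of vectors -/
def enc : {k : ℕ} → (Fin k → ℕ) → ℕ
  | 0, _ => 0
  | _ + 1, x => pr (x 0) (enc fun i => x i.succ)

theorem enc_inj : ∀ {k : ℕ} {x y : Fin k → ℕ}, enc x = enc y → x = y := by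
  intro k
  induction k with
  | zero => exact fun _ => funext fun i => i.elim0
  | succ k ih =>
    intro x y h
    obtain ⟨h1, h2⟩ := pr_inj h
    funext i
    refine Fin.cases h1 (fun j => congrFun (ih h2) j) i

theorem PF.enc {ι : Type} : ∀ {k : ℕ} {f : Fin k → (ι → ℕ) → ℕ}, (∀ i, PF (f i)) →
    PF (fun v => AS.enc (fun i => f i v)) := by
  intro k
  induction k with
  | zero => exact fun _ => PF.const 0
  | succ k ih => exact fun hf => PF.pr (hf 0) (ih fun i => hf i.succ)

/-! ### Existential second-order formulas -/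

/-- `P` is defined by a formula `∃ A, Φ` with `Φ` bounded; `τ` are free set variables. -/
def SE {τ ι : Type} (P : (τ → ℕ → Prop) → (ι → ℕ) → Prop) : Prop :=
  ∃ (σ : Type) (Φ : (τ ⊕ σ → ℕ → Prop) → (ι → ℕ) → Prop), SB Φ ∧
    ∀ B v, P B v ↔ ∃ A : σ → ℕ → Prop, Φ (Sum.elim B A) v

namespace SE

variable {τ τ' ι κ : Type} {P Q : (τ → ℕ → Prop) → (ι → ℕ) → Prop}

theorem congr (h : SE P) (hPQ : ∀ B v, Q B v ↔ P B v) : SE Q := by
  have : Q = P := by
    funext A v
    exact propext (hPQ A v)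
  rw [this]
  exact h

theorem of_sb (hP : SB P) : SE P := by
  refine ⟨Empty, fun A v => P (fun s => A (Sum.inl s)) v, hP.mapRel Sum.inl, fun B v => ?_⟩
  constructor
  · intro h
    exact ⟨fun e => e.elim, h⟩
  · rintro ⟨A, h⟩
    exact h

theorem and (hP : SE P) (hQ : SE Q) : SE (fun B v => P B v ∧ Q B v) := by
  obtain ⟨σ, Φ, hΦ, h1⟩ := hP
  obtain ⟨σ', Ψ, hΨ, h2⟩ := hQ
  refine ⟨σ ⊕ σ', fun A v => Φ (fun s => A (Sum.map id Sum.inl s)) v ∧
    Ψ (fun s => A (Sum.map id Sum.inr s)) v, (hΦ.mapRel _).and (hΨ.mapRel _), fun B v => ?_⟩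
  have e1 : ∀ (A : σ ⊕ σ' → ℕ → Prop), (fun s : τ ⊕ σ => Sum.elim B A (Sum.map id Sum.inl s)) =
      Sum.elim B (fun s => A (Sum.inl s)) := by
    intro A
    funext s
    rcases s with t | s <;> rfl
  have e2 : ∀ (A : σ ⊕ σ' → ℕ → Prop), (fun s : τ ⊕ σ' => Sum.elim B A (Sum.map id Sum.inr s)) =
      Sum.elim B (fun s => A (Sum.inr s)) := by
    intro A
    funext s
    rcases s with t | s <;> rfl
  simp only [e1, e2]
  rw [h1, h2]
  constructor
  · rintro ⟨⟨A, hA⟩, A', hA'⟩
    exact ⟨Sum.elim A A', hA, hA'⟩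
  · rintro ⟨A, hA, hA'⟩
    exact ⟨⟨_, hA⟩, _, hA'⟩

theorem or (hP : SE P) (hQ : SE Q) : SE (fun B v => P B v ∨ Q B v) := by
  obtain ⟨σ, Φ, hΦ, h1⟩ := hP
  obtain ⟨σ', Ψ, hΨ, h2⟩ := hQ
  refine ⟨σ ⊕ σ', fun A v => Φ (fun s => A (Sum.map id Sum.inl s)) v ∨
    Ψ (fun s => A (Sum.map id Sum.inr s)) v, (hΦ.mapRel _).or (hΨ.mapRel _), fun B v => ?_⟩
  have e1 : ∀ (A : σ ⊕ σ' → ℕ → Prop), (fun s : τ ⊕ σ => Sum.elim B A (Sum.map id Sum.inl s)) =
      Sum.elim B (fun s => A (Sum.inl s)) := by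
    intro A
    funext s
    rcases s with t | s <;> rfl
  have e2 : ∀ (A : σ ⊕ σ' → ℕ → Prop), (fun s : τ ⊕ σ' => Sum.elim B A (Sum.map id Sum.inr s)) =
      Sum.elim B (fun s => A (Sum.inr s)) := by
    intro A
    funext s
    rcases s with t | s <;> rfl
  simp only [e1, e2]
  rw [h1, h2]
  constructor
  · rintro (⟨A, hA⟩ | ⟨A', hA'⟩)
    · exact ⟨Sum.elim A (fun _ _ => False), Or.inl hA⟩
    · exact ⟨Sum.elim (fun _ _ => False) A', Or.inr hA'⟩
  · rintro ⟨A, hA | hA'⟩
    · exact Or.inl ⟨_, hA⟩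
    · exact Or.inr ⟨_, hA'⟩

theorem imp_sb (hP : SB P) (hQ : SE Q) : SE (fun B v => P B v → Q B v) :=
  ((of_sb (SB.not hP)).or hQ).congr fun B v => by tauto

theorem subst {P : (τ → ℕ → Prop) → (κ → ℕ) → Prop} (hP : SE P) {f : κ → (ι → ℕ) → ℕ}
    (hf : ∀ i, PF (f i)) : SE (fun B v => P B (fun i => f i v)) := by
  obtain ⟨σ, Φ, hΦ, h⟩ := hP
  exact ⟨σ, fun A v => Φ A (fun i => f i v), hΦ.subst hf, fun B v => h B _⟩

theorem mapRel (hP : SE P) (f : τ → τ') : SE (fun B v => P (fun s => B (f s)) v) := by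
  obtain ⟨σ, Φ, hΦ, h⟩ := hP
  refine ⟨σ, fun A v => Φ (fun s => A (Sum.map f id s)) v, hΦ.mapRel _, fun B v => ?_⟩
  beta_reduce
  rw [h]
  refine exists_congr fun A => ?_
  have : (fun s : τ ⊕ σ => Sum.elim B A (Sum.map f id s)) = Sum.elim (fun s => B (f s)) A := by
    funext s
    rcases s with t | s <;> rfl
  rw [this]

/-- quantification of a set variable -/
theorem exRel {τ' : Type} {P : (τ ⊕ τ' → ℕ → Prop) → (ι → ℕ) → Prop} (hP : SE P) :
    SE (fun (B : τ → ℕ → Prop) v => ∃ C : τ' → ℕ → Prop, P (Sum.elim B C) v) := by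
  obtain ⟨σ, Φ, hΦ, h⟩ := hP
  refine ⟨τ' ⊕ σ, fun A v => Φ (fun s => A (Equiv.sumAssoc τ τ' σ s)) v, hΦ.mapRel _,
    fun B v => ?_⟩
  have e : ∀ (C : τ' → ℕ → Prop) (A : σ → ℕ → Prop),
      (fun s => Sum.elim B (Sum.elim C A) (Equiv.sumAssoc τ τ' σ s)) =
        Sum.elim (Sum.elim B C) A := by
    intro C A
    funext s
    rcases s with (s | s) | s <;> rfl
  constructor
  · rintro ⟨C, hC⟩
    obtain ⟨A, hA⟩ := (h _ _).1 hC
    exact ⟨Sum.elim C A, by beta_reduce; rw [e]; exact hA⟩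
  · rintro ⟨A, hA⟩
    refine ⟨fun s => A (Sum.inl s), (h _ _).2 ⟨fun s => A (Sum.inr s), ?_⟩⟩
    rw [← e]
    have : Sum.elim (fun s => A (Sum.inl s)) (fun s => A (Sum.inr s)) = A := by
      funext s
      rcases s with s | s <;> rfl
    rw [this]
    exact hA

theorem ex_le {P : (τ → ℕ → Prop) → (ι → ℕ) → ℕ → Prop} {b : (ι → ℕ) → ℕ} (hb : PF b)
    (hP : SE (fun B (w : Option ι → ℕ) => P B (fun i => w (some i)) (w none))) :
    SE (fun B v => ∃ x ≤ b v, P B v x) := by
  obtain ⟨σ, Φ, hΦ, h⟩ := hP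
  refine ⟨σ, fun A v => ∃ x ≤ b v, Φ A (fun o => o.elim x v),
    SB.ex_le hb (P := fun A v x => Φ A (fun o => o.elim x v)) (hΦ.congr fun A w => ?_),
    fun B v => ?_⟩
  · have : (fun o : Option ι => o.elim (w none) fun i => w (some i)) = w := by
      funext o
      cases o <;> rfl
    rw [this]
  · constructor
    · rintro ⟨x, hx, hP⟩
      obtain ⟨A, hA⟩ := (h B (fun o => o.elim x v)).1 hP
      exact ⟨A, x, hx, hA⟩
    · rintro ⟨A, x, hx, hA⟩
      exact ⟨x, hx, (h B (fun o => o.elim x v)).2 ⟨A, hA⟩⟩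

theorem all_le {P : (τ → ℕ → Prop) → (ι → ℕ) → ℕ → Prop} {b : (ι → ℕ) → ℕ} (hb : PF b)
    (hP : SE (fun B (w : Option ι → ℕ) => P B (fun i => w (some i)) (w none))) :
    SE (fun B v => ∀ x ≤ b v, P B v x) := by
  obtain ⟨σ, Φ, hΦ, h⟩ := hP
  refine ⟨σ, fun A v => ∀ x ≤ b v, Φ (Sum.elim (fun t => A (Sum.inl t))
    (fun s y => A (Sum.inr s) (pr x y))) (fun o => o.elim x v), ?_, fun B v => ?_⟩
  · refine SB.all_le hb (P := fun A v x => Φ (Sum.elim (fun t => A (Sum.inl t))
      (fun s y => A (Sum.inr s) (pr x y))) (fun o => o.elim x v)) ?_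
    refine (hΦ.substRel (D := fun s A (w : Option ι → ℕ) y => Sum.elim (fun t => A (Sum.inl t))
      (fun s y => A (Sum.inr s) (pr (w none) y)) s y) ?_).congr fun A w => ?_
    · rintro (t | s)
      · exact SB.memf (Sum.inl t) (PF.proj none)
      · exact SB.memf (Sum.inr s) (PF.pr (PF.proj (some none)) (PF.proj none))
    · have : (fun o : Option ι => o.elim (w none) fun i => w (some i)) = w := by
        funext o
        cases o <;> rfl
      rw [this]
  · constructor
    · intro hP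
      have h1 : ∀ x, ∃ A : σ → ℕ → Prop, x ≤ b v → Φ (Sum.elim B A) (fun o => o.elim x v) := by
        intro x
        by_cases hx : x ≤ b v
        · obtain ⟨A, hA⟩ := (h B (fun o => o.elim x v)).1 (hP x hx)
          exact ⟨A, fun _ => hA⟩
        · exact ⟨fun _ _ => False, fun h => absurd h hx⟩
      choose A hA using h1
      refine ⟨fun s z => ∃ x y, z = pr x y ∧ A x s y, fun x hx => ?_⟩
      have : (Sum.elim (fun t => Sum.elim B (fun (s : σ) z => ∃ x y, z = pr x y ∧ A x s y)
          (Sum.inl t)) (fun s y => Sum.elim B (fun (s : σ) z => ∃ x y, z = pr x y ∧ A x s y)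
            (Sum.inr s) (pr x y)) : τ ⊕ σ → ℕ → Prop) = Sum.elim B (A x) := by
        funext s y
        rcases s with t | s
        · rfl
        · simp only [Sum.elim_inr]
          apply propext
          constructor
          · rintro ⟨x', y', he, h1⟩
            obtain ⟨rfl, rfl⟩ := pr_inj he
            exact h1
          · intro h1
            exact ⟨x, y, rfl, h1⟩
      rw [this]
      exact hA x hx
    · rintro ⟨A, hA⟩ x hx
      exact (h B (fun o => o.elim x v)).2 ⟨_, hA x hx⟩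

theorem ex_lt {P : (τ → ℕ → Prop) → (ι → ℕ) → ℕ → Prop} {b : (ι → ℕ) → ℕ} (hb : PF b)
    (hP : SE (fun B (w : Option ι → ℕ) => P B (fun i => w (some i)) (w none))) :
    SE (fun B v => ∃ x < b v, P B v x) :=
  (ex_le hb (P := fun B v x => x < b v ∧ P B v x) ((of_sb (SB.ltf (PF.proj none)
    (hb.comp fun i => PF.proj (some i)))).and hP)).congr fun B v => by
    constructor
    · rintro ⟨x, hx, h⟩; exact ⟨x, hx.le, hx, h⟩
    · rintro ⟨x, _, hx, h⟩; exact ⟨x, hx, h⟩

theorem all_lt {P : (τ → ℕ → Prop) → (ι → ℕ) → ℕ → Prop} {b : (ι → ℕ) → ℕ} (hb : PF b)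
    (hP : SE (fun B (w : Option ι → ℕ) => P B (fun i => w (some i)) (w none))) :
    SE (fun B v => ∀ x < b v, P B v x) :=
  (all_le hb (P := fun B v x => x < b v → P B v x) (imp_sb (SB.ltf (PF.proj none)
    (hb.comp fun i => PF.proj (some i))) hP)).congr fun B v => by
    constructor
    · intro h x _ hx; exact h x hx
    · intro h x hx; exact h x hx.le hx

/-- counting: there are at least `k` numbers `≤ b` with the property `P` -/
theorem count {P : (τ → ℕ → Prop) → (ι → ℕ) → ℕ → Prop} {b k : (ι → ℕ) → ℕ} (hb : PF b)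
    (hk : PF k) (hP : SE (fun B (w : Option ι → ℕ) => P B (fun i => w (some i)) (w none))) :
    SE (fun B v => k v ≤ {x | x ≤ b v ∧ P B v x}.ncard) := by
  have h1 : SE (fun (B : τ ⊕ Unit → ℕ → Prop) (v : ι → ℕ) => (∀ i < k v, ∃ x ≤ b v,
      B (Sum.inr ()) (pr i x) ∧ P (fun t => B (Sum.inl t)) v x) ∧
      ∀ i < k v, ∀ j < k v, ∀ x ≤ b v, B (Sum.inr ()) (pr i x) → B (Sum.inr ()) (pr j x) →
        i = j) := by
    refine SE.and ?_ (of_sb ?_)
    · refine all_lt hk (P := fun B v i => ∃ x ≤ b v,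
        B (Sum.inr ()) (pr i x) ∧ P (fun t => B (Sum.inl t)) v x) ?_
      refine ex_le (b := fun w : Option ι → ℕ => b (fun i => w (some i))) (P := fun B w x =>
        B (Sum.inr ()) (pr (w none) x) ∧ P (fun t => B (Sum.inl t)) (fun i => w (some i)) x)
        (PF.upp hb) ?_
      refine (of_sb (SB.memf (Sum.inr ()) (PF.pr (PF.proj (some none)) (PF.proj none)))).and ?_
      refine ((hP.mapRel (τ' := τ ⊕ Unit) Sum.inl).subst (ι := Option (Option ι))
        (f := fun o w => o.elim (w none) (fun i => w (some (some i)))) ?_).congr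
        fun B w => Iff.rfl
      intro o
      cases o with
      | none => exact PF.proj none
      | some i => exact PF.proj _
    · refine SB.all_lt hk (P := fun B v i => ∀ j < k v, ∀ x ≤ b v, B (Sum.inr ()) (pr i x) →
        B (Sum.inr ()) (pr j x) → i = j) ?_
      refine SB.all_lt (b := fun w : Option ι → ℕ => k (fun i => w (some i))) (P := fun B w j =>
        ∀ x ≤ b (fun i => w (some i)), B (Sum.inr ()) (pr (w none) x) →
        B (Sum.inr ()) (pr j x) → w none = j) (PF.upp hk) ?_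
      refine SB.all_le (b := fun w : Option (Option ι) → ℕ => b (fun i => w (some (some i))))
        (P := fun B w x => B (Sum.inr ()) (pr (w (some none)) x) →
        B (Sum.inr ()) (pr (w none) x) → w (some none) = w none) (PF.upp (PF.upp hb)) ?_
      exact (SB.memf (Sum.inr ()) (PF.pr (PF.proj (some (some none))) (PF.proj none))).imp
        ((SB.memf (Sum.inr ()) (PF.pr (PF.proj (some none)) (PF.proj none))).imp
          (SB.eqf (PF.proj (some (some none))) (PF.proj (some none))))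
  refine (SE.exRel h1).congr fun B v => ?_
  have hfin : {x | x ≤ b v ∧ P B v x}.Finite := (Set.finite_le_nat (b v)).subset fun x hx => hx.1
  constructor
  · intro h
    rw [Set.ncard_eq_toFinset_card _ hfin] at h
    have hc : (Finset.range (k v)).card ≤ hfin.toFinset.card := by
      rw [Finset.card_range]
      exact h
    obtain ⟨f, hf1, hf2⟩ := Finset.exists_subset_card_eq (s := hfin.toFinset) (n := k v) h
    have e : Fin (k v) ≃ f := (Fintype.equivFinOfCardEq (by simp [hf2])).symm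
    refine ⟨fun _ z => ∃ (i : ℕ) (hi : i < k v), z = pr i (e ⟨i, hi⟩).1, ?_, ?_⟩
    · intro i hi
      have h3 := hf1 (e ⟨i, hi⟩).2
      rw [Set.Finite.mem_toFinset] at h3
      exact ⟨(e ⟨i, hi⟩).1, h3.1, ⟨i, hi, rfl⟩, h3.2⟩
    · rintro i hi j hj x _ ⟨i', hi', he⟩ ⟨j', hj', he'⟩
      obtain ⟨rfl, rfl⟩ := pr_inj he
      obtain ⟨rfl, h4⟩ := pr_inj he'
      have := e.injective (Subtype.ext h4)
      exact congrArg Fin.val this
  · rintro ⟨C, h2, h3⟩
    choose f hf1 hf2 hf3 using h2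
    rw [Set.ncard_eq_toFinset_card _ hfin]
    have : (Finset.univ : Finset (Fin (k v))).card ≤ hfin.toFinset.card := by
      refine Finset.card_le_card_of_injOn (fun i => f i.1 i.2) ?_ ?_
      · intro i _
        rw [Finset.mem_coe, Set.Finite.mem_toFinset]
        exact ⟨hf1 _ _, hf3 _ _⟩
      · intro i _ j _ he
        beta_reduce at he
        apply Fin.ext
        refine h3 i.1 i.2 j.1 j.2 (f i.1 i.2) (hf1 _ _) (hf2 _ _) ?_
        rw [he]
        exact hf2 _ _
    simpa using this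

end SE

end Pool.Agent.J4H63.AS
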