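import Pool.Agent.J4H63.AS.FromSpec

/-!
# Existential second-order definable sets are spectra
-/

namespace Pool.Agent.J4H63.AS

open MvPolynomial GZ

section

variable {σ σ' ι κ : Type} {P Q : ℕ → (σ → List ℕ → Prop) → (ι → ℕ) → Prop}

/-- only the values of the relation variables on the universe matter -/
theorem Def.congr_rel (hP : Def P) : ∀ (n : ℕ) (R R' : σ → List ℕ → Prop) (v : ι → ℕ),
    (∀ i, v i < n) → (∀ s l, (∀ x ∈ l, x < n) → (R s l ↔ R' s l)) → (P n R v ↔ P n R' v) := by
  induction hP with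
  | eq i j => exact fun n R R' v _ _ => Iff.rfl
  | lt i j => exact fun n R R' v _ _ => Iff.rfl
  | rel s l =>
    intro n R R' v hv h
    refine h s _ fun x hx => ?_
    rw [List.mem_map] at hx
    obtain ⟨i, _, rfl⟩ := hx
    exact hv i
  | not _ ih => exact fun n R R' v hv h => not_congr (ih n R R' v hv h)
  | and _ _ ih1 ih2 => exact fun n R R' v hv h => and_congr (ih1 n R R' v hv h) (ih2 n R R' v hv h)
  | ex _ ih =>
    intro n R R' v hv h
    refine exists_congr fun x => and_congr_right fun hx => ih n R R' _ ?_ h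
    intro o
    cases o with
    | none => exact hx
    | some i => exact hv i

/-- restriction of the relation variables to sequences of a fixed length -/
theorem Def.norm (len : σ → ℕ) (hP : Def P) :
    Def (fun n R v => P n (fun s l => l.length = len s ∧ R s l) v) := by
  induction hP with
  | eq i j => exact Def.eq i j
  | lt i j => exact Def.lt i j
  | rel s l =>
    refine (Def.and (Def.const (l.length = len s)) (Def.rel s l)).congr fun n R v => ?_
    beta_reduce
    rw [List.length_map]
  | not _ ih => exact Def.not ih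
  | and _ _ ih1 ih2 => exact Def.and ih1 ih2
  | ex _ ih => exact Def.ex ih

/-- a vector of quantifiers -/
theorem Def.exVec (c : ℕ) : ∀ {ι : Type} {P : ℕ → (σ → List ℕ → Prop) → (ι → ℕ) → (Fin c → ℕ) → Prop},
    Def (fun n R (w : ι ⊕ Fin c → ℕ) => P n R (fun i => w (Sum.inl i)) (fun j => w (Sum.inr j))) →
    Def (fun n R v => ∃ y : Fin c → ℕ, (∀ j, y j < n) ∧ P n R v y) := by
  induction c with
  | zero =>
    intro ι P hP
    refine (hP.subst (κ := ι) (fun s => Sum.elim id (fun j : Fin 0 => j.elim0) s)).congr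
      fun n R v => ?_
    have e : ∀ y : Fin 0 → ℕ, y = fun j => v (Sum.elim id (fun j : Fin 0 => j.elim0) (Sum.inr j)) :=
      fun y => funext fun j => j.elim0
    constructor
    · rintro ⟨y, _, h⟩
      rw [e y] at h
      exact h
    · intro h
      exact ⟨_, fun j => j.elim0, h⟩
  | succ c ih =>
    intro ι P hP
    refine (Def.ex' (P := fun n R v x => ∃ y : Fin c → ℕ, (∀ j, y j < n) ∧
      P n R v (Matrix.vecCons x y)) (ih (P := fun n R (w : Option ι → ℕ) y =>
        P n R (fun i => w (some i)) (Matrix.vecCons (w none) y)) ?_)).congr fun n R v => ?_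
    · refine (hP.subst (κ := Option ι ⊕ Fin c) (fun s => Sum.elim (fun i => Sum.inl (some i))
        (fun j => Fin.cases (Sum.inl none) (fun j => Sum.inr j) j) s)).congr fun n R w => ?_
      have : (Matrix.vecCons (w (Sum.inl none)) (fun j => w (Sum.inr j)) : Fin (c + 1) → ℕ) =
          fun j => w (Sum.elim (fun i => Sum.inl (some i))
            (fun j => Fin.cases (Sum.inl none) (fun j => Sum.inr j) j)
              (Sum.inr j : ι ⊕ Fin (c + 1))) := by
        funext j
        refine Fin.cases rfl (fun j => rfl) j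
      rw [this]
      exact Iff.rfl
    · constructor
      · rintro ⟨y, h1, h2⟩
        refine ⟨y 0, h1 0, fun j => y j.succ, fun j => h1 _, ?_⟩
        have : (Matrix.vecCons (y 0) (fun j => y j.succ) : Fin (c + 1) → ℕ) = y := by
          funext o
          refine Fin.cases rfl (fun j => rfl) o
        rw [this]
        exact h2
      · rintro ⟨x, hx, y, h1, h2⟩
        exact ⟨Matrix.vecCons x y, fun i => Fin.cases hx h1 i, h2⟩

end

/-! ### Arithmetic on an initial segment -/

section

variable {σ ι κ : Type}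

/-- the graphs of addition and multiplication -/
def ar (i : Fin 2) (l : List ℕ) : Prop :=
  ∃ x y, l = [x, y, if i = 0 then x + y else x * y]

/-- sets and arithmetic as relations -/
def RA (A : σ → ℕ → Prop) : σ ⊕ Fin 2 → List ℕ → Prop :=
  Sum.elim (fun s l => ∃ x, l = [x] ∧ A s x) ar

/-- first-order definability on an initial segment, with addition and multiplication -/
def Rep (P : ℕ → (σ → ℕ → Prop) → (ι → ℕ) → Prop) : Prop :=
  ∃ Q, Def (σ := σ ⊕ Fin 2) Q ∧ ∀ n A v, (∀ i, v i < n) → (P n A v ↔ Q n (RA A) v)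

namespace Rep

variable {P Q : ℕ → (σ → ℕ → Prop) → (ι → ℕ) → Prop}

theorem congr (h : Rep P) (hPQ : ∀ n A v, (∀ i, v i < n) → (Q n A v ↔ P n A v)) : Rep Q := by
  obtain ⟨D, hD, h⟩ := h
  exact ⟨D, hD, fun n A v hv => (hPQ n A v hv).trans (h n A v hv)⟩

theorem eq (i j : ι) : Rep (fun _ (_ : σ → ℕ → Prop) v => v i = v j) :=
  ⟨_, Def.eq i j, fun _ _ _ _ => Iff.rfl⟩

theorem lt (i j : ι) : Rep (fun _ (_ : σ → ℕ → Prop) v => v i < v j) :=
  ⟨_, Def.lt i j, fun _ _ _ _ => Iff.rfl⟩

theorem mem (s : σ) (i : ι) : Rep (fun _ (A : σ → ℕ → Prop) v => A s (v i)) := by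
  refine ⟨_, Def.rel (Sum.inl s) [i], fun n A v _ => ?_⟩
  constructor
  · intro h
    exact ⟨v i, rfl, h⟩
  · rintro ⟨x, h1, h2⟩
    have : v i = x := by simpa using h1
    rw [this]
    exact h2

theorem add (i j k : ι) : Rep (fun _ (_ : σ → ℕ → Prop) v => v i + v j = v k) := by
  refine ⟨_, Def.rel (Sum.inr 0) [i, j, k], fun n A v _ => ?_⟩
  constructor
  · intro h
    exact ⟨v i, v j, by simp [h]⟩
  · rintro ⟨x, y, h⟩
    simp at h
    omega

theorem mul (i j k : ι) : Rep (fun _ (_ : σ → ℕ → Prop) v => v i * v j = v k) := by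
  refine ⟨_, Def.rel (Sum.inr 1) [i, j, k], fun n A v _ => ?_⟩
  constructor
  · intro h
    exact ⟨v i, v j, by simp [h]⟩
  · rintro ⟨x, y, h⟩
    simp at h
    obtain ⟨h1, h2, h3⟩ := h
    rw [h1, h2, h3]

theorem not (hP : Rep P) : Rep (fun n A v => ¬ P n A v) := by
  obtain ⟨D, hD, h⟩ := hP
  exact ⟨_, Def.not hD, fun n A v hv => not_congr (h n A v hv)⟩

theorem and (hP : Rep P) (hQ : Rep Q) : Rep (fun n A v => P n A v ∧ Q n A v) := by
  obtain ⟨D, hD, h⟩ := hP
  obtain ⟨D', hD', h'⟩ := hQ
  exact ⟨_, Def.and hD hD', fun n A v hv => and_congr (h n A v hv) (h' n A v hv)⟩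

theorem or (hP : Rep P) (hQ : Rep Q) : Rep (fun n A v => P n A v ∨ Q n A v) :=
  (Rep.not (Rep.and (Rep.not hP) (Rep.not hQ))).congr fun n A v _ => by tauto

theorem ex {P : ℕ → (σ → ℕ → Prop) → (ι → ℕ) → ℕ → Prop}
    (hP : Rep (fun n A (w : Option ι → ℕ) => P n A (fun i => w (some i)) (w none))) :
    Rep (fun n A v => ∃ x < n, P n A v x) := by
  obtain ⟨D, hD, h⟩ := hP
  refine ⟨_, Def.ex hD, fun n A v hv => exists_congr fun x => and_congr_right fun hx => ?_⟩
  refine h n A (fun o => o.elim x v) fun o => ?_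
  cases o with
  | none => exact hx
  | some i => exact hv i

theorem all {P : ℕ → (σ → ℕ → Prop) → (ι → ℕ) → ℕ → Prop}
    (hP : Rep (fun n A (w : Option ι → ℕ) => P n A (fun i => w (some i)) (w none))) :
    Rep (fun n A v => ∀ x < n, P n A v x) :=
  (Rep.not (ex (P := fun n A v x => ¬ P n A v x) (Rep.not hP))).congr fun n A v _ => by
    push Not
    rfl

theorem subst (hP : Rep P) (f : ι → κ) : Rep (fun n A (v : κ → ℕ) => P n A (fun i => v (f i))) := by
  obtain ⟨D, hD, h⟩ := hP
  exact ⟨_, hD.subst f, fun n A v hv => h n A _ fun i => hv _⟩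

theorem zero (i : ι) : Rep (fun _ (_ : σ → ℕ → Prop) v => v i = 0) :=
  (all (P := fun _ _ v x => ¬ x < v i) (Rep.not (Rep.lt none (some i)))).congr fun n A v hv => by
    constructor
    · intro h x _
      omega
    · intro h
      by_contra h0
      exact h 0 (by have := hv i; omega) (by omega)

theorem num (a : ℕ) : ∀ {ι : Type} (i : ι), Rep (fun _ (_ : σ → ℕ → Prop) v => v i = a) := by
  induction a with
  | zero => exact fun i => zero i
  | succ a ih =>
    intro ι i
    refine (ex (P := fun n _ v x => x = a ∧ x < v i ∧ ∀ z < n, ¬ (x < z ∧ z < v i)) ((ih none).and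
      ((Rep.lt none (some i)).and (all (P := fun n _ v z => ¬ (v none < z ∧ z < v (some i)))
        (Rep.not ((Rep.lt (some none) none).and (Rep.lt none (some (some i))))))))).congr
      fun n A v hv => ?_
    have := hv i
    constructor
    · intro h
      exact ⟨a, by omega, rfl, by omega, fun z _ => by omega⟩
    · rintro ⟨x, _, rfl, h1, h2⟩
      by_contra hne
      exact h2 (x + 1) (by omega) (by omega)

/-- the graph of a polynomial function -/
theorem poly (p : MvPolynomial ι ℕ) :
    Rep (fun _ (_ : σ → ℕ → Prop) (w : Option ι → ℕ) => eval (fun i => w (some i)) p = w none) := by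
  induction p using MvPolynomial.induction_on with
  | C a =>
    refine (num a none).congr fun n A v _ => ?_
    rw [eval_C]
    exact eq_comm
  | add p q hp hq =>
    refine (ex (P := fun n _ (w : Option ι → ℕ) x => ∃ y < n, eval (fun i => w (some i)) p = x ∧
      eval (fun i => w (some i)) q = y ∧ x + y = w none) (ex (P := fun n _ w y =>
        eval (fun i => w (some (some i))) p = w none ∧
      eval (fun i => w (some (some i))) q = y ∧ w none + y = w (some none)) ?_)).congr
        fun n A v hv => ?_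
    · refine Rep.and ?_ (Rep.and ?_ ?_)
      · exact (hp.subst (fun o : Option ι => o.elim (some none) (fun i => some (some (some i))))).congr
          fun n A w _ => Iff.rfl
      · exact (hq.subst (fun o : Option ι => o.elim none (fun i => some (some (some i))))).congr
          fun n A w _ => Iff.rfl
      · exact Rep.add (some none) none (some (some none))
    · rw [map_add]
      have := hv none
      constructor
      · intro h
        exact ⟨_, by omega, _, by omega, rfl, rfl, h⟩
      · rintro ⟨x, _, y, _, rfl, rfl, h⟩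
        exact h
  | mul_X p i hp =>
    refine (((zero (some i)).and (zero none)).or ((Rep.not (zero (some i))).and
      (ex (P := fun n _ (w : Option ι → ℕ) x => eval (fun i => w (some i)) p = x ∧
        x * w (some i) = w none) (Rep.and ?_ (Rep.mul none (some (some i)) (some none)))))).congr
        fun n A v hv => ?_
    · exact (hp.subst (fun o : Option ι => o.elim none (fun i => some (some i)))).congr
          fun n A w _ => Iff.rfl
    · rw [map_mul, eval_X]
      have := hv none
      constructor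
      · intro h
        by_cases h0 : v (some i) = 0
        · left
          rw [h0, mul_zero] at h
          exact ⟨h0, h.symm⟩
        · right
          refine ⟨h0, _, ?_, rfl, h⟩
          have : eval (fun i => v (some i)) p ≤ eval (fun i => v (some i)) p * v (some i) :=
            Nat.le_mul_of_pos_right _ (by omega)
          omega
      · rintro (⟨h1, h2⟩ | ⟨_, x, _, rfl, h⟩)
        · rw [h1, h2, mul_zero]
        · exact h

end Rep

theorem poly_bound (p : MvPolynomial ι ℕ) (d : ℕ) : ∃ c, ∀ n ≥ 2, ∀ v : ι → ℕ,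
    (∀ i, v i < n ^ d) → eval v p < n ^ c := by
  induction p using MvPolynomial.induction_on with
  | C a =>
    refine ⟨a, fun n hn v _ => ?_⟩
    rw [eval_C]
    exact (Nat.lt_two_pow_self).trans_le (Nat.pow_le_pow_left hn a)
  | add p q hp hq =>
    obtain ⟨c, hc⟩ := hp
    obtain ⟨c', hc'⟩ := hq
    refine ⟨max c c' + 1, fun n hn v hv => ?_⟩
    rw [map_add]
    have h1 := (hc n hn v hv).trans_le (Nat.pow_le_pow_right (by omega) (le_max_left c c'))
    have h2 := (hc' n hn v hv).trans_le (Nat.pow_le_pow_right (by omega) (le_max_right c c'))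
    have h3 : n ^ (max c c') * 2 ≤ n ^ (max c c') * n := Nat.mul_le_mul_left _ hn
    rw [pow_succ]
    omega
  | mul_X p i hp =>
    obtain ⟨c, hc⟩ := hp
    refine ⟨c + d, fun n hn v hv => ?_⟩
    rw [map_mul, eval_X, pow_add]
    exact Nat.mul_lt_mul'' (hc n hn v hv) (hv i)

/-- bounded formulas can be evaluated in a polynomially larger universe -/
theorem SB.rep {Φ : (σ → ℕ → Prop) → (ι → ℕ) → Prop} (hΦ : SB Φ) : ∀ d, ∃ c₀, ∃ P, Rep P ∧
    ∀ c ≥ c₀, ∀ n ≥ 2, ∀ A v, (∀ i, v i < n ^ d) → (Φ A v ↔ P (n ^ c) A v) := by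
  induction hΦ with
  | @eq ι p q =>
    intro d
    obtain ⟨c₁, h₁⟩ := poly_bound p d
    refine ⟨c₁, fun N _ v => ∃ y < N, eval v p = y ∧ eval v q = y, Rep.ex (P := fun N _ v y =>
      eval v p = y ∧ eval v q = y) ((Rep.poly p).and (Rep.poly q)), fun c hc n hn A v hv => ?_⟩
    constructor
    · intro h
      exact ⟨_, (h₁ n hn v hv).trans_le (Nat.pow_le_pow_right (by omega) hc), rfl, h.symm⟩
    · rintro ⟨y, _, h1, h2⟩
      exact h1.trans h2.symm
  | @le ι p q =>
    intro d
    obtain ⟨c₁, h₁⟩ := poly_bound p d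
    obtain ⟨c₂, h₂⟩ := poly_bound q d
    refine ⟨max c₁ c₂, fun N _ v => ∃ y < N, ∃ z < N, eval v p = y ∧ eval v q = z ∧
      (y < z ∨ y = z), ?_, fun c hc n hn A v hv => ?_⟩
    · refine Rep.ex (P := fun N _ v y => ∃ z < N, eval v p = y ∧ eval v q = z ∧
        (y < z ∨ y = z)) (Rep.ex (P := fun N _ (w : Option ι → ℕ) z =>
          eval (fun i => w (some i)) p = w none ∧ eval (fun i => w (some i)) q = z ∧
            (w none < z ∨ w none = z)) (Rep.and ?_ (Rep.and ?_
              ((Rep.lt (some none) none).or (Rep.eq (some none) none)))))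
      · exact ((Rep.poly p).subst (fun o : Option ι => o.elim (some none)
          (fun i => some (some i)))).congr fun n A w _ => Iff.rfl
      · exact ((Rep.poly q).subst (fun o : Option ι => o.elim none
          (fun i => some (some i)))).congr fun n A w _ => Iff.rfl
    · constructor
      · intro h
        refine ⟨_, (h₁ n hn v hv).trans_le (Nat.pow_le_pow_right (by omega) (by omega)), _,
          (h₂ n hn v hv).trans_le (Nat.pow_le_pow_right (by omega) (by omega)), rfl, rfl, ?_⟩
        exact lt_or_eq_of_le h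
      · rintro ⟨y, _, z, _, rfl, rfl, h⟩
        exact le_of_lt_or_eq h
  | @mem ι s p =>
    intro d
    obtain ⟨c₁, h₁⟩ := poly_bound p d
    refine ⟨c₁, fun N A v => ∃ y < N, eval v p = y ∧ A s y, Rep.ex (P := fun N A v y =>
      eval v p = y ∧ A s y) ((Rep.poly p).and (Rep.mem s none)), fun c hc n hn A v hv => ?_⟩
    constructor
    · intro h
      exact ⟨_, (h₁ n hn v hv).trans_le (Nat.pow_le_pow_right (by omega) hc), rfl, h⟩
    · rintro ⟨y, _, rfl, h2⟩
      exact h2
  | not _ ih =>
    intro d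
    obtain ⟨c₀, P, hP, h⟩ := ih d
    exact ⟨c₀, _, hP.not, fun c hc n hn A v hv => not_congr (h c hc n hn A v hv)⟩
  | and _ _ ih1 ih2 =>
    intro d
    obtain ⟨c₀, P, hP, h⟩ := ih1 d
    obtain ⟨c₀', P', hP', h'⟩ := ih2 d
    exact ⟨max c₀ c₀', _, hP.and hP', fun c hc n hn A v hv =>
      and_congr (h c (by omega) n hn A v hv) (h' c (by omega) n hn A v hv)⟩
  | @ex ι Φ p _ ih =>
    intro d
    obtain ⟨c₁, h₁⟩ := poly_bound p d
    obtain ⟨c₀, P, hP, h⟩ := ih (max d c₁)
    refine ⟨max c₀ (max d c₁), fun N A v => ∃ x < N, (∃ y < N, eval v p = y ∧ (x < y ∨ x = y)) ∧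
      P N A (fun o => o.elim x v), ?_, fun c hc n hn A v hv => ?_⟩
    · refine Rep.ex (P := fun N A v x => (∃ y < N, eval v p = y ∧ (x < y ∨ x = y)) ∧
        P N A (fun o => o.elim x v)) (Rep.and ?_ ?_)
      · refine Rep.ex (P := fun N _ (w : Option ι → ℕ) y => eval (fun i => w (some i)) p = y ∧
          (w none < y ∨ w none = y)) (Rep.and ?_
            ((Rep.lt (some none) none).or (Rep.eq (some none) none)))
        exact ((Rep.poly p).subst (fun o : Option ι => o.elim none
          (fun i => some (some i)))).congr fun n A w _ => Iff.rfl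
      · refine hP.congr fun N A w _ => ?_
        have : (fun o : Option ι => o.elim (w none) fun i => w (some i)) = w := by
          funext o
          cases o <;> rfl
        rw [this]
    · have hle : ∀ e, e ≤ max d c₁ → n ^ e ≤ n ^ (max d c₁) := fun e he =>
        Nat.pow_le_pow_right (by omega) he
      have hle' : n ^ (max d c₁) ≤ n ^ c := Nat.pow_le_pow_right (by omega) (by omega)
      have hpb := h₁ n hn v hv
      have hd := hle d (le_max_left _ _)
      have hc1 := hle c₁ (le_max_right _ _)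
      have key : ∀ x, x ≤ eval v p → (Φ A (fun o => o.elim x v) ↔
          P (n ^ c) A (fun o => o.elim x v)) := by
        intro x hx
        refine h c (by omega) n hn A _ fun o => ?_
        cases o with
        | none =>
          change x < _
          omega
        | some i =>
          have := hv i
          change v i < _
          omega
      constructor
      · rintro ⟨x, hx, hΦ⟩
        exact ⟨x, by omega, ⟨_, by omega, rfl, by omega⟩, (key x hx).1 hΦ⟩
      · rintro ⟨x, _, ⟨y, _, rfl, hxy⟩, hP⟩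
        exact ⟨x, by omega, (key x (by omega)).2 hP⟩

/-! ### Elimination of the arithmetic -/

/-- `x` is zero -/
theorem def_zero {τ : Type} (i : ι) :
    Def (fun n (_ : τ → List ℕ → Prop) v => ∀ z < n, ¬ z < v i) :=
  Def.all (P := fun n _ v z => ¬ z < v i) (Def.not (Def.lt none (some i)))

/-- `j` is the successor of `i` -/
theorem def_succ {τ : Type} (i j : ι) :
    Def (fun n (_ : τ → List ℕ → Prop) v => v i < v j ∧ ∀ z < n, ¬ (v i < z ∧ z < v j)) :=
  Def.and (Def.lt i j) (Def.all (P := fun n _ v z => ¬ (v i < z ∧ z < v j))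
    (Def.not (Def.and (Def.lt (some i) none) (Def.lt none (some j)))))

/-- the axioms for addition and multiplication -/
def Ax (n : ℕ) (R : σ ⊕ Fin 2 → List ℕ → Prop) : Prop :=
  (∀ x < n, ∀ y < n, ∀ z < n, (R (Sum.inr 0) [x, y, z] ↔
    (((∀ w < n, ¬ w < y) ∧ z = x) ∨ ∃ y' < n, ∃ z' < n, (y' < y ∧ ∀ w < n, ¬ (y' < w ∧ w < y)) ∧
      (z' < z ∧ ∀ w < n, ¬ (z' < w ∧ w < z)) ∧ R (Sum.inr 0) [x, y', z']))) ∧
  (∀ x < n, ∀ y < n, ∀ z < n, (R (Sum.inr 1) [x, y, z] ↔
    (((∀ w < n, ¬ w < y) ∧ (∀ w < n, ¬ w < z)) ∨ ∃ y' < n, ∃ z' < n,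
      (y' < y ∧ ∀ w < n, ¬ (y' < w ∧ w < y)) ∧ R (Sum.inr 1) [x, y', z'] ∧
        R (Sum.inr 0) [z', x, z])))

theorem def_ax : Def (fun n (R : σ ⊕ Fin 2 → List ℕ → Prop) (_ : ι → ℕ) => Ax n R) := by
  refine Def.and ?_ ?_
  · refine Def.all (P := fun n R v x => ∀ y < n, ∀ z < n, (R (Sum.inr 0) [x, y, z] ↔
      (((∀ w < n, ¬ w < y) ∧ z = x) ∨ ∃ y' < n, ∃ z' < n, (y' < y ∧ ∀ w < n, ¬ (y' < w ∧ w < y)) ∧
      (z' < z ∧ ∀ w < n, ¬ (z' < w ∧ w < z)) ∧ R (Sum.inr 0) [x, y', z']))) ?_
    refine Def.all (P := fun n R v y => ∀ z < n, (R (Sum.inr 0) [v none, y, z] ↔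
      (((∀ w < n, ¬ w < y) ∧ z = v none) ∨ ∃ y' < n, ∃ z' < n,
        (y' < y ∧ ∀ w < n, ¬ (y' < w ∧ w < y)) ∧
      (z' < z ∧ ∀ w < n, ¬ (z' < w ∧ w < z)) ∧ R (Sum.inr 0) [v none, y', z']))) ?_
    refine Def.all (P := fun n R v z => (R (Sum.inr 0) [v (some none), v none, z] ↔
      (((∀ w < n, ¬ w < v none) ∧ z = v (some none)) ∨ ∃ y' < n, ∃ z' < n,
        (y' < v none ∧ ∀ w < n, ¬ (y' < w ∧ w < v none)) ∧
      (z' < z ∧ ∀ w < n, ¬ (z' < w ∧ w < z)) ∧ R (Sum.inr 0) [v (some none), y', z']))) ?_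
    refine Def.iff (Def.rel (Sum.inr 0) [some (some none), some none, none]) (Def.or
      (Def.and (def_zero (some none)) (Def.eq none (some (some none)))) ?_)
    refine Def.ex' (P := fun n R v y' => ∃ z' < n,
        (y' < v (some none) ∧ ∀ w < n, ¬ (y' < w ∧ w < v (some none))) ∧
      (z' < v none ∧ ∀ w < n, ¬ (z' < w ∧ w < v none)) ∧
        R (Sum.inr 0) [v (some (some none)), y', z']) ?_
    refine Def.ex' (P := fun n R v z' =>
        (v none < v (some (some none)) ∧ ∀ w < n, ¬ (v none < w ∧ w < v (some (some none)))) ∧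
      (z' < v (some none) ∧ ∀ w < n, ¬ (z' < w ∧ w < v (some none))) ∧
        R (Sum.inr 0) [v (some (some (some none))), v none, z']) ?_
    exact Def.and (def_succ (some none) (some (some (some none)))) (Def.and
      (def_succ none (some (some none)))
      (Def.rel (Sum.inr 0) [some (some (some (some none))), some none, none]))
  · refine Def.all (P := fun n R v x => ∀ y < n, ∀ z < n, (R (Sum.inr 1) [x, y, z] ↔
      (((∀ w < n, ¬ w < y) ∧ (∀ w < n, ¬ w < z)) ∨ ∃ y' < n, ∃ z' < n,
      (y' < y ∧ ∀ w < n, ¬ (y' < w ∧ w < y)) ∧ R (Sum.inr 1) [x, y', z'] ∧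
        R (Sum.inr 0) [z', x, z]))) ?_
    refine Def.all (P := fun n R v y => ∀ z < n, (R (Sum.inr 1) [v none, y, z] ↔
      (((∀ w < n, ¬ w < y) ∧ (∀ w < n, ¬ w < z)) ∨ ∃ y' < n, ∃ z' < n,
      (y' < y ∧ ∀ w < n, ¬ (y' < w ∧ w < y)) ∧ R (Sum.inr 1) [v none, y', z'] ∧
        R (Sum.inr 0) [z', v none, z]))) ?_
    refine Def.all (P := fun n R v z => (R (Sum.inr 1) [v (some none), v none, z] ↔
      (((∀ w < n, ¬ w < v none) ∧ (∀ w < n, ¬ w < z)) ∨ ∃ y' < n, ∃ z' < n,
      (y' < v none ∧ ∀ w < n, ¬ (y' < w ∧ w < v none)) ∧ R (Sum.inr 1) [v (some none), y', z'] ∧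
        R (Sum.inr 0) [z', v (some none), z]))) ?_
    refine Def.iff (Def.rel (Sum.inr 1) [some (some none), some none, none]) (Def.or
      (Def.and (def_zero (some none)) (def_zero none)) ?_)
    refine Def.ex' (P := fun n R v y' => ∃ z' < n,
      (y' < v (some none) ∧ ∀ w < n, ¬ (y' < w ∧ w < v (some none))) ∧
        R (Sum.inr 1) [v (some (some none)), y', z'] ∧
        R (Sum.inr 0) [z', v (some (some none)), v none]) ?_
    refine Def.ex' (P := fun n R v z' =>
      (v none < v (some (some none)) ∧ ∀ w < n, ¬ (v none < w ∧ w < v (some (some none)))) ∧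
        R (Sum.inr 1) [v (some (some (some none))), v none, z'] ∧
        R (Sum.inr 0) [z', v (some (some (some none))), v (some none)]) ?_
    exact Def.and (def_succ (some none) (some (some (some none)))) (Def.and
      (Def.rel (Sum.inr 1) [some (some (some (some none))), some none, none])
      (Def.rel (Sum.inr 0) [none, some (some (some (some none))), some (some none)]))

theorem succ_iff {n x y : ℕ} (hy : y < n) :
    (x < y ∧ ∀ w < n, ¬ (x < w ∧ w < y)) ↔ y = x + 1 := by
  constructor
  · rintro ⟨h1, h2⟩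
    by_contra hne
    exact h2 (x + 1) (by omega) (by omega)
  · rintro rfl
    exact ⟨by omega, fun w _ => by omega⟩

theorem zero_iff {n y : ℕ} (hy : y < n) : (∀ w < n, ¬ w < y) ↔ y = 0 := by
  constructor
  · intro h
    by_contra h0
    exact h 0 (by omega) (by omega)
  · rintro rfl w _
    omega

theorem ax_of_ar {n : ℕ} {R : σ ⊕ Fin 2 → List ℕ → Prop}
    (h0 : ∀ x y z, R (Sum.inr 0) [x, y, z] ↔ x + y = z)
    (h1 : ∀ x y z, R (Sum.inr 1) [x, y, z] ↔ x * y = z) : Ax n R := by
  refine ⟨fun x hx y hy z hz => ?_, fun x hx y hy z hz => ?_⟩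
  · rw [h0, zero_iff hy]
    constructor
    · intro h
      rcases Nat.eq_zero_or_pos y with h2 | h2
      · exact Or.inl ⟨h2, by omega⟩
      · refine Or.inr ⟨y - 1, by omega, z - 1, by omega, ?_, ?_, ?_⟩
        · rw [succ_iff hy]
          omega
        · rw [succ_iff hz]
          omega
        · rw [h0]
          omega
    · rintro (⟨h2, h3⟩ | ⟨y', _, z', _, h2, h3, h4⟩)
      · omega
      · rw [succ_iff hy] at h2
        rw [succ_iff hz] at h3
        rw [h0] at h4
        omega
  · rw [h1, zero_iff hy, zero_iff hz]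
    constructor
    · intro h
      rcases Nat.eq_zero_or_pos y with h2 | h2
      · rw [h2, mul_zero] at h
        exact Or.inl ⟨h2, h.symm⟩
      · obtain ⟨y', rfl⟩ : ∃ y', y = y' + 1 := ⟨y - 1, by omega⟩
        have h3 : x * (y' + 1) = x * y' + x := by ring
        refine Or.inr ⟨y', by omega, x * y', by omega, ?_, ?_, ?_⟩
        · rw [succ_iff hy]
        · rw [h1]
        · rw [h0]
          omega
    · rintro (⟨h2, h3⟩ | ⟨y', _, z', _, h2, h3, h4⟩)
      · rw [h2, h3, mul_zero]
      · rw [succ_iff hy] at h2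
        rw [h1] at h3
        rw [h0] at h4
        rw [h2, ← h4, ← h3]
        ring

theorem ar_of_ax {n : ℕ} {R : σ ⊕ Fin 2 → List ℕ → Prop} (h : Ax n R) :
    (∀ y < n, ∀ x < n, ∀ z < n, (R (Sum.inr 0) [x, y, z] ↔ x + y = z)) ∧
    (∀ y < n, ∀ x < n, ∀ z < n, (R (Sum.inr 1) [x, y, z] ↔ x * y = z)) := by
  have h0 : ∀ y < n, ∀ x < n, ∀ z < n, (R (Sum.inr 0) [x, y, z] ↔ x + y = z) := by
    intro y
    induction y with
    | zero =>
      intro hy x hx z hz
      rw [h.1 x hx 0 hy z hz, zero_iff hy]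
      constructor
      · rintro (⟨_, h3⟩ | ⟨y', _, z', _, h2, _, _⟩)
        · omega
        · exact absurd h2.1 (by omega)
      · intro h2
        exact Or.inl ⟨rfl, by omega⟩
    | succ y ih =>
      intro hy x hx z hz
      rw [h.1 x hx (y + 1) hy z hz, zero_iff hy]
      constructor
      · rintro (⟨h2, _⟩ | ⟨y', hy', z', hz', h2, h3, h4⟩)
        · omega
        · rw [succ_iff hy] at h2
          rw [succ_iff hz] at h3
          obtain rfl : y = y' := by omega
          rw [ih hy' x hx z' hz'] at h4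
          omega
      · intro h2
        refine Or.inr ⟨y, by omega, z - 1, by omega, ?_, ?_, ?_⟩
        · rw [succ_iff hy]
        · rw [succ_iff hz]
          omega
        · rw [ih (by omega) x hx _ (by omega)]
          omega
  refine ⟨h0, ?_⟩
  intro y
  induction y with
  | zero =>
    intro hy x hx z hz
    rw [h.2 x hx 0 hy z hz, zero_iff hy, zero_iff hz, mul_zero]
    constructor
    · rintro (⟨_, h3⟩ | ⟨y', _, z', _, h2, _, _⟩)
      · exact h3.symm
      · exact absurd h2.1 (by omega)
    · intro h2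
      exact Or.inl ⟨rfl, h2.symm⟩
  | succ y ih =>
    intro hy x hx z hz
    rw [h.2 x hx (y + 1) hy z hz, zero_iff hy]
    have h3 : x * (y + 1) = x * y + x := by ring
    constructor
    · rintro (⟨h2, _⟩ | ⟨y', hy', z', hz', h2, h4, h5⟩)
      · omega
      · rw [succ_iff hy] at h2
        obtain rfl : y = y' := by omega
        rw [ih hy' x hx z' hz'] at h4
        rw [h0 x hx z' hz' z hz] at h5
        omega
    · intro h2
      refine Or.inr ⟨y, by omega, x * y, by omega, ?_, ?_, ?_⟩
      · rw [succ_iff hy]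
      · rw [ih (by omega) x hx _ (by omega)]
      · rw [h0 x hx _ (by omega) z hz]
        omega

/-- the lengths of the sequences -/
def len : σ ⊕ Fin 2 → ℕ := Sum.elim (fun _ => 1) (fun _ => 3)

theorem Rep.elim {P : ℕ → (σ → ℕ → Prop) → (ι → ℕ) → Prop} (hP : Rep P) :
    ∃ Q, Def (σ := σ ⊕ Fin 2) Q ∧ ∀ n v, (∀ i, v i < n) → ((∃ A, P n A v) ↔ ∃ R, Q n R v) := by
  obtain ⟨D, hD, h⟩ := hP
  refine ⟨fun n R v => Ax n R ∧ D n (fun s l => l.length = len s ∧ R s l) v,
    Def.and def_ax (hD.norm len), fun n v hv => ?_⟩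
  have agree : ∀ (A : σ → ℕ → Prop) (R : σ ⊕ Fin 2 → List ℕ → Prop), (∀ s x, x < n →
      (A s x ↔ R (Sum.inl s) [x])) → (∀ y < n, ∀ x < n, ∀ z < n,
        (R (Sum.inr 0) [x, y, z] ↔ x + y = z)) →
      (∀ y < n, ∀ x < n, ∀ z < n, (R (Sum.inr 1) [x, y, z] ↔ x * y = z)) →
      ∀ s l, (∀ x ∈ l, x < n) → (RA A s l ↔ (l.length = len s ∧ R s l)) := by
    intro A R hA h0 h1 s l hl
    rcases s with s | i
    · constructor
      · rintro ⟨x, rfl, hx⟩
        exact ⟨rfl, (hA s x (hl x (by simp))).1 hx⟩
      · rintro ⟨h2, h3⟩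
        obtain ⟨x, rfl⟩ := List.length_eq_one_iff.1 (show l.length = 1 from h2)
        exact ⟨x, rfl, (hA s x (hl x (by simp))).2 h3⟩
    · have h3 : ∀ x y z, l = [x, y, z] → (ar i l ↔ (if i = 0 then x + y else x * y) = z) := by
        rintro x y z rfl
        constructor
        · rintro ⟨x', y', he⟩
          simp only [List.cons.injEq, and_true] at he
          obtain ⟨rfl, rfl, rfl⟩ := he
          rfl
        · rintro rfl
          exact ⟨x, y, rfl⟩
      have hRA : RA A (Sum.inr i) l ↔ ar i l := Iff.rfl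
      rw [hRA]
      constructor
      · intro har
        obtain ⟨x, y, he⟩ := id har
        refine ⟨by rw [he]; rfl, ?_⟩
        have hx := hl x (by rw [he]; simp)
        have hy := hl y (by rw [he]; simp)
        have hz := hl _ (show (if i = 0 then x + y else x * y) ∈ l by rw [he]; simp)
        rw [he]
        fin_cases i
        · exact (h0 y hy x hx _ hz).2 rfl
        · exact (h1 y hy x hx _ hz).2 rfl
      · rintro ⟨h2, h4⟩
        obtain ⟨x, y, z, rfl⟩ := List.length_eq_three.1 (show l.length = 3 from h2)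
        have hx := hl x (by simp)
        have hy := hl y (by simp)
        have hz := hl z (by simp)
        rw [h3 x y z rfl]
        fin_cases i
        · exact (h0 y hy x hx z hz).1 h4
        · exact (h1 y hy x hx z hz).1 h4
  constructor
  · rintro ⟨A, hA⟩
    have h0 : ∀ x y z, RA A (Sum.inr 0) [x, y, z] ↔ x + y = z := by
      intro x y z
      constructor
      · rintro ⟨x', y', he⟩
        simp only [List.cons.injEq, and_true] at he
        obtain ⟨rfl, rfl, rfl⟩ := he
        rfl
      · rintro rfl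
        exact ⟨x, y, rfl⟩
    have h1 : ∀ x y z, RA A (Sum.inr 1) [x, y, z] ↔ x * y = z := by
      intro x y z
      constructor
      · rintro ⟨x', y', he⟩
        simp only [List.cons.injEq, and_true] at he
        obtain ⟨rfl, rfl, rfl⟩ := he
        rfl
      · rintro rfl
        exact ⟨x, y, rfl⟩
    refine ⟨RA A, ax_of_ar h0 h1, ?_⟩
    refine (hD.congr_rel n _ _ v hv ?_).1 ((h n A v hv).1 hA)
    refine agree A (RA A) (fun s x _ => ?_) (fun y _ x _ z _ => h0 x y z)
      (fun y _ x _ z _ => h1 x y z)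
    constructor
    · intro h
      exact ⟨x, rfl, h⟩
    · rintro ⟨x', he, h⟩
      have : x = x' := by simpa using he
      rw [this]
      exact h
  · rintro ⟨R, hax, hR⟩
    obtain ⟨h0, h1⟩ := ar_of_ax hax
    refine ⟨fun s x => R (Sum.inl s) [x], (h n _ v hv).2 ?_⟩
    refine (hD.congr_rel n _ _ v hv ?_).2 hR
    exact agree _ R (fun s x _ => Iff.rfl) h0 h1

end

end Pool.Agent.J4H63.AS
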