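import Mathlib

/-!
# Types of finite rank, amalgams and copies

Structures with the universe `α ⊕ X`, where the elements of `α` are named by constants.
-/

namespace Pool.Agent.J4H63.AS

variable {ρ : ℕ → Type} {α X X' Y Y' ι κ τ : Type}

/-- relational structures with the universe `α ⊕ X` -/
def PStr (ρ : ℕ → Type) (α X : Type) : Type := ∀ r, ρ r → (Fin r → α ⊕ X) → Prop

/-- atomic formulas -/
def Atom (ρ : ℕ → Type) (α ι : Type) : Type :=
  (ι × ι) ⊕ (Σ s : (Σ r, ρ r), (Fin s.1 → α ⊕ ι))

/-- the true atomic formulas -/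
def atoms (M : PStr ρ α X) (a : ι → X) : Set (Atom ρ α ι) :=
  {t | Sum.elim (fun p : ι × ι => a p.1 = a p.2)
    (fun p : (Σ s : (Σ r, ρ r), (Fin s.1 → α ⊕ ι)) => M p.1.1 p.1.2
      (fun j => Sum.map id a (p.2 j))) t}

theorem atoms_eq {M : PStr ρ α X} {a : ι → X} {M' : PStr ρ α X'} {a' : ι → X'} :
    atoms M a = atoms M' a' ↔ (∀ i j, a i = a j ↔ a' i = a' j) ∧
      ∀ r (R : ρ r) (f : Fin r → α ⊕ ι),
        (M r R (fun j => Sum.map id a (f j)) ↔ M' r R (fun j => Sum.map id a' (f j))) := by
  constructor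
  · intro h
    refine ⟨fun i j => ?_, fun r R f => ?_⟩
    · exact Set.ext_iff.1 h (Sum.inl (i, j))
    · exact Set.ext_iff.1 h (Sum.inr ⟨⟨r, R⟩, f⟩)
  · rintro ⟨h1, h2⟩
    ext t
    rcases t with ⟨i, j⟩ | ⟨⟨r, R⟩, f⟩
    · exact h1 i j
    · exact h2 r R f

/-- types of rank `q` -/
def Ty (ρ : ℕ → Type) (α : Type) : ℕ → Type → Type
  | 0, ι => Set (Atom ρ α ι)
  | q + 1, ι => Set (Atom ρ α ι) × Set (Ty ρ α q (Option ι))

/-- the type of a tuple -/
def tp : (q : ℕ) → {ι : Type} → (M : PStr ρ α X) → (a : ι → X) → Ty ρ α q ι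
  | 0, _, M, a => atoms M a
  | q + 1, ι, M, a => (atoms M a, {t | ∃ x, t = tp q M (fun o : Option ι => o.elim x a)})

theorem tp_zero {M : PStr ρ α X} {a : ι → X} {M' : PStr ρ α X'} {a' : ι → X'} :
    tp 0 M a = tp 0 M' a' ↔ atoms M a = atoms M' a' := Iff.rfl

theorem tp_succ {q : ℕ} {M : PStr ρ α X} {a : ι → X} {M' : PStr ρ α X'} {a' : ι → X'} :
    tp (q + 1) M a = tp (q + 1) M' a' ↔ atoms M a = atoms M' a' ∧
      (∀ x, ∃ x', tp q M (fun o : Option ι => o.elim x a) = tp q M' (fun o : Option ι => o.elim x' a')) ∧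
      (∀ x', ∃ x, tp q M (fun o : Option ι => o.elim x a) = tp q M' (fun o : Option ι => o.elim x' a')) := by
  constructor
  · intro h
    have h1 : atoms M a = atoms M' a' := congrArg Prod.fst h
    have h2 : {t | ∃ x, t = tp q M (fun o : Option ι => o.elim x a)} =
        {t | ∃ x, t = tp q M' (fun o : Option ι => o.elim x a')} := congrArg Prod.snd h
    refine ⟨h1, fun x => ?_, fun x' => ?_⟩
    · have : tp q M (fun o : Option ι => o.elim x a) ∈ {t | ∃ x, t = tp q M' (fun o : Option ι => o.elim x a')} := by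
        rw [← h2]
        exact ⟨x, rfl⟩
      exact this
    · have : tp q M' (fun o : Option ι => o.elim x' a') ∈ {t | ∃ x, t = tp q M (fun o : Option ι => o.elim x a)} := by
        rw [h2]
        exact ⟨x', rfl⟩
      obtain ⟨x, hx⟩ := this
      exact ⟨x, hx.symm⟩
  · rintro ⟨h1, h2, h3⟩
    refine Prod.ext h1 ?_
    ext t
    constructor
    · rintro ⟨x, rfl⟩
      exact h2 x
    · rintro ⟨x', rfl⟩
      obtain ⟨x, hx⟩ := h3 x'
      exact ⟨x, hx.symm⟩

theorem tp_atoms {q : ℕ} {M : PStr ρ α X} {a : ι → X} {M' : PStr ρ α X'} {a' : ι → X'}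
    (h : tp q M a = tp q M' a') : atoms M a = atoms M' a' := by
  cases q with
  | zero => exact h
  | succ q => exact (tp_succ.1 h).1

theorem tp_pred : ∀ (q : ℕ) {ι : Type} {M : PStr ρ α X} {a : ι → X} {M' : PStr ρ α X'} {a' : ι → X'},
    tp (q + 1) M a = tp (q + 1) M' a' → tp q M a = tp q M' a' := by
  intro q
  induction q with
  | zero => exact fun h => (tp_succ.1 h).1
  | succ q ih =>
    intro ι M a M' a' h
    obtain ⟨h1, h2, h3⟩ := tp_succ.1 h
    refine tp_succ.2 ⟨h1, fun x => ?_, fun x' => ?_⟩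
    · obtain ⟨x', hx'⟩ := h2 x
      exact ⟨x', ih hx'⟩
    · obtain ⟨x, hx⟩ := h3 x'
      exact ⟨x, ih hx⟩

theorem tp_mono {q q' : ℕ} (hq : q ≤ q') {M : PStr ρ α X} {a : ι → X} {M' : PStr ρ α X'}
    {a' : ι → X'} (h : tp q' M a = tp q' M' a') : tp q M a = tp q M' a' := by
  induction hq with
  | refl => exact h
  | step _ ih => exact ih (tp_pred _ h)

/-- isomorphic structures -/
theorem tp_iso (e : X ≃ X') {M : PStr ρ α X} {M' : PStr ρ α X'}
    (h : ∀ r (R : ρ r) t, M r R t ↔ M' r R (fun j => Sum.map id e (t j))) :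
    ∀ (q : ℕ) {ι : Type} (a : ι → X), tp q M a = tp q M' (fun i => e (a i)) := by
  have hat : ∀ {ι : Type} (a : ι → X), atoms M a = atoms M' (fun i => e (a i)) := by
    intro ι a
    refine atoms_eq.2 ⟨fun i j => e.injective.eq_iff.symm, fun r R f => ?_⟩
    rw [h]
    have : (fun j => Sum.map id e (Sum.map id a (f j))) =
        fun j => Sum.map id (fun i => e (a i)) (f j) := by
      funext j
      rcases f j with c | i <;> rfl
    rw [this]
  intro q
  induction q with
  | zero => exact fun a => hat a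
  | succ q ih =>
    intro ι a
    have key : ∀ x, (fun o : Option ι => e (o.elim x a)) = fun o => o.elim (e x) (fun i => e (a i)) := by
      intro x
      funext o
      cases o <;> rfl
    refine tp_succ.2 ⟨hat a, fun x => ⟨e x, ?_⟩, fun x' => ⟨e.symm x', ?_⟩⟩
    · rw [ih, key]
    · rw [ih, key, e.apply_symm_apply]

/-- the amalgam over `α` -/
def amalg (M : PStr ρ α X) (N : PStr ρ α Y) : PStr ρ α (X ⊕ Y) := fun r R t =>
  (∃ t' : Fin r → α ⊕ X, (∀ j, t j = Sum.map id Sum.inl (t' j)) ∧ M r R t') ∨
  (∃ t' : Fin r → α ⊕ Y, (∀ j, t j = Sum.map id Sum.inr (t' j)) ∧ N r R t')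

theorem elem_left {a : ι → X} {b : κ → Y} {u : τ → ι ⊕ κ} (p : α ⊕ τ) (y : α ⊕ X) :
    Sum.map id (fun t => Sum.map a b (u t)) p = Sum.map id Sum.inl y ↔
      ∃ g : α ⊕ ι, Sum.map id u p = Sum.map id Sum.inl g ∧ Sum.map id a g = y := by
  constructor
  · intro h
    rcases p with c | t
    · refine ⟨Sum.inl c, rfl, ?_⟩
      rcases y with c' | x
      · simpa using h
      · simp at h
    · rcases y with c' | x
      · simp at h
      · rcases hu : u t with i | k
        · refine ⟨Sum.inr i, by simp [hu], ?_⟩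
          simp only [Sum.map_inr, hu, Sum.map_inl, Sum.inr.injEq, Sum.inl.injEq] at h
          simp [h]
        · simp [hu] at h
  · rintro ⟨g, h1, rfl⟩
    rcases p with c | t
    · rcases g with c' | i
      · simpa using h1
      · simp at h1
    · rcases g with c' | i
      · simp at h1
      · simp only [Sum.map_inr, Sum.inr.injEq] at h1
        simp [h1]

theorem elem_right {a : ι → X} {b : κ → Y} {u : τ → ι ⊕ κ} (p : α ⊕ τ) (y : α ⊕ Y) :
    Sum.map id (fun t => Sum.map a b (u t)) p = Sum.map id Sum.inr y ↔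
      ∃ g : α ⊕ κ, Sum.map id u p = Sum.map id Sum.inr g ∧ Sum.map id b g = y := by
  constructor
  · intro h
    rcases p with c | t
    · refine ⟨Sum.inl c, rfl, ?_⟩
      rcases y with c' | x
      · simpa using h
      · simp at h
    · rcases y with c' | x
      · simp at h
      · rcases hu : u t with i | k
        · simp [hu] at h
        · refine ⟨Sum.inr k, by simp [hu], ?_⟩
          simp only [Sum.map_inr, hu, Sum.inr.injEq] at h
          simp [h]
  · rintro ⟨g, h1, rfl⟩
    rcases p with c | t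
    · rcases g with c' | i
      · simpa using h1
      · simp at h1
    · rcases g with c' | i
      · simp at h1
      · simp only [Sum.map_inr, Sum.inr.injEq] at h1
        simp [h1]

theorem amalg_iff (M : PStr ρ α X) (N : PStr ρ α Y) (a : ι → X) (b : κ → Y) (u : τ → ι ⊕ κ) (r : ℕ)
    (R : ρ r) (f : Fin r → α ⊕ τ) :
    amalg M N r R (fun j => Sum.map id (fun t => Sum.map a b (u t)) (f j)) ↔
      (∃ g : Fin r → α ⊕ ι, (∀ j, Sum.map id u (f j) = Sum.map id Sum.inl (g j)) ∧
        M r R (fun j => Sum.map id a (g j))) ∨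
      (∃ g : Fin r → α ⊕ κ, (∀ j, Sum.map id u (f j) = Sum.map id Sum.inr (g j)) ∧
        N r R (fun j => Sum.map id b (g j))) := by
  unfold amalg
  refine or_congr ?_ ?_
  · constructor
    · rintro ⟨t', h1, h2⟩
      choose g hg1 hg2 using fun j => (elem_left _ _).1 (h1 j)
      refine ⟨g, hg1, ?_⟩
      rw [show (fun j => Sum.map id a (g j)) = t' from funext hg2]
      exact h2
    · rintro ⟨g, h1, h2⟩
      exact ⟨_, fun j => (elem_left _ _).2 ⟨g j, h1 j, rfl⟩, h2⟩
  · constructor
    · rintro ⟨t', h1, h2⟩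
      choose g hg1 hg2 using fun j => (elem_right _ _).1 (h1 j)
      refine ⟨g, hg1, ?_⟩
      rw [show (fun j => Sum.map id b (g j)) = t' from funext hg2]
      exact h2
    · rintro ⟨g, h1, h2⟩
      exact ⟨_, fun j => (elem_right _ _).2 ⟨g j, h1 j, rfl⟩, h2⟩

/-- the type of the amalgam is determined by the types of the parts -/
theorem tp_amalg {M : PStr ρ α X} {M' : PStr ρ α X'} {N : PStr ρ α Y} {N' : PStr ρ α Y'} :
    ∀ (q : ℕ) {ι κ τ : Type} (a : ι → X) (a' : ι → X') (b : κ → Y) (b' : κ → Y') (u : τ → ι ⊕ κ),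
      tp q M a = tp q M' a' → tp q N b = tp q N' b' →
      tp q (amalg M N) (fun t => Sum.map a b (u t)) =
        tp q (amalg M' N') (fun t => Sum.map a' b' (u t)) := by
  have hat : ∀ {ι κ τ : Type} (a : ι → X) (a' : ι → X') (b : κ → Y) (b' : κ → Y') (u : τ → ι ⊕ κ),
      atoms M a = atoms M' a' → atoms N b = atoms N' b' →
      atoms (amalg M N) (fun t => Sum.map a b (u t)) =
        atoms (amalg M' N') (fun t => Sum.map a' b' (u t)) := by
    intro ι κ τ a a' b b' u h1 h2
    obtain ⟨h3, h4⟩ := atoms_eq.1 h1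
    obtain ⟨h5, h6⟩ := atoms_eq.1 h2
    refine atoms_eq.2 ⟨fun i j => ?_, fun r R f => ?_⟩
    · rcases u i with i' | i' <;> rcases u j with j' | j' <;> simp [h3, h5]
    · rw [amalg_iff, amalg_iff]
      refine or_congr ?_ ?_
      · refine exists_congr fun g => and_congr_right fun _ => h4 r R g
      · refine exists_congr fun g => and_congr_right fun _ => h6 r R g
  intro q
  induction q with
  | zero => exact fun a a' b b' u h1 h2 => hat a a' b b' u h1 h2
  | succ q ih =>
    intro ι κ τ a a' b b' u h1 h2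
    obtain ⟨h3, h4, h5⟩ := tp_succ.1 h1
    obtain ⟨h6, h7, h8⟩ := tp_succ.1 h2
    have kl : ∀ {X Y : Type} (a : ι → X) (b : κ → Y) (x : X),
        (fun o : Option τ => o.elim (Sum.inl x) (fun t => Sum.map a b (u t))) =
        fun o : Option τ => Sum.map (fun o' : Option ι => o'.elim x a) b
          (o.elim (Sum.inl none) (fun t => Sum.map some id (u t))) := by
      intro X Y a b x
      funext o
      cases o with
      | none => rfl
      | some t =>
        simp only [Option.elim_some]
        rcases u t with i | k <;> rfl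
    have kr : ∀ {X Y : Type} (a : ι → X) (b : κ → Y) (y : Y),
        (fun o : Option τ => o.elim (Sum.inr y) (fun t => Sum.map a b (u t))) =
        fun o : Option τ => Sum.map a (fun o' : Option κ => o'.elim y b)
          (o.elim (Sum.inr none) (fun t => Sum.map id some (u t))) := by
      intro X Y a b y
      funext o
      cases o with
      | none => rfl
      | some t =>
        simp only [Option.elim_some]
        rcases u t with i | k <;> rfl
    refine tp_succ.2 ⟨hat a a' b b' u h3 h6, fun x => ?_, fun x' => ?_⟩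
    · rcases x with x | y
      · obtain ⟨x', hx'⟩ := h4 x
        refine ⟨Sum.inl x', ?_⟩
        rw [kl, kl]
        exact ih _ _ _ _ _ hx' (tp_pred q h2)
      · obtain ⟨y', hy'⟩ := h7 y
        refine ⟨Sum.inr y', ?_⟩
        rw [kr, kr]
        exact ih _ _ _ _ _ (tp_pred q h1) hy'
    · rcases x' with x' | y'
      · obtain ⟨x, hx⟩ := h5 x'
        refine ⟨Sum.inl x, ?_⟩
        rw [kl, kl]
        exact ih _ _ _ _ _ hx (tp_pred q h2)
      · obtain ⟨y, hy⟩ := h8 y'
        refine ⟨Sum.inr y, ?_⟩
        rw [kr, kr]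
        exact ih _ _ _ _ _ (tp_pred q h1) hy

/-- `k` copies, glued along `α` -/
def copies (k : ℕ) (M : PStr ρ α X) : PStr ρ α (Fin k × X) := fun r R t =>
  ∃ (i : Fin k) (t' : Fin r → α ⊕ X), (∀ j, t j = Sum.map id (fun x => (i, x)) (t' j)) ∧ M r R t'

/-- take out copy `i` -/
def takeOut (k : ℕ) (X : Type) (i : Fin (k + 1)) : Fin (k + 1) × X ≃ X ⊕ (Fin k × X) :=
  ((finSuccEquiv' i).prodCongr (Equiv.refl X)).trans
    { toFun := fun p => p.1.elim (Sum.inl p.2) (fun j => Sum.inr (j, p.2))
      invFun := fun s => Sum.elim (fun x => (none, x)) (fun p => (some p.1, p.2)) s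
      left_inv := by
        rintro ⟨o, x⟩
        cases o <;> rfl
      right_inv := by
        rintro (x | ⟨j, x⟩) <;> rfl }

theorem takeOut_self (k : ℕ) (i : Fin (k + 1)) (x : X) : takeOut k X i (i, x) = Sum.inl x := by
  unfold takeOut
  simp

theorem takeOut_ne (k : ℕ) (i : Fin (k + 1)) (j : Fin k) (x : X) :
    takeOut k X i (i.succAbove j, x) = Sum.inr (j, x) := by
  unfold takeOut
  simp

theorem map_eq {Z : Type} (e : X ≃ Z) {f : Y → Z} {g : Y → X} (h : ∀ y, e (g y) = f y) (p : α ⊕ X)
    (q : α ⊕ Y) : Sum.map id e p = Sum.map id f q ↔ p = Sum.map id g q := by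
  rcases p with c | x <;> rcases q with c' | y
  · simp
  · simp
  · simp
  · simp only [Sum.map_inr, Sum.inr.injEq]
    rw [← h]
    exact e.injective.eq_iff

theorem copies_succ (k : ℕ) (M : PStr ρ α X) (i : Fin (k + 1)) (r : ℕ) (R : ρ r)
    (t : Fin r → α ⊕ (Fin (k + 1) × X)) : copies (k + 1) M r R t ↔
      amalg M (copies k M) r R (fun j => Sum.map id (takeOut k X i) (t j)) := by
  constructor
  · rintro ⟨i', t', h1, h2⟩
    by_cases hi : i' = i
    · subst hi
      left
      exact ⟨t', fun j => (map_eq _ (fun y => takeOut_self k i' y) _ _).2 (h1 j), h2⟩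
    · right
      obtain ⟨j', rfl⟩ := Fin.exists_succAbove_eq hi
      refine ⟨fun j => Sum.map id (fun x => (j', x)) (t' j), fun j => ?_, j', t', fun j => rfl, h2⟩
      have h3 := (map_eq _ (fun y => takeOut_ne k i j' y) _ _).2 (h1 j)
      refine h3.trans ?_
      beta_reduce
      rcases t' j with c | x <;> rfl
  · rintro (⟨t', h1, h2⟩ | ⟨t', h1, j', t'', h3, h4⟩)
    · exact ⟨i, t', fun j => (map_eq _ (fun y => takeOut_self k i y) _ _).1 (h1 j), h2⟩
    · refine ⟨i.succAbove j', t'', fun j => (map_eq _ (fun y => takeOut_ne k i j' y) _ _).1 ?_, h4⟩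
      refine (h1 j).trans ?_
      rw [h3]
      rcases t'' j with c | x <;> rfl

theorem tp_copies_succ (q k : ℕ) (M : PStr ρ α X) (i : Fin (k + 1)) {ι : Type}
    (a : ι → Fin (k + 1) × X) :
    tp q (copies (k + 1) M) a = tp q (amalg M (copies k M)) (fun j => takeOut k X i (a j)) :=
  tp_iso (takeOut k X i) (fun r R t => copies_succ k M i r R t) q a

theorem copies_const {k : ℕ} (hk : 0 < k) (M : PStr ρ α X) (r : ℕ) (R : ρ r)
    (f : Fin r → α ⊕ Empty) (a : Empty → Fin k × X) (b : Empty → X) :
    copies k M r R (fun j => Sum.map id a (f j)) ↔ M r R (fun j => Sum.map id b (f j)) := by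
  have hf : ∀ j, ∃ c, f j = Sum.inl c := by
    intro j
    rcases f j with c | e
    · exact ⟨c, rfl⟩
    · exact e.elim
  choose c hc using hf
  constructor
  · rintro ⟨i, t', h1, h2⟩
    have : t' = fun j => Sum.map id b (f j) := by
      funext j
      have h3 := h1 j
      beta_reduce at h3
      rw [hc] at h3 ⊢
      rcases ht : t' j with c' | x
      · rw [ht] at h3
        simpa using h3.symm
      · rw [ht] at h3
        simp at h3
    rw [← this]
    exact h2
  · intro h
    refine ⟨⟨0, hk⟩, _, fun j => ?_, h⟩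
    beta_reduce
    rw [hc]
    rfl

/-- the type of many copies does not depend on their number -/
theorem tp_copies_stable (M : PStr ρ α X) : ∀ (q k : ℕ), q + 1 ≤ k →
    ∀ (a : Empty → Fin k × X) (b : Empty → Fin (k + 1) × X),
      tp q (copies k M) a = tp q (copies (k + 1) M) b := by
  have hat : ∀ k, 1 ≤ k → ∀ (a : Empty → Fin k × X) (b : Empty → Fin (k + 1) × X),
      atoms (copies k M) a = atoms (copies (k + 1) M) b := by
    intro k hk a b
    refine atoms_eq.2 ⟨fun i => i.elim, fun r R f => ?_⟩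
    rw [copies_const (by omega) M r R f a Empty.elim, copies_const (by omega) M r R f b Empty.elim]
  intro q
  induction q with
  | zero => exact fun k hk a b => hat k hk a b
  | succ q ih =>
    intro k hk a b
    obtain ⟨k, rfl⟩ : ∃ k', k = k' + 1 := ⟨k - 1, by omega⟩
    have main : ∀ (i : Fin (k + 1)) (i' : Fin (k + 2)) (x : X),
        tp q (copies (k + 1) M) (fun o : Option Empty => o.elim (i, x) a) =
          tp q (copies (k + 2) M) (fun o : Option Empty => o.elim (i', x) b) := by
      intro i i' x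
      rw [tp_copies_succ q k M i, tp_copies_succ q (k + 1) M i']
      have e1 : (fun o : Option Empty => takeOut k X i (o.elim (i, x) a)) =
          fun o : Option Empty => Sum.map (fun o' : Option Empty => o'.elim x Empty.elim)
            (Empty.elim : Empty → Fin k × X) (Sum.inl o) := by
        funext o
        cases o with
        | none => exact takeOut_self k i x
        | some e => exact e.elim
      have e2 : (fun o : Option Empty => takeOut (k + 1) X i' (o.elim (i', x) b)) =
          fun o : Option Empty => Sum.map (fun o' : Option Empty => o'.elim x Empty.elim)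
            (Empty.elim : Empty → Fin (k + 1) × X) (Sum.inl o) := by
        funext o
        cases o with
        | none => exact takeOut_self (k + 1) i' x
        | some e => exact e.elim
      rw [e1, e2]
      exact tp_amalg q _ _ _ _ _ rfl (ih k (by omega) _ _)
    refine tp_succ.2 ⟨hat _ (by omega) a b, fun p => ?_, fun p => ?_⟩
    · exact ⟨(0, p.2), main p.1 0 p.2⟩
    · exact ⟨(0, p.2), main 0 p.1 p.2⟩

theorem tp_copies_eq (M : PStr ρ α X) (q k l : ℕ) (hk : q + 1 ≤ k) (hl : q + 1 ≤ l)
    (a : Empty → Fin k × X) (b : Empty → Fin l × X) :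
    tp q (copies k M) a = tp q (copies l M) b := by
  have main : ∀ m, tp q (copies (q + 1) M) (Empty.elim : Empty → Fin (q + 1) × X) =
      tp q (copies (q + 1 + m) M) (Empty.elim : Empty → Fin (q + 1 + m) × X) := by
    intro m
    induction m with
    | zero => rfl
    | succ m ih => exact ih.trans (tp_copies_stable M q _ (by omega) _ _)
  obtain ⟨m, rfl⟩ := Nat.exists_eq_add_of_le hk
  obtain ⟨m', rfl⟩ := Nat.exists_eq_add_of_le hl
  have ha : a = Empty.elim := funext fun e => e.elim
  have hb : b = Empty.elim := funext fun e => e.elim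
  rw [ha, hb]
  exact (main m).symm.trans (main m')

/-- the amalgam of `k` copies and `l` copies -/
def addCopies (k l : ℕ) (X : Type) : (Fin k × X) ⊕ (Fin l × X) ≃ Fin (k + l) × X :=
  (Equiv.sumProdDistrib (Fin k) (Fin l) X).symm.trans (finSumFinEquiv.prodCongr (Equiv.refl X))

theorem amalg_copies (k l : ℕ) (M : PStr ρ α X) (r : ℕ) (R : ρ r)
    (t : Fin r → α ⊕ ((Fin k × X) ⊕ (Fin l × X))) :
    amalg (copies k M) (copies l M) r R t ↔
      copies (k + l) M r R (fun j => Sum.map id (addCopies k l X) (t j)) := by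
  have hl : ∀ (i : Fin k) (x : X), addCopies k l X (Sum.inl (i, x)) = (Fin.castAdd l i, x) :=
    fun i x => rfl
  have hr : ∀ (i : Fin l) (x : X), addCopies k l X (Sum.inr (i, x)) = (Fin.natAdd k i, x) :=
    fun i x => rfl
  constructor
  · rintro (⟨t', h1, i, t'', h2, h3⟩ | ⟨t', h1, i, t'', h2, h3⟩)
    · refine ⟨Fin.castAdd l i, t'', fun j => ?_, h3⟩
      beta_reduce
      rw [h1, h2]
      rcases t'' j with c | x
      · rfl
      · simp only [Sum.map_inr, hl]
    · refine ⟨Fin.natAdd k i, t'', fun j => ?_, h3⟩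
      beta_reduce
      rw [h1, h2]
      rcases t'' j with c | x
      · rfl
      · simp only [Sum.map_inr, hr]
  · rintro ⟨i, t'', h1, h2⟩
    induction i using Fin.addCases with
    | left i =>
      left
      refine ⟨fun j => Sum.map id (fun x => (i, x)) (t'' j), fun j => ?_, i, t'', fun j => rfl, h2⟩
      have h3 := (map_eq _ (g := fun x => Sum.inl (i, x)) (fun y => hl i y) _ _).1 (h1 j)
      refine h3.trans ?_
      beta_reduce
      rcases t'' j with c | x <;> rfl
    | right i =>
      right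
      refine ⟨fun j => Sum.map id (fun x => (i, x)) (t'' j), fun j => ?_, i, t'', fun j => rfl, h2⟩
      have h3 := (map_eq _ (g := fun x => Sum.inr (i, x)) (fun y => hr i y) _ _).1 (h1 j)
      refine h3.trans ?_
      beta_reduce
      rcases t'' j with c | x <;> rfl

/-- structures which have the type of many copies of a fixed structure can be added -/
theorem tp_amalg_idem (q K : ℕ) (hK : q + 1 ≤ K) (M : PStr ρ α X) {N : PStr ρ α Y}
    {N' : PStr ρ α Y'} (hN : tp q N (Empty.elim : Empty → Y) =
      tp q (copies K M) (Empty.elim : Empty → Fin K × X))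
    (hN' : tp q N' (Empty.elim : Empty → Y') =
      tp q (copies K M) (Empty.elim : Empty → Fin K × X)) :
    tp q (amalg N N') (Empty.elim : Empty → Y ⊕ Y') =
      tp q (copies K M) (Empty.elim : Empty → Fin K × X) := by
  have h1 := tp_amalg q (τ := Empty) _ _ _ _ Empty.elim hN hN'
  have e : ∀ {Z : Type} (a b : Empty → Z), a = b := fun a b => funext fun e => e.elim
  rw [e (Empty.elim : Empty → Y ⊕ Y') _, h1,
    tp_iso (addCopies K K X) (fun r R t => amalg_copies K K M r R t)]
  exact tp_copies_eq M q _ _ (by omega) hK _ _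

/-- there are finitely many types -/
theorem finite_ty [Finite (Σ r, ρ r)] [Finite α] : ∀ (q : ℕ) (ι : Type) [Finite ι],
    Finite (Ty ρ α q ι) := by
  have hA : ∀ (ι : Type) [Finite ι], Finite (Atom ρ α ι) := by
    intro ι _
    unfold Atom
    infer_instance
  intro q
  induction q with
  | zero =>
    intro ι _
    haveI := hA ι
    change Finite (Set (Atom ρ α ι))
    infer_instance
  | succ q ih =>
    intro ι _
    haveI := hA ι
    haveI := ih (Option ι)
    change Finite (Set (Atom ρ α ι) × Set (Ty ρ α q (Option ι)))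
    infer_instance

end Pool.Agent.J4H63.AS
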